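import Pool.Agent.H93W.L2

/-!
Approximation by smooth functions, and the Riesz-Thorin bound.
-/

set_option autoImplicit false

open MeasureTheory Set Filter Topology
open scoped ENNReal ContDiff SchwartzMap Convolution

namespace Pool.Agent.H93W.Appr

open Pool.Agent.H93W.RT Pool.Agent.H93W.Kern Pool.Agent.H93W.Op Pool.Agent.H93W.Pair

lemma appr1 {V : ℝ → ℂ} (hVc : Continuous V) {a b : ℝ} (ha : 0 < a) (hab : a < b)
    (hV0 : ∀ t, t ∉ Icc a b → V t = 0) {δ : ℝ} (hδ : 0 < δ) : ∃ V' : ℝ → ℂ, ContDiff ℝ ∞ V' ∧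
      (∀ t, t ∉ Icc (a / 2) (b + a / 2) → V' t = 0) ∧ ∀ t, ‖V' t - V t‖ ≤ δ := by
  have hc : HasCompactSupport V := CC.hcs ⟨hVc, a, b, ha, hab, hV0⟩
  have huc := hc.uniformContinuous_of_continuous hVc
  rw [Metric.uniformContinuous_iff] at huc
  obtain ⟨r, hr, hr2⟩ := huc δ hδ
  have hr0 : 0 < min r (a / 2) := lt_min hr (by linarith)
  let φ : ContDiffBump (0 : ℝ) := ⟨min r (a / 2) / 2, min r (a / 2), by linarith, by linarith⟩
  have hφ : φ.rOut = min r (a / 2) := rfl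
  refine ⟨(φ.normed volume ⋆[ContinuousLinearMap.lsmul ℝ ℝ, volume] V : ℝ → ℂ), ?_, fun t ht => ?_,
    fun t => ?_⟩
  · exact φ.hasCompactSupport_normed.contDiff_convolution_left _ φ.contDiff_normed
      hVc.locallyIntegrable
  · have h1 : V t = 0 := hV0 t fun h => ht ⟨by linarith [h.1], by linarith [h.2]⟩
    have h2 : ∀ x ∈ Metric.ball t φ.rOut, dist (V x) (V t) ≤ 0 := by
      intro x hx
      rw [hφ, Metric.mem_ball, Real.dist_eq, abs_lt] at hx
      have h3 : min r (a / 2) ≤ a / 2 := min_le_right _ _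
      rw [h1, hV0 x, dist_self]
      intro h
      exact ht ⟨by linarith [h.1, hx.1, hx.2], by linarith [h.2, hx.1, hx.2]⟩
    have h3 := φ.dist_normed_convolution_le (μ := volume) hVc.aestronglyMeasurable h2
    have h4 := dist_le_zero.1 h3
    rw [h4, h1]
  · have h2 : ∀ x ∈ Metric.ball t φ.rOut, dist (V x) (V t) ≤ δ := by
      intro x hx
      rw [hφ, Metric.mem_ball] at hx
      exact (hr2 (lt_of_lt_of_le hx (min_le_left _ _))).le
    have h3 := φ.dist_normed_convolution_le (μ := volume) hVc.aestronglyMeasurable h2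
    rw [← dist_eq_norm]
    exact h3

theorem appr {V : ℝ → ℂ} (hV : CC V) : ∃ (W : ℕ → ℝ → ℂ) (a b : ℝ), 0 < a ∧ a < b ∧
    (∀ k, ContDiff ℝ ∞ (W k)) ∧ (∀ t, t ∉ Icc a b → V t = 0) ∧
    (∀ k t, t ∉ Icc a b → W k t = 0) ∧ ∀ (k : ℕ) t, ‖W k t - V t‖ ≤ 1 / ((k : ℝ) + 1) := by
  obtain ⟨hVc, a, b, ha, hab, hV0⟩ := hV
  choose W h1 h2 h3 using fun k : ℕ =>
    appr1 hVc ha hab hV0 (δ := 1 / ((k : ℝ) + 1)) (by positivity)
  refine ⟨W, a / 2, b + a / 2, by linarith, by linarith, h1, fun t ht => ?_, h2, h3⟩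
  exact hV0 t fun h => ht ⟨by linarith [h.1], by linarith [h.2]⟩

lemma Lam_sub {n j : ℕ} (hn : 1 ≤ n) {U V W : ℝ → ℂ} (hU : CC U) (hV : CC V) (hW : CC W) :
    Lam (Op.ker n j) U (fun t => W t - V t) = Lam (Op.ker n j) U W - Lam (Op.ker n j) U V := by
  unfold RT.Lam
  have e1 : ∫ t, U t * (W t - V t) = (∫ t, U t * W t) - ∫ t, U t * V t := by
    rw [← integral_sub (int1 hU hW) (int1 hU hV)]
    refine integral_congr_ae (Eventually.of_forall fun t => ?_)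
    simp only
    ring
  have e2 : ∫ q : ℝ × ℝ, Op.ker n j q * (U q.1 * (W q.2 - V q.2)) =
      (∫ q : ℝ × ℝ, Op.ker n j q * (U q.1 * W q.2)) - ∫ q : ℝ × ℝ, Op.ker n j q * (U q.1 * V q.2) := by
    rw [← integral_sub (int2 (ker_loc hn j) hU hW) (int2 (ker_loc hn j) hU hV)]
    refine integral_congr_ae (Eventually.of_forall fun t => ?_)
    simp only
    ring
  rw [e1, e2]
  ring

lemma CC.bdd {U : ℝ → ℂ} (hU : CC U) : ∃ m, ∀ t, ‖U t‖ ≤ m := by
  obtain ⟨m, hm⟩ := hU.hcs.exists_bound_of_continuous hU.1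
  exact ⟨m, hm⟩

lemma int_sub_le {V W : ℝ → ℂ} {a b δ : ℝ} (hab : a < b)
    (h0 : ∀ t, t ∉ Icc a b → W t - V t = 0) (h1 : ∀ t, ‖W t - V t‖ ≤ δ) :
    ∫ t, ‖W t - V t‖ ≤ δ * (b - a) := by
  have h2 : ∫ t, ‖W t - V t‖ = ∫ t in Icc a b, ‖W t - V t‖ := by
    symm
    apply setIntegral_eq_integral_of_forall_compl_eq_zero
    intro t ht
    rw [h0 t ht, norm_zero]
  rw [h2]
  have h3 := norm_setIntegral_le_of_norm_le_const (μ := (volume : Measure ℝ)) (s := Icc a b)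
    (f := fun t => ‖W t - V t‖) (C := δ) (by simp) (fun t _ => by simpa using h1 t)
  rw [Measure.real, Real.volume_Icc, ENNReal.toReal_ofReal (by linarith)] at h3
  exact (le_abs_self _).trans h3

lemma Lam_tendsto {n j : ℕ} (hn : 1 ≤ n) {U V : ℝ → ℂ} (hU : CC U) {W : ℕ → ℝ → ℂ} {a b : ℝ}
    (ha : 0 < a) (hab : a < b) (hVc : Continuous V) (hV0 : ∀ t, t ∉ Icc a b → V t = 0)
    (hWc : ∀ k, Continuous (W k)) (hW0 : ∀ k t, t ∉ Icc a b → W k t = 0)
    (hW : ∀ (k : ℕ) t, ‖W k t - V t‖ ≤ 1 / ((k : ℝ) + 1)) :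
    Tendsto (fun k => Lam (Op.ker n j) U (W k)) atTop (𝓝 (Lam (Op.ker n j) U V)) := by
  obtain ⟨m, hm⟩ := CC.bdd hU
  have hm0 : 0 ≤ m := (norm_nonneg (U 0)).trans (hm 0)
  rw [tendsto_iff_norm_sub_tendsto_zero]
  have hV : CC V := ⟨hVc, a, b, ha, hab, hV0⟩
  have hWk : ∀ k, CC (W k) := fun k => ⟨hWc k, a, b, ha, hab, hW0 k⟩
  have hd : ∀ k, CC (fun t => W k t - V t) := fun k =>
    ⟨(hWc k).sub hVc, a, b, ha, hab, fun t ht => by simp only [hW0 k t ht, hV0 t ht, sub_zero]⟩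
  have hb : ∀ k, ‖Lam (Op.ker n j) U (W k) - Lam (Op.ker n j) U V‖ ≤
      m * (1 + Ik n j) * (1 / ((k : ℝ) + 1) * (b - a)) := by
    intro k
    rw [← Lam_sub hn hU hV (hWk k)]
    refine (bound1 hn (hd k) hm).trans ?_
    have := int_sub_le hab (fun t ht => by rw [hW0 k t ht, hV0 t ht, sub_zero]) (hW k)
    have h1 : 0 ≤ m * (1 + Ik n j) := mul_nonneg hm0 (by linarith [Ik_nonneg n j])
    exact mul_le_mul_of_nonneg_left this h1
  have hlim : Tendsto (fun k : ℕ => m * (1 + Ik n j) * (1 / ((k : ℝ) + 1) * (b - a))) atTop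
      (𝓝 (m * (1 + Ik n j) * (0 * (b - a)))) :=
    (tendsto_one_div_add_atTop_nhds_zero_nat.mul_const _).const_mul _
  rw [zero_mul, mul_zero] at hlim
  exact squeeze_zero (fun k => norm_nonneg _) hb hlim

theorem H2 {n j : ℕ} (hn : 1 ≤ n) {U V : ℝ → ℂ} (hU : CC U) (hV : CC V) :
    ‖Lam (Op.ker n j) U V‖ ≤ (∫ t, ‖U t‖ ^ 2) ^ (1 / 2 : ℝ) * (∫ t, ‖V t‖ ^ 2) ^ (1 / 2 : ℝ) := by
  obtain ⟨W, a, b, ha, hab, hWs, hV0, hW0, hW⟩ := appr hV
  have hVc := hV.1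
  have h1 := (Lam_tendsto (j := j) hn hU ha hab hVc hV0 (fun k => (hWs k).continuous) hW0 hW).norm
  obtain ⟨m, hm⟩ := CC.bdd hV
  have hm0 : 0 ≤ m := (norm_nonneg (V 0)).trans (hm 0)
  have h2 : Tendsto (fun k => ∫ t, ‖W k t‖ ^ 2) atTop (𝓝 (∫ t, ‖V t‖ ^ 2)) := by
    refine tendsto_integral_of_dominated_convergence ((Icc a b).indicator fun _ => (m + 1) ^ 2)
      (fun k => ((hWs k).continuous.norm.pow 2).aestronglyMeasurable) ?_ (fun k => ?_) ?_
    · rw [integrable_indicator_iff measurableSet_Icc]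
      exact integrableOn_const (by simp)
    · refine Eventually.of_forall fun t => ?_
      by_cases ht : t ∈ Icc a b
      · rw [indicator_of_mem ht, norm_pow, norm_norm]
        have h3 : ‖W k t‖ ≤ ‖W k t - V t‖ + ‖V t‖ := by
          have := norm_add_le (W k t - V t) (V t)
          rwa [sub_add_cancel] at this
        have h4 : 1 / ((k : ℝ) + 1) ≤ 1 := by
          rw [div_le_one (by positivity)]
          have : (0 : ℝ) ≤ k := Nat.cast_nonneg k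
          linarith
        have h5 := hW k t
        have h6 := hm t
        have h7 := norm_nonneg (W k t)
        gcongr
        linarith
      · rw [indicator_of_notMem ht, hW0 k t ht]
        simp
    · refine Eventually.of_forall fun t => ?_
      have h3 : Tendsto (fun k => W k t) atTop (𝓝 (V t)) := by
        rw [tendsto_iff_norm_sub_tendsto_zero]
        exact squeeze_zero (fun k => norm_nonneg _) (fun k => hW k t)
          tendsto_one_div_add_atTop_nhds_zero_nat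
      exact h3.norm.pow 2
  have h3 : Tendsto (fun k => (∫ t, ‖U t‖ ^ 2) ^ (1 / 2 : ℝ) * (∫ t, ‖W k t‖ ^ 2) ^ (1 / 2 : ℝ)) atTop
      (𝓝 ((∫ t, ‖U t‖ ^ 2) ^ (1 / 2 : ℝ) * (∫ t, ‖V t‖ ^ 2) ^ (1 / 2 : ℝ))) := by
    refine Tendsto.const_mul _ ?_
    exact h2.rpow_const (Or.inr (by norm_num))
  refine le_of_tendsto_of_tendsto' h1 h3 fun k => ?_
  exact L2.H2s hn hU ⟨(hWs k).continuous, a, b, ha, hab, hW0 k⟩ (hWs k)

theorem rt {n j : ℕ} (hn : 1 ≤ n) {U V : ℝ → ℂ} (hU : CC U) (hV : CC V) {p q : ℝ} (hp : 2 < p)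
    (hpq : 1 / p + 1 / q = 1) : ‖Lam (Op.ker n j) U V‖ ≤
      (1 + Ik n j) ^ (1 - 2 / p) * (∫ t, ‖U t‖ ^ p) ^ (1 / p) * (∫ t, ‖V t‖ ^ q) ^ (1 / q) := by
  refine RT.main (by linarith [Ik_nonneg n j]) (ker_loc hn j) hU hV hp hpq
    (fun U V hU hV => H2 hn hU hV) fun U V hU hV hm => ?_
  have := bound1 (j := j) hn hV hm
  rwa [one_mul] at this

end Pool.Agent.H93W.Appr
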