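import Mathlib
import Pool.Agent.Y282.RB.Stm

/-!
Comparison of the constants.
-/

set_option autoImplicit false

open MeasureTheory Set Filter Topology

namespace Pool.Agent.H93W.Const

open Pool.Agent.Y282.RB

lemma log_ratio {x : ℝ} (h0 : 0 ≤ x) (h1 : x < 1) : 2 * x ≤ Real.log ((1 + x) / (1 - x)) := by
  have h2 : 0 < 1 - x := by linarith
  have h3 : 0 ≤ 2 * x / (1 - x) := by positivity
  have h4 := Real.le_log_one_add_of_nonneg h3
  have e1 : 1 + 2 * x / (1 - x) = (1 + x) / (1 - x) := by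
    field_simp
    ring
  have e2 : 2 * (2 * x / (1 - x)) / (2 * x / (1 - x) + 2) = 2 * x := by
    have : 2 * x / (1 - x) + 2 = 2 / (1 - x) := by
      field_simp
      ring
    rw [this]
    field_simp
  rwa [e1, e2] at h4

/-- the exponential of the odd harmonic sum -/
noncomputable def En (n : ℕ) : ℝ := Real.exp (∑ i ∈ Finset.range n, 2 / (2 * (i : ℝ) + 1))

lemma Cn_ge {p : ℝ} (hp : 2 ≤ p) (n : ℕ) : (En n) ^ (1 - 2 / p) ≤ Cn p n := by
  have hp0 : 0 < p := by linarith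
  set u : ℝ := 1 - 2 / p with hu
  have hu0 : 0 ≤ u := by
    rw [hu, sub_nonneg, div_le_one hp0]
    exact hp
  have hu1 : u < 1 := by
    rw [hu]
    have : 0 < 2 / p := by positivity
    linarith
  have hip : 1 / p = (1 - u) / 2 := by
    rw [hu]
    field_simp
    ring
  unfold Cn En
  rw [← Real.exp_mul, Finset.sum_mul, Real.exp_sum]
  refine Finset.prod_le_prod (fun i _ => (Real.exp_pos _).le) fun i _ => ?_
  have hi : (0 : ℝ) ≤ i := Nat.cast_nonneg i
  have hx0 : 0 ≤ u / (2 * (i : ℝ) + 1) := by positivity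
  have hx1 : u / (2 * (i : ℝ) + 1) < 1 := by
    rw [div_lt_one (by positivity)]
    linarith
  have h1 := log_ratio hx0 hx1
  have hpos : 0 < (1 + u / (2 * (i : ℝ) + 1)) / (1 - u / (2 * (i : ℝ) + 1)) := by
    apply div_pos (by positivity)
    linarith
  have h2 : Real.exp (2 * (u / (2 * (i : ℝ) + 1))) ≤
      (1 + u / (2 * (i : ℝ) + 1)) / (1 - u / (2 * (i : ℝ) + 1)) := by
    rw [← Real.exp_log hpos]
    exact Real.exp_le_exp.2 h1
  have e1 : 2 / (2 * (i : ℝ) + 1) * u = 2 * (u / (2 * (i : ℝ) + 1)) := by ring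
  have e2 : ((i : ℝ) + 1 - 1 / p) / ((i : ℝ) + 1 / p) =
      (1 + u / (2 * (i : ℝ) + 1)) / (1 - u / (2 * (i : ℝ) + 1)) := by
    rw [hip]
    have h3 : (2 * (i : ℝ) + 1) ≠ 0 := by positivity
    have h4 : (i : ℝ) + (1 - u) / 2 ≠ 0 := by
      have : 0 < (i : ℝ) + (1 - u) / 2 := by linarith
      exact this.ne'
    have h5 : 1 - u / (2 * (i : ℝ) + 1) ≠ 0 := by
      have : 0 < 1 - u / (2 * (i : ℝ) + 1) := by linarith
      exact this.ne'
    rw [div_eq_div_iff h4 h5]
    field_simp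
    ring
  rw [e1, e2]
  exact h2

lemma En_ge (n : ℕ) : 2 * ((n : ℝ) + 1) + 2 ≤ En (n + 1) := by
  induction n with
  | zero =>
    unfold En
    simp only [zero_add, Finset.range_one, Finset.sum_singleton, Nat.cast_zero, mul_zero, div_one]
    have h1 := Real.exp_one_gt_d9
    have h2 : Real.exp 2 = Real.exp 1 * Real.exp 1 := by
      rw [← Real.exp_add]
      norm_num
    rw [h2]
    nlinarith
  | succ n ih =>
    unfold En at ih ⊢
    rw [Finset.sum_range_succ, Real.exp_add]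
    have h1 : 1 + 2 / (2 * ((n + 1 : ℕ) : ℝ) + 1) ≤ Real.exp (2 / (2 * ((n + 1 : ℕ) : ℝ) + 1)) := by
      have := Real.add_one_le_exp (2 / (2 * ((n + 1 : ℕ) : ℝ) + 1))
      linarith
    have hn : (0 : ℝ) ≤ n := Nat.cast_nonneg n
    push_cast at h1 ⊢
    calc 2 * ((n : ℝ) + 1 + 1) + 2 ≤ (2 * ((n : ℝ) + 1) + 2) * (1 + 2 / (2 * ((n : ℝ) + 1) + 1)) := by
          rw [← sub_nonneg]
          have e : (2 * ((n : ℝ) + 1) + 2) * (1 + 2 / (2 * ((n : ℝ) + 1) + 1)) -
              (2 * ((n : ℝ) + 1 + 1) + 2) = 2 / (2 * ((n : ℝ) + 1) + 1) := by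
            field_simp
            ring
          rw [e]
          positivity
      _ ≤ _ := mul_le_mul ih h1 (by positivity) (Real.exp_pos _).le

lemma B_le {n : ℕ} (hn : 1 ≤ n) : 1 + Real.sqrt (5 * n * (1 + Real.log (1 + n))) ≤ 2 * (n : ℝ) + 2 := by
  have hn1 : (1 : ℝ) ≤ n := by exact_mod_cast hn
  have h2 : Real.log (1 + n) ≤ n * Real.log 2 := by
    rw [← Real.log_pow]
    refine Real.log_le_log (by positivity) ?_
    have h3 := one_add_mul_le_pow (show (-2 : ℝ) ≤ 1 by norm_num) n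
    have h4 : (1 : ℝ) + 1 = 2 := by norm_num
    rw [h4] at h3
    linarith
  have h3 := Real.log_two_lt_d9
  have h4 : Real.log (1 + n) ≤ 0.6931471808 * n := by nlinarith
  have h5 : Real.sqrt (5 * n * (1 + Real.log (1 + n))) ≤ 2 * (n : ℝ) + 1 := by
    rw [Real.sqrt_le_left (by positivity)]
    have h6 : 5 * (n : ℝ) * (1 + Real.log (1 + n)) ≤ 5 * n * (1 + 0.6931471808 * n) := by
      gcongr
    nlinarith [sq_nonneg ((n : ℝ) - 1)]
  linarith

theorem main {p : ℝ} (hp : 2 ≤ p) {n : ℕ} (hn : 1 ≤ n) :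
    (1 + Real.sqrt (5 * n * (1 + Real.log (1 + n)))) ^ (1 - 2 / p) ≤ Cn p n := by
  have hp0 : 0 < p := by linarith
  have hu0 : 0 ≤ 1 - 2 / p := by
    rw [sub_nonneg, div_le_one hp0]
    exact hp
  refine le_trans ?_ (Cn_ge hp n)
  obtain ⟨m, rfl⟩ := Nat.exists_eq_add_of_le' hn
  refine Real.rpow_le_rpow (by positivity) ?_ hu0
  refine (B_le hn).trans ?_
  have := En_ge m
  push_cast
  exact this

end Pool.Agent.H93W.Const
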