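import Pool.Agent.Y282.RB.K

/-!
Symmetry of the powers of the Beurling transform, and rotations.
-/

set_option autoImplicit false

open MeasureTheory Set Filter Topology
open scoped SchwartzMap ENNReal ContDiff

namespace Pool.Agent.H93W.Sym

open Pool.Agent.TH55.PowA (T Ft bs sm Adm T_integrand_int T_cont Ft_eq Ft_fun Ft_int bs_meas
  bs_norm_le norm_ex meas_ex)
open Pool.Agent.Y282.RB

lemma sm_neg (x ξ : ℂ) : sm x (-ξ) = -sm x ξ := by
  unfold sm
  simp only [Complex.neg_re, Complex.neg_im]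
  ring

lemma Ft_neg (g : 𝓢(ℂ, ℂ)) (ξ : ℂ) : Ft g (-ξ) =
    ∫ x : ℂ, Complex.exp (2 * (Real.pi : ℂ) * Complex.I * ((sm x ξ : ℝ) : ℂ)) * g x := by
  unfold Ft
  refine integral_congr_ae (Eventually.of_forall fun x => ?_)
  simp only
  rw [sm_neg]
  congr 2
  push_cast
  ring

lemma pair {m : ℂ → ℂ} (hm : Adm m) (f g : 𝓢(ℂ, ℂ)) :
    ∫ x, T m f x * g x = ∫ ξ, m ξ * Ft f ξ * Ft g (-ξ) := by
  have hM : Integrable (fun ξ => m ξ * Ft f ξ) := by
    have := T_integrand_int hm f 0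
    refine this.congr (Eventually.of_forall fun ξ => ?_)
    simp [sm]
  have hprod : Integrable (fun q : ℂ × ℂ => g q.1 * (m q.2 * Ft f q.2)) (volume.prod volume) :=
    g.integrable.mul_prod hM
  have hex : Measurable (fun q : ℂ × ℂ =>
      Complex.exp (2 * (Real.pi : ℂ) * Complex.I * ((sm q.1 q.2 : ℝ) : ℂ))) := by
    unfold sm
    fun_prop
  have hI : Integrable (Function.uncurry fun x ξ : ℂ =>
      Complex.exp (2 * (Real.pi : ℂ) * Complex.I * ((sm x ξ : ℝ) : ℂ)) * (m ξ * Ft f ξ) * g x)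
      (volume.prod volume) := by
    refine hprod.mono ?_ (Eventually.of_forall fun q => ?_)
    · have h1 : (Function.uncurry fun x ξ : ℂ =>
          Complex.exp (2 * (Real.pi : ℂ) * Complex.I * ((sm x ξ : ℝ) : ℂ)) * (m ξ * Ft f ξ) * g x) =
          fun q : ℂ × ℂ => Complex.exp (2 * (Real.pi : ℂ) * Complex.I * ((sm q.1 q.2 : ℝ) : ℂ)) *
            (g q.1 * (m q.2 * Ft f q.2)) := by
        funext q
        simp only [Function.uncurry]
        ring
      rw [h1]
      exact hex.aestronglyMeasurable.mul hprod.aestronglyMeasurable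
    · simp only [Function.uncurry]
      rw [norm_mul, norm_mul, norm_ex, one_mul, norm_mul, mul_comm, norm_mul, norm_mul]
  calc ∫ x, T m f x * g x = ∫ x, ∫ ξ,
        Complex.exp (2 * (Real.pi : ℂ) * Complex.I * ((sm x ξ : ℝ) : ℂ)) * (m ξ * Ft f ξ) * g x := by
        refine integral_congr_ae (Eventually.of_forall fun x => ?_)
        simp only [T]
        rw [integral_mul_const]
    _ = ∫ ξ, ∫ x,
        Complex.exp (2 * (Real.pi : ℂ) * Complex.I * ((sm x ξ : ℝ) : ℂ)) * (m ξ * Ft f ξ) * g x :=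
        integral_integral_swap hI
    _ = _ := by
        refine integral_congr_ae (Eventually.of_forall fun ξ => ?_)
        simp only
        rw [Ft_neg, ← integral_const_mul]
        refine integral_congr_ae (Eventually.of_forall fun x => ?_)
        simp only
        ring

lemma sym {m : ℂ → ℂ} (hm : Adm m) (he : ∀ ξ, m (-ξ) = m ξ) (f g : 𝓢(ℂ, ℂ)) :
    ∫ x, T m f x * g x = ∫ x, f x * T m g x := by
  have h1 : ∫ x, f x * T m g x = ∫ x, T m g x * f x :=
    integral_congr_ae (Eventually.of_forall fun x => mul_comm _ _)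
  rw [h1, pair hm, pair hm, ← integral_neg_eq_self (fun ξ => m ξ * Ft f ξ * Ft g (-ξ))]
  refine integral_congr_ae (Eventually.of_forall fun ξ => ?_)
  simp only [neg_neg, he]
  ring

lemma sym_Tn (n : ℕ) (f g : 𝓢(ℂ, ℂ)) : ∫ x, Tn n f x * g x = ∫ x, f x * Tn n g x := by
  rw [K.Tn_eq, K.Tn_eq]
  refine sym (K.adm_sy n) (fun ξ => ?_) f g
  simp only [bs, map_neg, neg_div_neg_eq]

/-! ### rotations -/

lemma rot_int {a : ℂ} (ha : ‖a‖ = 1) (g : ℂ → ℂ) : ∫ x : ℂ, g (a * x) = ∫ x : ℂ, g x := by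
  have h1 : a ∈ Submonoid.unitSphere ℂ := by
    rw [Submonoid.unitSphere]
    simpa using ha
  have h2 := (rotation (⟨a, h1⟩ : Circle)).measurePreserving
  have h3 := h2.integral_comp (rotation (⟨a, h1⟩ : Circle)).toHomeomorph.measurableEmbedding g
  exact h3

lemma conj_of_unit {a : ℂ} (ha : ‖a‖ = 1) : a * starRingEnd ℂ a = 1 := by
  rw [Complex.mul_conj, Complex.normSq_eq_norm_sq, ha]
  simp

lemma sm_rot {a : ℂ} (ha : ‖a‖ = 1) (x ξ : ℂ) : sm (a * x) (a * ξ) = sm x ξ := by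
  have h : a.re * a.re + a.im * a.im = 1 := by
    have h1 : Complex.normSq a = 1 := by
      rw [Complex.normSq_eq_norm_sq, ha]
      norm_num
    rwa [Complex.normSq_apply] at h1
  unfold sm
  simp only [Complex.mul_re, Complex.mul_im]
  linear_combination (x.re * ξ.re + x.im * ξ.im) * h

lemma Ft_rot {a : ℂ} (ha : ‖a‖ = 1) (f : 𝓢(ℂ, ℂ)) {c : ℂ} (hf : ∀ z, f (a * z) = c * f z)
    (ξ : ℂ) : Ft f (a * ξ) = c * Ft f ξ := by
  unfold Ft
  rw [← rot_int ha, ← integral_const_mul]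
  refine integral_congr_ae (Eventually.of_forall fun x => ?_)
  simp only
  rw [sm_rot ha, hf]
  ring

lemma bs_rot {a : ℂ} (ha : ‖a‖ = 1) (ξ : ℂ) : bs (a * ξ) = a ^ (-2 : ℤ) * bs ξ := by
  have ha0 : a ≠ 0 := by
    rintro rfl
    simp at ha
  have h1 := conj_of_unit ha
  unfold bs
  rw [map_mul]
  have h2 : starRingEnd ℂ a = a⁻¹ := eq_inv_of_mul_eq_one_right h1
  rw [h2]
  have h3 : a ^ (-2 : ℤ) = a⁻¹ * a⁻¹ := by
    rw [zpow_neg]
    have : a ^ (2 : ℤ) = a * a := by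
      rw [zpow_two]
    rw [this, mul_inv]
  rw [h3]
  field_simp

lemma Tn_rot (n : ℕ) {a : ℂ} (ha : ‖a‖ = 1) (f : 𝓢(ℂ, ℂ)) {c : ℂ} (hf : ∀ z, f (a * z) = c * f z)
    (z : ℂ) : Tn n f (a * z) = (a ^ (-2 : ℤ)) ^ n * c * Tn n f z := by
  rw [K.Tn_eq]
  unfold T
  rw [← rot_int ha, ← integral_const_mul]
  refine integral_congr_ae (Eventually.of_forall fun ξ => ?_)
  simp only
  rw [sm_rot ha, Ft_rot ha f hf, bs_rot ha, mul_pow]
  ring

end Pool.Agent.H93W.Sym
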