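import Pool.Agent.H93W.Appr
import Pool.Agent.H93W.Sym

/-!
The identity between the plane and the half line, and duality.
-/

set_option autoImplicit false

open MeasureTheory Set Filter Topology
open scoped ENNReal ContDiff SchwartzMap

namespace Pool.Agent.H93W.Dual

open Pool.Agent.H93W.RT Pool.Agent.H93W.Kern Pool.Agent.H93W.Op Pool.Agent.H93W.Pair
open Pool.Agent.Y282.RB

/-- the class `k` -/
def Cl (k : ℤ) (f : ℂ → ℂ) : Prop := ∀ a z : ℂ, ‖a‖ = 1 → f (a * z) = a ^ k * f z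

/-- the radial profile -/
noncomputable def pr (f : ℂ → ℂ) (t : ℝ) : ℂ := f ((√t : ℝ) : ℂ)

lemma pr_cont {f : ℂ → ℂ} (hf : Continuous f) : Continuous (pr f) :=
  hf.comp (Complex.continuous_ofReal.comp Real.continuous_sqrt)

lemma unit_norm {z : ℂ} (hz : z ≠ 0) : ‖z / (‖z‖ : ℂ)‖ = 1 := by
  rw [norm_div, Complex.norm_real, norm_norm]
  exact div_self (norm_ne_zero_iff.2 hz)

lemma eq_pr {k : ℤ} {f : ℂ → ℂ} (hf : Cl k f) {z : ℂ} (hz : z ≠ 0) :
    f z = (z / (‖z‖ : ℂ)) ^ k * pr f (Complex.normSq z) := by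
  have hn : (‖z‖ : ℂ) ≠ 0 := Complex.ofReal_ne_zero.2 (norm_ne_zero_iff.2 hz)
  have h3 := hf (z / (‖z‖ : ℂ)) (‖z‖ : ℂ) (unit_norm hz)
  rw [div_mul_cancel₀ _ hn] at h3
  exact h3

lemma norm_pr {k : ℤ} {f : ℂ → ℂ} (hf : Cl k f) {z : ℂ} (hz : z ≠ 0) :
    ‖f z‖ = ‖pr f (Complex.normSq z)‖ := by
  rw [eq_pr hf hz, norm_mul, norm_zpow, unit_norm hz, one_zpow, one_mul]

lemma cl_Tn {n j : ℕ} {f : 𝓢(ℂ, ℂ)} (hf : Cl ((n : ℤ) - j) f) : Cl (-((n + j : ℕ) : ℤ)) (Tn n f) := by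
  intro a z ha
  have ha0 : a ≠ 0 := by
    rintro rfl
    simp at ha
  rw [Sym.Tn_rot n ha f (fun z => hf a z ha)]
  congr 1
  rw [← zpow_natCast, ← zpow_mul, ← zpow_add₀ ha0]
  congr 1
  push_cast
  ring

lemma ne0 : ∀ᵐ z : ℂ, z ≠ 0 := by
  rw [ae_iff]
  simp

/-- compact support away from zero -/
def Ann (f : ℂ → ℂ) : Prop := ∃ a b : ℝ, 0 < a ∧ a < b ∧ ∀ z, Complex.normSq z ∉ Icc a b → f z = 0

lemma cc_pr {f : ℂ → ℂ} (hc : Continuous f) (hf : Ann f) : CC (pr f) := by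
  obtain ⟨a, b, ha, hab, h0⟩ := hf
  refine ⟨pr_cont hc, a, b, ha, hab, fun t ht => ?_⟩
  refine h0 _ ?_
  rw [Complex.normSq_ofReal]
  rcases le_or_gt 0 t with h | h
  · rw [Real.mul_self_sqrt h]
    exact ht
  · rw [Real.sqrt_eq_zero_of_nonpos h.le]
    intro h1
    have := h1.1
    linarith

theorem ident_smooth {n j : ℕ} (hn : 1 ≤ n) {f : 𝓢(ℂ, ℂ)} (hf : Cl ((n : ℤ) - j) f) (ha : Ann f)
    {V : ℝ → ℂ} (hV : CC V) (hVs : ContDiff ℝ ∞ V) :
    ∫ t, pr (Tn n f) t * V t = Lam (Op.ker n j) (pr f) V := by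
  obtain ⟨ψ, h1, h2, h3⟩ := schw n j hV hVs
  have hpi : (Real.pi : ℂ) ≠ 0 := Complex.ofReal_ne_zero.2 Real.pi_pos.ne'
  apply mul_left_cancel₀ hpi
  rw [L2.Lam_eq hn (cc_pr f.continuous ha) hV]
  have e1 : ∫ t, pr (Tn n f) t * V t = ∫ t in Ioi (0 : ℝ), pr (Tn n f) t * V t := by
    symm
    apply setIntegral_eq_integral_of_forall_compl_eq_zero
    intro t ht
    obtain ⟨_, a, b, ha, hab, hV0⟩ := hV
    rw [hV0 t (fun h => ht (lt_of_lt_of_le ha h.1)), mul_zero]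
  rw [e1, ← L2.int_normSqC]
  have hl : ∫ z : ℂ, pr (Tn n f) (Complex.normSq z) * V (Complex.normSq z) =
      ∫ z, Tn n f z * ψ z := by
    refine integral_congr_ae ?_
    filter_upwards [ne0] with z hz
    rw [eq_pr (cl_Tn hf) hz, h1 z hz]
    have hu : z / (‖z‖ : ℂ) ≠ 0 := by
      intro h
      have := unit_norm hz
      rw [h, norm_zero] at this
      exact zero_ne_one this
    have hu2 : (z / (‖z‖ : ℂ)) ^ (-((n + j : ℕ) : ℤ)) * (z / (‖z‖ : ℂ)) ^ (n + j) = 1 := by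
      rw [zpow_neg, zpow_natCast]
      exact inv_mul_cancel₀ (pow_ne_zero _ hu)
    linear_combination -(pr (Tn n f) (Complex.normSq z) * V (Complex.normSq z)) * hu2
  have hr : ∫ z : ℂ, pr f (Complex.normSq z) * AV n j V (Complex.normSq z) =
      ∫ z, f z * Tn n ψ z := by
    refine integral_congr_ae ?_
    filter_upwards [ne0] with z hz
    rw [eq_pr hf hz, h3 z hz]
    have hu2 : (z / (‖z‖ : ℂ)) ^ ((n : ℤ) - j) * (starRingEnd ℂ z / (‖z‖ : ℂ)) ^ ((n : ℤ) - j) = 1 := by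
      rw [← mul_zpow]
      have : z / (‖z‖ : ℂ) * (starRingEnd ℂ z / (‖z‖ : ℂ)) = 1 := by
        have h4 := Sym.conj_of_unit (unit_norm hz)
        rwa [map_div₀, Complex.conj_ofReal] at h4
      rw [this, one_zpow]
    linear_combination -(pr f (Complex.normSq z) * AV n j V (Complex.normSq z)) * hu2
  rw [hl, hr]
  exact Sym.sym_Tn n f ψ

theorem ident {n j : ℕ} (hn : 1 ≤ n) {f : 𝓢(ℂ, ℂ)} (hf : Cl ((n : ℤ) - j) f) (ha : Ann f)
    {V : ℝ → ℂ} (hV : CC V) :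
    ∫ t, pr (Tn n f) t * V t = Lam (Op.ker n j) (pr f) V := by
  obtain ⟨W, a, b, ha', hab, hWs, hV0, hW0, hW⟩ := Appr.appr hV
  have hVc := hV.1
  have hTc : Continuous (pr (Tn n f)) := by
    apply pr_cont
    rw [K.Tn_eq]
    exact Pool.Agent.TH55.PowA.T_cont (K.adm_sy n) f
  have h1 := Appr.Lam_tendsto (j := j) hn (cc_pr f.continuous ha) ha' hab hVc hV0
    (fun k => (hWs k).continuous) hW0 hW
  obtain ⟨m, hm⟩ := Appr.CC.bdd hV
  have hm0 : 0 ≤ m := (norm_nonneg (V 0)).trans (hm 0)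
  have h2 : Tendsto (fun k => ∫ t, pr (Tn n f) t * W k t) atTop (𝓝 (∫ t, pr (Tn n f) t * V t)) := by
    refine tendsto_integral_of_dominated_convergence
      ((Icc a b).indicator fun t => ‖pr (Tn n f) t‖ * (m + 1))
      (fun k => (hTc.mul (hWs k).continuous).aestronglyMeasurable) ?_ (fun k => ?_) ?_
    · rw [integrable_indicator_iff measurableSet_Icc]
      exact (hTc.norm.mul continuous_const).continuousOn.integrableOn_Icc
    · refine Eventually.of_forall fun t => ?_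
      by_cases ht : t ∈ Icc a b
      · rw [indicator_of_mem ht, norm_mul]
        have h3 : ‖W k t‖ ≤ ‖W k t - V t‖ + ‖V t‖ := by
          have := norm_add_le (W k t - V t) (V t)
          rwa [sub_add_cancel] at this
        have h4 : 1 / ((k : ℝ) + 1) ≤ 1 := by
          rw [div_le_one (by positivity)]
          have : (0 : ℝ) ≤ k := Nat.cast_nonneg k
          linarith
        have h5 := hW k t
        have h6 := hm t
        exact mul_le_mul_of_nonneg_left (by linarith) (norm_nonneg _)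
      · rw [indicator_of_notMem ht, hW0 k t ht]
        simp
    · refine Eventually.of_forall fun t => ?_
      have h3 : Tendsto (fun k => W k t) atTop (𝓝 (V t)) := by
        rw [tendsto_iff_norm_sub_tendsto_zero]
        exact squeeze_zero (fun k => norm_nonneg _) (fun k => hW k t)
          tendsto_one_div_add_atTop_nhds_zero_nat
      exact h3.const_mul _
  refine tendsto_nhds_unique h2 ?_
  have h3 : (fun k => ∫ t, pr (Tn n f) t * W k t) = fun k => Lam (Op.ker n j) (pr f) (W k) := by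
    funext k
    exact ident_smooth hn hf ha ⟨(hWs k).continuous, a, b, ha', hab, hW0 k⟩ (hWs k)
  rw [h3]
  exact h1

/-- the dual estimate on the half line -/
theorem dual {n j : ℕ} (hn : 1 ≤ n) {f : 𝓢(ℂ, ℂ)} (hf : Cl ((n : ℤ) - j) f) (ha : Ann f)
    {p : ℝ} (hp : 2 < p) {χ : ℝ → ℝ} (hχc : Continuous χ) (hχ : ∀ x, 0 ≤ χ x ∧ χ x ≤ 1)
    {c d : ℝ} (hc : 0 < c) (hcd : c < d) (hχ0 : ∀ t, t ∉ Icc c d → χ t = 0) :
    ∫ t, χ t * ‖pr (Tn n f) t‖ ^ p ≤ ((1 + Ik n j) ^ (1 - 2 / p)) ^ p * ∫ t, ‖pr f t‖ ^ p := by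
  have hp0 : 0 < p := by linarith
  obtain ⟨q, hq⟩ : ∃ q : ℝ, q = p / (p - 1) := ⟨_, rfl⟩
  have hp1 : 0 < p - 1 := by linarith
  have hq0 : 0 < q := by rw [hq]; positivity
  have hpq : 1 / p + 1 / q = 1 := by
    rw [hq]
    field_simp
    ring
  have hq1 : 1 ≤ q := by
    rw [hq, le_div_iff₀ hp1]
    linarith
  have hTc : Continuous (pr (Tn n f)) := by
    apply pr_cont
    rw [K.Tn_eq]
    exact Pool.Agent.TH55.PowA.T_cont (K.adm_sy n) f
  obtain ⟨w, hw⟩ : ∃ w, w = pr (Tn n f) := ⟨_, rfl⟩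
  rw [← hw] at hTc ⊢
  obtain ⟨V, hVd⟩ : ∃ V : ℝ → ℂ, V = fun t => ((χ t * ‖w t‖ ^ (p - 2) : ℝ) : ℂ) *
    starRingEnd ℂ (w t) := ⟨_, rfl⟩
  have hVc : Continuous V := by
    rw [hVd]
    refine Continuous.mul ?_ (Complex.continuous_conj.comp hTc)
    refine Complex.continuous_ofReal.comp (hχc.mul ?_)
    exact hTc.norm.rpow_const fun x => Or.inr (by linarith)
  have hV : CC V := ⟨hVc, c, d, hc, hcd, fun t ht => by
    rw [hVd]
    simp only
    rw [hχ0 t ht]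
    simp⟩
  have hpow : ∀ t, ‖w t‖ ^ (p - 2) * (‖w t‖ * ‖w t‖) = ‖w t‖ ^ p := by
    intro t
    rcases eq_or_lt_of_le (norm_nonneg (w t)) with h | h
    · rw [← h, Real.zero_rpow (by linarith), Real.zero_rpow hp0.ne', zero_mul]
    · rw [Real.rpow_sub h, Real.rpow_two]
      field_simp
  have hwV : ∀ t, w t * V t = ((χ t * ‖w t‖ ^ p : ℝ) : ℂ) := by
    intro t
    rw [← hpow t, hVd]
    simp only
    have h1 : w t * starRingEnd ℂ (w t) = ((‖w t‖ * ‖w t‖ : ℝ) : ℂ) := by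
      rw [Complex.mul_conj, Complex.normSq_eq_norm_sq, sq]
    calc w t * (((χ t * ‖w t‖ ^ (p - 2) : ℝ) : ℂ) * starRingEnd ℂ (w t)) =
        ((χ t * ‖w t‖ ^ (p - 2) : ℝ) : ℂ) * (w t * starRingEnd ℂ (w t)) := by ring
      _ = _ := by
        rw [h1, ← Complex.ofReal_mul]
        congr 1
        ring
  obtain ⟨X, hX⟩ : ∃ X, X = ∫ t, χ t * ‖w t‖ ^ p := ⟨_, rfl⟩
  have hX0 : 0 ≤ X := by
    rw [hX]
    exact integral_nonneg fun t => mul_nonneg (hχ t).1 (Real.rpow_nonneg (norm_nonneg _) _)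
  have hXi : Integrable (fun t => χ t * ‖w t‖ ^ p) := by
    refine Continuous.integrable_of_hasCompactSupport ?_ ?_
    · exact hχc.mul (hTc.norm.rpow_const fun x => Or.inr hp0.le)
    · refine HasCompactSupport.intro (isCompact_Icc (a := c) (b := d)) fun t ht => ?_
      rw [hχ0 t ht, zero_mul]
  have h1 : ‖Lam (Op.ker n j) (pr f) V‖ = X := by
    rw [← ident hn hf ha hV, ← hw]
    simp_rw [hwV]
    rw [integral_complex_ofReal, Complex.norm_real, ← hX, Real.norm_of_nonneg hX0]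
  have h2 := Appr.rt (j := j) hn (cc_pr f.continuous ha) hV hp hpq
  rw [h1] at h2
  have h3 : ∫ t, ‖V t‖ ^ q ≤ X := by
    rw [hX]
    refine integral_mono_of_nonneg (Eventually.of_forall fun t => by positivity) hXi
      (Eventually.of_forall fun t => ?_)
    simp only
    have hχt := hχ t
    have hnV : ‖V t‖ = χ t * ‖w t‖ ^ (p - 1) := by
      rw [hVd]
      simp only
      rw [norm_mul, RCLike.norm_conj, Complex.norm_real, Real.norm_of_nonneg
        (mul_nonneg hχt.1 (Real.rpow_nonneg (norm_nonneg _) _)), mul_assoc]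
      congr 1
      rcases eq_or_lt_of_le (norm_nonneg (w t)) with h | h
      · rw [← h, Real.zero_rpow hp1.ne', mul_zero]
      · rw [← Real.rpow_add_one h.ne']
        congr 1
        ring
    rw [hnV, Real.mul_rpow hχt.1 (Real.rpow_nonneg (norm_nonneg _) _), ← Real.rpow_mul (norm_nonneg _)]
    have h4 : (p - 1) * q = p := by
      rw [hq]
      field_simp
    rw [h4]
    refine mul_le_mul_of_nonneg_right ?_ (Real.rpow_nonneg (norm_nonneg _) _)
    calc χ t ^ q ≤ χ t ^ (1 : ℝ) := Real.rpow_le_rpow_of_exponent_ge' hχt.1 hχt.2 zero_le_one hq1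
      _ = χ t := Real.rpow_one _
  have hN0 : 0 ≤ ∫ t, ‖pr f t‖ ^ p := integral_nonneg fun t => by positivity
  have hB0 : 0 ≤ 1 + Ik n j := by linarith [Ik_nonneg n j]
  have hB1 : 0 ≤ (1 + Ik n j) ^ (1 - 2 / p) := Real.rpow_nonneg hB0 _
  have h5 : X ≤ (1 + Ik n j) ^ (1 - 2 / p) * (∫ t, ‖pr f t‖ ^ p) ^ (1 / p) * X ^ (1 / q) := by
    refine h2.trans ?_
    refine mul_le_mul_of_nonneg_left ?_ (mul_nonneg hB1 (Real.rpow_nonneg hN0 _))
    exact Real.rpow_le_rpow (integral_nonneg fun t => by positivity) h3 (by positivity)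
  rw [← hX]
  rcases eq_or_lt_of_le hX0 with h | h
  · rw [← h]
    exact mul_nonneg (Real.rpow_nonneg hB1 _) hN0
  · have h6 : X ^ (1 / p) ≤ (1 + Ik n j) ^ (1 - 2 / p) * (∫ t, ‖pr f t‖ ^ p) ^ (1 / p) := by
      have h7 : X = X ^ (1 / p) * X ^ (1 / q) := by
        rw [← Real.rpow_add h, hpq, Real.rpow_one]
      have h8 : X ^ (1 / p) * X ^ (1 / q) ≤
          (1 + Ik n j) ^ (1 - 2 / p) * (∫ t, ‖pr f t‖ ^ p) ^ (1 / p) * X ^ (1 / q) := by
        rw [← h7]
        exact h5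
      exact le_of_mul_le_mul_right h8 (Real.rpow_pos_of_pos h _)
    calc X = (X ^ (1 / p)) ^ p := by
          rw [← Real.rpow_mul hX0, one_div_mul_cancel hp0.ne', Real.rpow_one]
      _ ≤ ((1 + Ik n j) ^ (1 - 2 / p) * (∫ t, ‖pr f t‖ ^ p) ^ (1 / p)) ^ p :=
          Real.rpow_le_rpow (Real.rpow_nonneg hX0 _) h6 hp0.le
      _ = _ := by
          rw [Real.mul_rpow hB1 (Real.rpow_nonneg hN0 _), ← Real.rpow_mul hN0,
            one_div_mul_cancel hp0.ne', Real.rpow_one]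

end Pool.Agent.H93W.Dual
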