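import Mathlib

/-!
The kernel of the powers of the Beurling transform on one angular class: weighted `L²` norms.
-/

set_option autoImplicit false

open MeasureTheory Set Filter Topology

namespace Pool.Agent.H93W.Kern

/-! ### binomial sums -/

/-- alternating binomial sums -/
def D (n : ℕ) (c : ℕ → ℝ) : ℝ := ∑ l ∈ Finset.range (n + 1), (-1) ^ l * (n.choose l : ℝ) * c l

/-- binomial sums -/
def S (n : ℕ) (c : ℕ → ℝ) : ℝ := ∑ l ∈ Finset.range (n + 1), (n.choose l : ℝ) * c l

lemma D_succ (n : ℕ) (c : ℕ → ℝ) : D (n + 1) c = D n c - D n (fun l => c (l + 1)) := by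
  unfold D
  rw [Finset.sum_range_succ' _ (n + 1)]
  have h1 : ∀ l ∈ Finset.range (n + 1), (-1 : ℝ) ^ (l + 1) * ((n + 1).choose (l + 1) : ℝ) * c (l + 1) =
      (-1 : ℝ) ^ (l + 1) * (n.choose (l + 1) : ℝ) * c (l + 1) -
        (-1 : ℝ) ^ l * (n.choose l : ℝ) * c (l + 1) := by
    intro l _
    rw [Nat.choose_succ_succ]
    push_cast
    ring
  rw [Finset.sum_congr rfl h1, Finset.sum_sub_distrib]
  have h2 : ∑ l ∈ Finset.range (n + 1), (-1 : ℝ) ^ (l + 1) * (n.choose (l + 1) : ℝ) * c (l + 1) +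
      (-1 : ℝ) ^ 0 * (n.choose 0 : ℝ) * c 0 =
      ∑ l ∈ Finset.range (n + 1), (-1 : ℝ) ^ l * (n.choose l : ℝ) * c l := by
    rw [← Finset.sum_range_succ' (fun l => (-1 : ℝ) ^ l * (n.choose l : ℝ) * c l),
      Finset.sum_range_succ]
    simp
  simp only [Nat.choose_zero_right] at h2 ⊢
  linarith

lemma S_succ (n : ℕ) (c : ℕ → ℝ) : S (n + 1) c = S n c + S n (fun l => c (l + 1)) := by
  unfold S
  rw [Finset.sum_range_succ' _ (n + 1)]
  have h1 : ∀ l ∈ Finset.range (n + 1), ((n + 1).choose (l + 1) : ℝ) * c (l + 1) =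
      (n.choose (l + 1) : ℝ) * c (l + 1) + (n.choose l : ℝ) * c (l + 1) := by
    intro l _
    rw [Nat.choose_succ_succ]
    push_cast
    ring
  rw [Finset.sum_congr rfl h1, Finset.sum_add_distrib]
  have h2 : ∑ l ∈ Finset.range (n + 1), (n.choose (l + 1) : ℝ) * c (l + 1) +
      (n.choose 0 : ℝ) * c 0 = ∑ l ∈ Finset.range (n + 1), (n.choose l : ℝ) * c l := by
    rw [← Finset.sum_range_succ' (fun l => (n.choose l : ℝ) * c l), Finset.sum_range_succ]
    simp
  simp only [Nat.choose_zero_right] at h2 ⊢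
  linarith

lemma D_congr {n : ℕ} {c d : ℕ → ℝ} (h : ∀ l ≤ n, c l = d l) : D n c = D n d := by
  unfold D
  refine Finset.sum_congr rfl fun l hl => ?_
  rw [h l (Nat.lt_succ_iff.1 (Finset.mem_range.1 hl))]

lemma S_congr {n : ℕ} {c d : ℕ → ℝ} (h : ∀ l ≤ n, c l = d l) : S n c = S n d := by
  unfold S
  refine Finset.sum_congr rfl fun l hl => ?_
  rw [h l (Nat.lt_succ_iff.1 (Finset.mem_range.1 hl))]

lemma D_sub (n : ℕ) (c d : ℕ → ℝ) : D n c - D n d = D n (fun l => c l - d l) := by
  unfold D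
  rw [← Finset.sum_sub_distrib]
  refine Finset.sum_congr rfl fun l _ => by ring

lemma S_add (n : ℕ) (c d : ℕ → ℝ) : S n c + S n d = S n (fun l => c l + d l) := by
  unfold S
  rw [← Finset.sum_add_distrib]
  refine Finset.sum_congr rfl fun l _ => by ring

lemma vander (n : ℕ) : ∀ j c : ℕ, S n (fun l => (j.choose (l + c) : ℝ)) = ((n + j).choose (n + c) : ℝ) := by
  induction n with
  | zero => intro j c; simp [S]
  | succ n ih =>
    intro j c
    rw [S_succ, S_add, S_congr (d := fun l => ((j + 1).choose (l + (c + 1)) : ℝ)), ih]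
    · congr 2 <;> omega
    · intro l _
      have : l + (c + 1) = l + c + 1 := by ring
      rw [this, Nat.choose_succ_succ]
      have : l + 1 + c = l + c + 1 := by ring
      rw [this]
      push_cast
      ring

lemma alt (n : ℕ) : ∀ j r : ℕ, n ≤ j + r →
    D n (fun l => ((j + r - l).choose r : ℝ)) = ((j + r - n).choose j : ℝ) := by
  induction n with
  | zero =>
    intro j r _
    simp only [D, zero_add, Finset.range_one, Finset.sum_singleton, pow_zero, Nat.choose_self,
      Nat.cast_one, one_mul, Nat.sub_zero]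
    rw [Nat.choose_symm_add]
  | succ n ih =>
    intro j r h
    rw [D_succ, D_sub]
    rcases r with _ | r
    · have h1 : D n (fun l => (((j + 0 - l).choose 0 : ℕ) : ℝ) - (((j + 0 - (l + 1)).choose 0 : ℕ) : ℝ)) = 0 := by
        simp [D]
      rw [h1, Nat.choose_eq_zero_of_lt (by omega)]
      simp
    · rw [D_congr (d := fun l => ((j + r - l).choose r : ℝ)), ih j r (by omega)]
      · congr 2
        omega
      · intro l hl
        have e1 : j + (r + 1) - l = (j + r - l) + 1 := by omega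
        have e2 : j + (r + 1) - (l + 1) = j + r - l := by omega
        rw [e1, e2, Nat.choose_succ_succ]
        push_cast
        ring

lemma D_const (n : ℕ) (c : ℝ) (hn : n ≠ 0) : D n (fun _ => c) = 0 := by
  obtain ⟨m, rfl⟩ := Nat.exists_eq_succ_of_ne_zero hn
  rw [Nat.succ_eq_add_one, D_succ, sub_self]

/-! ### Beta integrals -/

lemma beta (B : ℕ) : ∀ A : ℕ, ∫ x in (0 : ℝ)..1, x ^ A * (1 - x) ^ B =
    (A.factorial * B.factorial : ℝ) / ((A + B + 1).factorial : ℝ) := by
  induction B with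
  | zero =>
    intro A
    simp only [pow_zero, mul_one, integral_pow, one_pow, Nat.factorial_zero, Nat.cast_one, add_zero,
      Nat.factorial_succ]
    rw [zero_pow (Nat.succ_ne_zero A)]
    have : (A.factorial : ℝ) ≠ 0 := by positivity
    push_cast
    field_simp
    ring
  | succ B ih =>
    intro A
    have h1 : ∫ x in (0 : ℝ)..1, (((A : ℝ) + 1) * (x ^ A * (1 - x) ^ (B + 1)) -
        ((B : ℝ) + 1) * (x ^ (A + 1) * (1 - x) ^ B)) = 0 := by
      have h2 : ∀ x ∈ uIcc (0 : ℝ) 1, HasDerivAt (fun x : ℝ => x ^ (A + 1) * (1 - x) ^ (B + 1))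
          (((A : ℝ) + 1) * (x ^ A * (1 - x) ^ (B + 1)) -
            ((B : ℝ) + 1) * (x ^ (A + 1) * (1 - x) ^ B)) x := by
        intro x _
        have h3 : HasDerivAt (fun x : ℝ => 1 - x) (-1) x := by
          simpa using (hasDerivAt_id x).const_sub 1
        have h4 := (hasDerivAt_pow (A + 1) x).mul (h3.pow (B + 1))
        refine h4.congr_deriv ?_
        simp only [Nat.add_sub_cancel, Pi.pow_apply]
        push_cast
        ring
      rw [intervalIntegral.integral_eq_sub_of_hasDerivAt h2 (by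
        apply Continuous.intervalIntegrable
        fun_prop)]
      simp
    have i1 : IntervalIntegrable (fun x : ℝ => ((A : ℝ) + 1) * (x ^ A * (1 - x) ^ (B + 1))) volume 0 1 := by
      apply Continuous.intervalIntegrable
      fun_prop
    have i2 : IntervalIntegrable (fun x : ℝ => ((B : ℝ) + 1) * (x ^ (A + 1) * (1 - x) ^ B)) volume 0 1 := by
      apply Continuous.intervalIntegrable
      fun_prop
    rw [intervalIntegral.integral_sub i1 i2, intervalIntegral.integral_const_mul,
      intervalIntegral.integral_const_mul, ih (A + 1)] at h1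
    have hA : (0 : ℝ) < (A : ℝ) + 1 := by positivity
    have h5 : ∫ x in (0 : ℝ)..1, x ^ A * (1 - x) ^ (B + 1) =
        ((B : ℝ) + 1) * (((A + 1).factorial * B.factorial : ℝ) / ((A + 1 + B + 1).factorial : ℝ)) / ((A : ℝ) + 1) := by
      rw [eq_div_iff hA.ne']
      linarith
    rw [h5]
    have e : A + 1 + B + 1 = A + (B + 1) + 1 := by ring
    rw [e, Nat.factorial_succ A, Nat.factorial_succ B]
    push_cast
    have : ((A + (B + 1) + 1).factorial : ℝ) ≠ 0 := by positivity
    field_simp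

/-! ### the polynomials -/

/-- coefficients -/
def co (n j l : ℕ) : ℝ := (-1) ^ l * ((l : ℝ) * (n.choose l : ℝ) * (j.choose l : ℝ))

noncomputable def P (n j : ℕ) (x : ℝ) : ℝ :=
  ∑ l ∈ Finset.range (n + 1), co n j l * (x ^ (j - l) * (1 - x) ^ (l - 1))

noncomputable def Q (n j : ℕ) (x : ℝ) : ℝ :=
  ∑ l ∈ Finset.range (n + 1), co n j l * (x ^ (n - l) * (1 - x) ^ (l - 1))

lemma P_cont (n j : ℕ) : Continuous (P n j) := by
  unfold P
  fun_prop

lemma Q_cont (n j : ℕ) : Continuous (Q n j) := by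
  unfold Q
  fun_prop

lemma co_zero (n j : ℕ) : co n j 0 = 0 := by simp [co]

lemma co_gt (n : ℕ) {j l : ℕ} (h : j < l) : co n j l = 0 := by
  simp [co, Nat.choose_eq_zero_of_lt h]

/-- moments -/
noncomputable def mv (n j r : ℕ) : ℝ := ((j + r - n).choose j : ℝ) / ((j + r).choose j : ℝ)

lemma term (n j r l : ℕ) (h : n ≤ j + r) (hl : l ≤ n) (hl0 : l ≠ 0) :
    co n j l * ∫ x in (0 : ℝ)..1, x ^ (j - l + r) * (1 - x) ^ (l - 1) =
      (-1) ^ l * (n.choose l : ℝ) * ((j + r - l).choose r : ℝ) / ((j + r).choose j : ℝ) := by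
  rcases lt_or_ge j l with hjl | hjl
  · rw [co_gt n hjl, zero_mul, Nat.choose_eq_zero_of_lt (by omega : j + r - l < r)]
    simp
  · rw [beta]
    obtain ⟨k, rfl⟩ := Nat.exists_eq_succ_of_ne_zero hl0
    obtain ⟨f, rfl⟩ := Nat.exists_eq_add_of_le hjl
    rw [Nat.succ_eq_add_one] at *
    have e1 : k + 1 + f - (k + 1) = f := by omega
    have e2 : k + 1 + f + r - (k + 1) = f + r := by omega
    have e3 : f + r + (k + 1 - 1) + 1 = k + 1 + f + r := by omega
    rw [e1, e2, e3, Nat.add_sub_cancel]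
    have g1 : ((k + 1 + f).choose (k + 1) : ℝ) * ((k + 1).factorial : ℝ) * (f.factorial : ℝ) =
        ((k + 1 + f).factorial : ℝ) := by
      rw [Nat.choose_symm_add]
      exact_mod_cast Nat.add_choose_mul_factorial_mul_factorial (k + 1) f
    have g2 : ((k + 1 + f + r).choose (k + 1 + f) : ℝ) * ((k + 1 + f).factorial : ℝ) *
        (r.factorial : ℝ) = ((k + 1 + f + r).factorial : ℝ) := by
      rw [Nat.choose_symm_add]
      exact_mod_cast Nat.add_choose_mul_factorial_mul_factorial (k + 1 + f) r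
    have g3 : ((f + r).choose r : ℝ) * (f.factorial : ℝ) * (r.factorial : ℝ) =
        ((f + r).factorial : ℝ) := by
      exact_mod_cast Nat.add_choose_mul_factorial_mul_factorial f r
    have g4 : ((k + 1).factorial : ℝ) = ((k : ℝ) + 1) * (k.factorial : ℝ) := by
      rw [Nat.factorial_succ]; push_cast; ring
    have hC : ((k + 1 + f + r).choose (k + 1 + f) : ℝ) ≠ 0 := by
      have := Nat.choose_pos (n := k + 1 + f + r) (k := k + 1 + f) (by omega)
      positivity
    have hF : ((k + 1 + f + r).factorial : ℝ) ≠ 0 := by positivity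
    unfold co
    rw [eq_div_iff hC, mul_div_assoc', div_mul_eq_mul_div, div_eq_iff hF, ← g2, ← g1, g4, ← g3]
    push_cast
    ring

lemma mom (n j r : ℕ) (h : n ≤ j + r) : ∫ x in (0 : ℝ)..1, P n j x * x ^ r = -1 + mv n j r := by
  have h1 : ∀ x : ℝ, P n j x * x ^ r =
      ∑ l ∈ Finset.range (n + 1), co n j l * (x ^ (j - l + r) * (1 - x) ^ (l - 1)) := by
    intro x
    unfold P
    rw [Finset.sum_mul]
    refine Finset.sum_congr rfl fun l _ => ?_
    rw [pow_add]
    ring
  simp_rw [h1]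
  rw [intervalIntegral.integral_finsetSum (fun l _ => by
    apply Continuous.intervalIntegrable
    fun_prop)]
  simp_rw [intervalIntegral.integral_const_mul]
  rw [Finset.sum_range_succ', co_zero, zero_mul, add_zero]
  have h2 : ∀ l ∈ Finset.range n, co n j (l + 1) * ∫ x in (0 : ℝ)..1,
      x ^ (j - (l + 1) + r) * (1 - x) ^ (l + 1 - 1) =
      (-1) ^ (l + 1) * (n.choose (l + 1) : ℝ) * ((j + r - (l + 1)).choose r : ℝ) /
        ((j + r).choose j : ℝ) := by
    intro l hl
    exact term n j r (l + 1) h (Finset.mem_range.1 hl) (Nat.succ_ne_zero l)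
  rw [Finset.sum_congr rfl h2, ← Finset.sum_div]
  have h3 := alt n j r h
  unfold D at h3
  rw [Finset.sum_range_succ'] at h3
  have hC : ((j + r).choose j : ℝ) ≠ 0 := by
    have := Nat.choose_pos (n := j + r) (k := j) (by omega)
    positivity
  have h4 : ∑ l ∈ Finset.range n, (-1 : ℝ) ^ (l + 1) * (n.choose (l + 1) : ℝ) *
      ((j + r - (l + 1)).choose r : ℝ) = ((j + r - n).choose j : ℝ) - ((j + r).choose j : ℝ) := by
    rw [← h3, Nat.choose_symm_add (a := j) (b := r)]
    simp
  rw [h4]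
  unfold mv
  field_simp
  ring

lemma mix (n j : ℕ) (B : ℕ) : ∀ A : ℕ, n ≤ j + A →
    ∫ x in (0 : ℝ)..1, P n j x * (x ^ A * (1 - x) ^ B) = D B (fun i => -1 + mv n j (A + i)) := by
  induction B with
  | zero =>
    intro A h
    simp only [pow_zero, mul_one]
    rw [mom n j A h]
    simp [D]
  | succ B ih =>
    intro A h
    rw [D_succ, ← ih A h]
    have e : (fun l => -1 + mv n j (A + (l + 1))) = fun l => -1 + mv n j (A + 1 + l) := by
      funext l
      rw [show A + (l + 1) = A + 1 + l by ring]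
    rw [e, ← ih (A + 1) (by omega)]
    have hc := P_cont n j
    rw [← intervalIntegral.integral_sub]
    · refine intervalIntegral.integral_congr fun x _ => ?_
      ring
    · apply Continuous.intervalIntegrable
      fun_prop
    · apply Continuous.intervalIntegrable
      fun_prop

lemma D_add (n : ℕ) (c d : ℕ → ℝ) : D n (fun l => c l + d l) = D n c + D n d := by
  unfold D
  rw [← Finset.sum_add_distrib]
  refine Finset.sum_congr rfl fun l _ => by ring

lemma D_zero_of (n : ℕ) (c : ℕ → ℝ) (h : ∀ i, i ≤ n → c i = 0) : D n c = 0 := by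
  unfold D
  refine Finset.sum_eq_zero fun i hi => ?_
  rw [h i (Nat.lt_succ_iff.1 (Finset.mem_range.1 hi)), mul_zero]

lemma mv_lt {n j r : ℕ} (h : r < n) (h2 : n ≤ j + r) : mv n j r = 0 := by
  unfold mv
  rw [Nat.choose_eq_zero_of_lt (by omega)]
  simp

lemma mv_n (n j : ℕ) : mv n j n = 1 / ((n + j).choose j : ℝ) := by
  unfold mv
  rw [Nat.add_sub_cancel, Nat.choose_self, add_comm j n]
  simp

lemma mv_n1 (n j : ℕ) : mv n j (n + 1) = ((j : ℝ) + 1) / ((n + 1 + j).choose j : ℝ) := by
  unfold mv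
  have e : j + (n + 1) - n = j + 1 := by omega
  rw [e, Nat.choose_succ_self_right, add_comm j (n + 1)]
  push_cast
  rfl

/-- the three mixed moments -/
lemma mix0 {n j l : ℕ} (h1 : 1 ≤ l) (h2 : l ≤ n) (h3 : l ≤ j) :
    ∫ x in (0 : ℝ)..1, P n j x * (x ^ (n - l) * (1 - x) ^ (l - 1)) = if l = 1 then -1 else 0 := by
  rw [mix n j (l - 1) (n - l) (by omega), D_add, D_zero_of (l - 1) (fun i => mv n j (n - l + i))]
  · split_ifs with h
    · subst h
      simp [D]
    · rw [D_const _ _ (by omega), zero_add]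
  · intro i hi
    exact mv_lt (by omega) (by omega)

lemma mix1 {n j l : ℕ} (h1 : 1 ≤ l) (h2 : l ≤ n) (h3 : l ≤ j) :
    ∫ x in (0 : ℝ)..1, P n j x * (x ^ (n - l) * (1 - x) ^ l) =
      (-1) ^ l / ((n + j).choose j : ℝ) := by
  rw [mix n j l (n - l) (by omega), D_add, D_const _ _ (by omega), zero_add]
  unfold D
  rw [Finset.sum_range_succ, Finset.sum_eq_zero, Nat.choose_self, zero_add]
  · beta_reduce
    rw [Nat.sub_add_cancel h2, mv_n]
    push_cast
    ring
  · intro i hi
    rw [Finset.mem_range] at hi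
    beta_reduce
    rw [mv_lt (n := n) (j := j) (r := n - l + i) (by omega) (by omega), mul_zero]

lemma mix2 {n j l : ℕ} (h1 : 1 ≤ l) (h2 : l ≤ n) (h3 : l ≤ j) :
    ∫ x in (0 : ℝ)..1, P n j x * (x ^ (n - l) * (1 - x) ^ (l + 1)) =
      (-1) ^ l * (((l : ℝ) + 1) / ((n + j).choose j : ℝ) -
        ((j : ℝ) + 1) / ((n + 1 + j).choose j : ℝ)) := by
  rw [mix n j (l + 1) (n - l) (by omega), D_add, D_const _ _ (by omega), zero_add]
  unfold D
  rw [Finset.sum_range_succ, Finset.sum_range_succ, Finset.sum_eq_zero, Nat.choose_self, zero_add,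
    Nat.choose_succ_self_right]
  · beta_reduce
    have e : n - l + (l + 1) = n + 1 := by omega
    rw [Nat.sub_add_cancel h2, mv_n, e, mv_n1, pow_succ]
    push_cast
    ring
  · intro i hi
    rw [Finset.mem_range] at hi
    beta_reduce
    rw [mv_lt (n := n) (j := j) (r := n - l + i) (by omega) (by omega), mul_zero]

lemma expand (n j i : ℕ) : ∫ x in (0 : ℝ)..1, P n j x * Q n j x * (1 - x) ^ i =
    ∑ l ∈ Finset.range (n + 1), co n j l * ∫ x in (0 : ℝ)..1,
      P n j x * (x ^ (n - l) * (1 - x) ^ (l - 1 + i)) := by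
  have hc := P_cont n j
  have h1 : ∀ x : ℝ, P n j x * Q n j x * (1 - x) ^ i = ∑ l ∈ Finset.range (n + 1),
      co n j l * (P n j x * (x ^ (n - l) * (1 - x) ^ (l - 1 + i))) := by
    intro x
    conv_lhs => rw [Q]
    rw [Finset.mul_sum, Finset.sum_mul]
    refine Finset.sum_congr rfl fun l _ => ?_
    rw [pow_add]
    ring
  simp_rw [h1]
  rw [intervalIntegral.integral_finsetSum (fun l _ => by
    apply Continuous.intervalIntegrable
    fun_prop)]
  simp_rw [intervalIntegral.integral_const_mul]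

lemma E1 {n : ℕ} (hn : 1 ≤ n) (j : ℕ) :
    ∫ x in (0 : ℝ)..1, P n j x * Q n j x = (n : ℝ) * j := by
  have h := expand n j 0
  simp only [pow_zero, mul_one, add_zero] at h
  rw [h, Finset.sum_eq_single 1]
  · rcases Nat.eq_zero_or_pos j with rfl | hj
    · rw [co_gt n (by norm_num)]
      simp
    · rw [mix0 le_rfl hn hj]
      simp [co]
  · intro l hl hl1
    rw [Finset.mem_range] at hl
    rcases Nat.eq_zero_or_pos l with rfl | hl0
    · rw [co_zero, zero_mul]
    · rcases lt_or_ge j l with h3 | h3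
      · rw [co_gt n h3, zero_mul]
      · rw [mix0 hl0 (by omega) h3, if_neg hl1, mul_zero]
  · intro h1
    rw [Finset.mem_range] at h1
    omega

/-- first and second binomial sums -/
noncomputable def l1 (n j : ℕ) : ℝ := S n (fun l => (l : ℝ) * (j.choose l : ℝ))
noncomputable def l2 (n j : ℕ) : ℝ := S n (fun l => (l : ℝ) ^ 2 * (j.choose l : ℝ))

lemma E2' {n : ℕ} (j : ℕ) : ∫ x in (0 : ℝ)..1, P n j x * Q n j x * (1 - x) =
    l1 n j / ((n + j).choose j : ℝ) := by
  have h := expand n j 1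
  simp only [pow_one] at h
  rw [h, l1, S, Finset.sum_div]
  refine Finset.sum_congr rfl fun l hl => ?_
  rw [Finset.mem_range] at hl
  rcases Nat.eq_zero_or_pos l with rfl | hl0
  · rw [co_zero]
    simp
  · rcases lt_or_ge j l with h3 | h3
    · rw [co_gt n h3, Nat.choose_eq_zero_of_lt h3]
      simp
    · rw [Nat.sub_add_cancel hl0, mix1 hl0 (by omega) h3]
      have h5 : ((-1 : ℝ) ^ l) * (-1) ^ l = 1 := by rw [← mul_pow]; simp
      unfold co
      linear_combination ((l : ℝ) * (n.choose l : ℝ) * (j.choose l : ℝ) / ((n + j).choose j : ℝ)) * h5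

lemma E3' {n : ℕ} (j : ℕ) : ∫ x in (0 : ℝ)..1, P n j x * Q n j x * (1 - x) ^ 2 =
    (l2 n j + l1 n j) / ((n + j).choose j : ℝ) -
      l1 n j * ((j : ℝ) + 1) / ((n + 1 + j).choose j : ℝ) := by
  rw [expand n j 2, l1, l2, S, S, ← Finset.sum_add_distrib, Finset.sum_div, mul_div_assoc,
    Finset.sum_mul, ← Finset.sum_sub_distrib]
  refine Finset.sum_congr rfl fun l hl => ?_
  rw [Finset.mem_range] at hl
  rcases Nat.eq_zero_or_pos l with rfl | hl0
  · rw [co_zero]
    simp
  · rcases lt_or_ge j l with h3 | h3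
    · rw [co_gt n h3, Nat.choose_eq_zero_of_lt h3]
      simp
    · have e : l - 1 + 2 = l + 1 := by omega
      rw [e, mix2 hl0 (by omega) h3]
      have h5 : ((-1 : ℝ) ^ l) * (-1) ^ l = 1 := by rw [← mul_pow]; simp
      unfold co
      linear_combination ((l : ℝ) * (n.choose l : ℝ) * (j.choose l : ℝ) *
        (((l : ℝ) + 1) / ((n + j).choose j : ℝ) -
        ((j : ℝ) + 1) / ((n + 1 + j).choose j : ℝ))) * h5

lemma l1_eq (m i : ℕ) : l1 (m + 1) (i + 1) = ((m + i).choose m : ℝ) * ((m : ℝ) + i + 1) := by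
  unfold l1 S
  rw [Finset.sum_range_succ']
  have h1 : ∀ l ∈ Finset.range (m + 1), ((m + 1).choose (l + 1) : ℝ) *
      (((l + 1 : ℕ) : ℝ) * ((i + 1).choose (l + 1) : ℝ)) =
      ((m : ℝ) + 1) * ((m.choose l : ℝ) * ((i + 1).choose (l + 1) : ℝ)) := by
    intro l _
    have h2 : ((m : ℝ) + 1) * (m.choose l : ℝ) = ((m + 1).choose (l + 1) : ℝ) * ((l : ℝ) + 1) := by
      exact_mod_cast Nat.add_one_mul_choose_eq m l
    push_cast
    linear_combination (-((i + 1).choose (l + 1) : ℝ)) * h2
  rw [Finset.sum_congr rfl h1, ← Finset.mul_sum]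
  have h3 := vander m (i + 1) 1
  unfold S at h3
  rw [h3]
  have h4 : ((m : ℝ) + i + 1) * ((m + i).choose m : ℝ) =
      ((m + i + 1).choose (m + 1) : ℝ) * ((m : ℝ) + 1) := by
    exact_mod_cast Nat.add_one_mul_choose_eq (m + i) m
  have e : m + (i + 1) = m + i + 1 := by ring
  rw [e]
  simp only [Nat.cast_zero, zero_mul, mul_zero, add_zero]
  linarith

lemma l2_eq (m i : ℕ) : l2 (m + 1) (i + 1) =
    ((m : ℝ) + 1) * ((i : ℝ) + 1) * ((m + i).choose m : ℝ) := by
  unfold l2 S
  rw [Finset.sum_range_succ']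
  have h1 : ∀ l ∈ Finset.range (m + 1), ((m + 1).choose (l + 1) : ℝ) *
      (((l + 1 : ℕ) : ℝ) ^ 2 * ((i + 1).choose (l + 1) : ℝ)) =
      (((m : ℝ) + 1) * ((i : ℝ) + 1)) * ((m.choose l : ℝ) * (i.choose l : ℝ)) := by
    intro l _
    have h2 : ((m : ℝ) + 1) * (m.choose l : ℝ) = ((m + 1).choose (l + 1) : ℝ) * ((l : ℝ) + 1) := by
      exact_mod_cast Nat.add_one_mul_choose_eq m l
    have h3 : ((i : ℝ) + 1) * (i.choose l : ℝ) = ((i + 1).choose (l + 1) : ℝ) * ((l : ℝ) + 1) := by
      exact_mod_cast Nat.add_one_mul_choose_eq i l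
    push_cast
    have h4 : (((m : ℝ) + 1) * ((i : ℝ) + 1)) * ((m.choose l : ℝ) * (i.choose l : ℝ)) =
        (((m : ℝ) + 1) * (m.choose l : ℝ)) * (((i : ℝ) + 1) * (i.choose l : ℝ)) := by ring
    rw [h4, h2, h3]
    ring
  rw [Finset.sum_congr rfl h1, ← Finset.mul_sum]
  have h3 := vander m i 0
  unfold S at h3
  simp only [add_zero] at h3
  rw [h3]
  simp

lemma C0_eq (m i : ℕ) : ((m + 1 + (i + 1)).choose (i + 1) : ℝ) * (((m : ℝ) + 1) * ((i : ℝ) + 1)) =
    ((m : ℝ) + i + 2) * ((m : ℝ) + i + 1) * ((m + i).choose m : ℝ) := by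
  have h4 : ((m : ℝ) + i + 1) * ((m + i).choose m : ℝ) =
      ((m + i + 1).choose (m + 1) : ℝ) * ((m : ℝ) + 1) := by
    exact_mod_cast Nat.add_one_mul_choose_eq (m + i) m
  have h5 : ((m : ℝ) + i + 1 + 1) * ((m + i + 1).choose i : ℝ) =
      ((m + i + 1 + 1).choose (i + 1) : ℝ) * ((i : ℝ) + 1) := by
    exact_mod_cast Nat.add_one_mul_choose_eq (m + i + 1) i
  have h6 : (m + i + 1).choose i = (m + i + 1).choose (m + 1) := by
    have e : m + i + 1 = i + (m + 1) := by ring
    rw [e, Nat.choose_symm_add]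
  have e : m + 1 + (i + 1) = m + i + 1 + 1 := by ring
  rw [e]
  rw [h6] at h5
  linear_combination (-((m : ℝ) + 1)) * h5 - ((m : ℝ) + i + 2) * h4

lemma C1_eq (m i : ℕ) : ((m + 1 + 1 + (i + 1)).choose (i + 1) : ℝ) * ((m : ℝ) + 2) =
    ((m : ℝ) + i + 3) * ((m + 1 + (i + 1)).choose (i + 1) : ℝ) := by
  have h5 : ((m : ℝ) + 1 + (i + 1) + 1) * ((m + 1 + (i + 1)).choose (m + 1) : ℝ) =
      ((m + 1 + (i + 1) + 1).choose (m + 1 + 1) : ℝ) * ((m : ℝ) + 1 + 1) := by
    exact_mod_cast Nat.add_one_mul_choose_eq (m + 1 + (i + 1)) (m + 1)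
  rw [Nat.choose_symm_add] at h5
  have e : m + 1 + (i + 1) + 1 = (m + 1 + 1) + (i + 1) := by ring
  rw [e, Nat.choose_symm_add] at h5
  linear_combination -h5

lemma E2 {n j : ℕ} (hn : 1 ≤ n) (hj : 1 ≤ j) : ∫ x in (0 : ℝ)..1, P n j x * Q n j x * (1 - x) =
    (n : ℝ) * j / (n + j) := by
  obtain ⟨m, rfl⟩ := Nat.exists_eq_add_of_le' hn
  obtain ⟨i, rfl⟩ := Nat.exists_eq_add_of_le' hj
  rw [E2', l1_eq]
  have h := C0_eq m i
  have hC : (0 : ℝ) < ((m + 1 + (i + 1)).choose (i + 1) : ℝ) := by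
    have := Nat.choose_pos (n := m + 1 + (i + 1)) (k := i + 1) (by omega)
    positivity
  rw [div_eq_div_iff hC.ne' (by positivity)]
  push_cast
  linear_combination -h

lemma E3 {n j : ℕ} (hn : 1 ≤ n) (hj : 1 ≤ j) : ∫ x in (0 : ℝ)..1, P n j x * Q n j x * (1 - x) ^ 2 =
    2 * ((n : ℝ) * j) ^ 2 / (((n : ℝ) + j - 1) * (n + j) * (n + j + 1)) := by
  obtain ⟨m, rfl⟩ := Nat.exists_eq_add_of_le' hn
  obtain ⟨i, rfl⟩ := Nat.exists_eq_add_of_le' hj
  rw [E3', l1_eq, l2_eq]
  have h := C0_eq m i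
  have h1 := C1_eq m i
  have hC : (0 : ℝ) < ((m + 1 + (i + 1)).choose (i + 1) : ℝ) := by
    have := Nat.choose_pos (n := m + 1 + (i + 1)) (k := i + 1) (by omega)
    positivity
  have hC1 : (0 : ℝ) < ((m + 1 + 1 + (i + 1)).choose (i + 1) : ℝ) := by
    have := Nat.choose_pos (n := m + 1 + 1 + (i + 1)) (k := i + 1) (by omega)
    positivity
  have hc : (0 : ℝ) < ((m + i).choose m : ℝ) := by
    have := Nat.choose_pos (n := m + i) (k := m) (by omega)
    positivity
  have e1 : ((m + 1 + 1 + (i + 1)).choose (i + 1) : ℝ) =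
      ((m : ℝ) + i + 3) * ((m + 1 + (i + 1)).choose (i + 1) : ℝ) / ((m : ℝ) + 2) := by
    rw [eq_div_iff (by positivity)]
    exact h1
  have e2 : ((m + 1 + (i + 1)).choose (i + 1) : ℝ) =
      ((m : ℝ) + i + 2) * ((m : ℝ) + i + 1) * ((m + i).choose m : ℝ) / (((m : ℝ) + 1) * ((i : ℝ) + 1)) := by
    rw [eq_div_iff (by positivity)]
    exact h
  rw [e1, e2]
  push_cast
  have e3 : (m : ℝ) + 1 + ((i : ℝ) + 1) - 1 = (m : ℝ) + i + 1 := by ring
  rw [e3]
  field_simp
  ring

/-! ### the kernel -/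

/-- the kernel -/
noncomputable def kap (n j : ℕ) (x : ℝ) : ℝ := x ^ (((n : ℝ) - j) / 2) * P n j x

lemma PQ {n j : ℕ} {x : ℝ} (hx : 0 < x) : x ^ ((n : ℝ) - j) * P n j x = Q n j x := by
  unfold P Q
  rw [Finset.mul_sum]
  refine Finset.sum_congr rfl fun l hl => ?_
  rw [Finset.mem_range] at hl
  rcases lt_or_ge j l with h | h
  · rw [co_gt n h]
    simp
  · have e : x ^ ((n : ℝ) - j) * x ^ (j - l) = x ^ (n - l) := by
      rw [← Real.rpow_natCast x (j - l), ← Real.rpow_natCast x (n - l), ← Real.rpow_add hx,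
        Nat.cast_sub h, Nat.cast_sub (by omega)]
      congr 1
      ring
    rw [← e]
    ring

lemma kap_sq {n j : ℕ} {x : ℝ} (hx : 0 < x) : kap n j x ^ 2 = P n j x * Q n j x := by
  rw [← PQ hx]
  unfold kap
  rw [mul_pow, ← Real.rpow_natCast (x ^ (((n : ℝ) - j) / 2)), ← Real.rpow_mul hx.le]
  have e : ((n : ℝ) - j) / 2 * ((2 : ℕ) : ℝ) = (n : ℝ) - j := by push_cast; ring
  rw [e]
  ring

lemma kap_cont (n j : ℕ) : ContinuousOn (kap n j) (Ioi 0) := by
  unfold kap
  refine ContinuousOn.mul ?_ (P_cont n j).continuousOn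
  exact continuousOn_id.rpow_const fun x hx => Or.inl (ne_of_gt hx)

lemma kap_meas (n j : ℕ) : Measurable (kap n j) := by
  unfold kap
  exact (measurable_id.pow_const _).mul (P_cont n j).measurable

/-- the integral of the reciprocal weight -/
lemma recip {n j : ℕ} (hn : 1 ≤ n) :
    ∫ x in (0 : ℝ)..1, 1 / (1 / ((n : ℝ) + j) + (1 - x) + ((n : ℝ) + j) / n * (1 - x) ^ 2) ≤
      1 + Real.log (1 + n) := by
  have hn0 : (0 : ℝ) < n := by exact_mod_cast hn
  have hj0 : (0 : ℝ) ≤ j := Nat.cast_nonneg j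
  have hs0 : (0 : ℝ) < (n : ℝ) + j := by positivity
  have h1 := intervalIntegral.integral_comp_sub_left (a := (0 : ℝ)) (b := 1)
    (fun y => 1 / (1 / ((n : ℝ) + j) + y + ((n : ℝ) + j) / n * y ^ 2)) 1
  simp only [sub_self, sub_zero] at h1
  rw [h1]
  set y0 : ℝ := n / ((n : ℝ) + j) with hy0
  have hy00 : 0 < y0 := by positivity
  have hy01 : y0 ≤ 1 := by
    rw [hy0, div_le_one hs0]
    linarith
  have hcont : ∀ a b : ℝ, 0 ≤ a → a ≤ b → IntervalIntegrable
      (fun y => 1 / (1 / ((n : ℝ) + j) + y + ((n : ℝ) + j) / n * y ^ 2)) volume a b := by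
    intro a b ha hab
    apply ContinuousOn.intervalIntegrable
    rw [uIcc_of_le hab]
    refine ContinuousOn.div continuousOn_const (by fun_prop) fun y hy => ?_
    have : 0 ≤ y := ha.trans hy.1
    positivity
  rw [← intervalIntegral.integral_add_adjacent_intervals (hcont 0 y0 le_rfl hy00.le)
    (hcont y0 1 hy00.le hy01)]
  have h2 : ∫ y in (0 : ℝ)..y0, 1 / (1 / ((n : ℝ) + j) + y + ((n : ℝ) + j) / n * y ^ 2) ≤
      Real.log (1 + n) := by
    have h3 : ∫ y in (0 : ℝ)..y0, 1 / (1 / ((n : ℝ) + j) + y) = Real.log (1 + n) := by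
      have hd : ∀ y ∈ uIcc (0 : ℝ) y0, HasDerivAt (fun y => Real.log (1 / ((n : ℝ) + j) + y))
          (1 / (1 / ((n : ℝ) + j) + y)) y := by
        intro y hy
        rw [uIcc_of_le hy00.le] at hy
        have h4 : 0 < 1 / ((n : ℝ) + j) + y := by
          have := hy.1
          positivity
        exact ((hasDerivAt_id y).const_add _).log h4.ne'
      rw [intervalIntegral.integral_eq_sub_of_hasDerivAt hd, add_zero, ← Real.log_div]
      · congr 1
        rw [hy0]
        field_simp
      · positivity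
      · positivity
      · apply ContinuousOn.intervalIntegrable
        rw [uIcc_of_le hy00.le]
        refine ContinuousOn.div continuousOn_const (by fun_prop) fun y hy => ?_
        have := hy.1
        positivity
    rw [← h3]
    refine intervalIntegral.integral_mono_on hy00.le (hcont 0 y0 le_rfl hy00.le) ?_ fun y hy => ?_
    · apply ContinuousOn.intervalIntegrable
      rw [uIcc_of_le hy00.le]
      refine ContinuousOn.div continuousOn_const (by fun_prop) fun y hy => ?_
      have := hy.1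
      positivity
    · have := hy.1
      apply one_div_le_one_div_of_le
      · positivity
      · have : 0 ≤ ((n : ℝ) + j) / n * y ^ 2 := by positivity
        linarith
  have h5 : ∫ y in y0..1, 1 / (1 / ((n : ℝ) + j) + y + ((n : ℝ) + j) / n * y ^ 2) ≤ 1 := by
    have h3 : ∫ y in y0..1, n / ((n : ℝ) + j) * (1 / y ^ 2) = 1 - n / ((n : ℝ) + j) := by
      have hd : ∀ y ∈ uIcc y0 1, HasDerivAt (fun y => n / ((n : ℝ) + j) * (-(1 / y)))
          (n / ((n : ℝ) + j) * (1 / y ^ 2)) y := by
        intro y hy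
        rw [uIcc_of_le hy01] at hy
        have h4 : 0 < y := lt_of_lt_of_le hy00 hy.1
        have h6 := (hasDerivAt_inv h4.ne').neg
        have h7 := h6.const_mul (n / ((n : ℝ) + j))
        refine (h7.congr_deriv ?_).congr_of_eventuallyEq ?_
        · rw [neg_neg, one_div]
        · refine Eventually.of_forall fun z => ?_
          simp [one_div]
      rw [intervalIntegral.integral_eq_sub_of_hasDerivAt hd]
      · rw [hy0]
        field_simp
        ring
      · apply ContinuousOn.intervalIntegrable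
        rw [uIcc_of_le hy01]
        refine ContinuousOn.mul continuousOn_const (ContinuousOn.div continuousOn_const (by fun_prop)
          fun y hy => ?_)
        have := lt_of_lt_of_le hy00 hy.1
        positivity
    have h8 : ∫ y in y0..1, 1 / (1 / ((n : ℝ) + j) + y + ((n : ℝ) + j) / n * y ^ 2) ≤
        ∫ y in y0..1, n / ((n : ℝ) + j) * (1 / y ^ 2) := by
      refine intervalIntegral.integral_mono_on hy01 (hcont y0 1 hy00.le hy01) ?_ fun y hy => ?_
      · apply ContinuousOn.intervalIntegrable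
        rw [uIcc_of_le hy01]
        refine ContinuousOn.mul continuousOn_const (ContinuousOn.div continuousOn_const (by fun_prop)
          fun y hy => ?_)
        have := lt_of_lt_of_le hy00 hy.1
        positivity
      · have hy1 : 0 < y := lt_of_lt_of_le hy00 hy.1
        have e : n / ((n : ℝ) + j) * (1 / y ^ 2) = 1 / (((n : ℝ) + j) / n * y ^ 2) := by
          field_simp
        rw [e]
        apply one_div_le_one_div_of_le
        · positivity
        · have : 0 < 1 / ((n : ℝ) + j) := by positivity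
          linarith
    have h9 : 0 < n / ((n : ℝ) + j) := hy00
    linarith
  linarith

/-- the weighted `L²` bound -/
lemma weighted {n j : ℕ} (hn : 1 ≤ n) :
    ∫ x in (0 : ℝ)..1, P n j x * Q n j x *
      (1 / ((n : ℝ) + j) + (1 - x) + ((n : ℝ) + j) / n * (1 - x) ^ 2) ≤ (14 / 3 : ℝ) * (n : ℝ) := by
  have hn0 : (0 : ℝ) < n := by exact_mod_cast hn
  rcases Nat.eq_zero_or_pos j with rfl | hj
  · have h0 : ∀ x, P n 0 x = 0 := by
      intro x
      unfold P
      refine Finset.sum_eq_zero fun l _ => ?_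
      rcases Nat.eq_zero_or_pos l with rfl | hl
      · rw [co_zero, zero_mul]
      · rw [co_gt n hl, zero_mul]
    simp only [h0, zero_mul, intervalIntegral.integral_zero]
    positivity
  · have hj0 : (1 : ℝ) ≤ j := by exact_mod_cast hj
    have hn1 : (1 : ℝ) ≤ n := by exact_mod_cast hn
    have hP := P_cont n j
    have hQ := Q_cont n j
    have e : ∀ x : ℝ, P n j x * Q n j x *
        (1 / ((n : ℝ) + j) + (1 - x) + ((n : ℝ) + j) / n * (1 - x) ^ 2) =
        1 / ((n : ℝ) + j) * (P n j x * Q n j x) + P n j x * Q n j x * (1 - x) +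
          ((n : ℝ) + j) / n * (P n j x * Q n j x * (1 - x) ^ 2) := by
      intro x; ring
    simp_rw [e]
    have i1 : IntervalIntegrable (fun x => 1 / ((n : ℝ) + j) * (P n j x * Q n j x)) volume 0 1 := by
      apply Continuous.intervalIntegrable
      fun_prop
    have i2 : IntervalIntegrable (fun x => P n j x * Q n j x * (1 - x)) volume 0 1 := by
      apply Continuous.intervalIntegrable
      fun_prop
    have i3 : IntervalIntegrable (fun x => ((n : ℝ) + j) / n * (P n j x * Q n j x * (1 - x) ^ 2))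
        volume 0 1 := by
      apply Continuous.intervalIntegrable
      fun_prop
    rw [intervalIntegral.integral_add (i1.add i2) i3, intervalIntegral.integral_add i1 i2,
      intervalIntegral.integral_const_mul, intervalIntegral.integral_const_mul, E1 hn, E2 hn hj,
      E3 hn hj]
    set s : ℝ := (n : ℝ) + j with hs
    set q : ℝ := (n : ℝ) * j with hq
    have hs2 : 2 ≤ s := by rw [hs]; linarith
    have hq0 : 0 < q := by positivity
    have hqs : q / s ≤ n := by
      rw [div_le_iff₀ (by positivity), hq, hs]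
      nlinarith
    have h3 : s / n * (2 * q ^ 2 / ((s - 1) * s * (s + 1))) ≤ 8 / 3 * n := by
      have e3 : s / n * (2 * q ^ 2 / ((s - 1) * s * (s + 1))) =
          2 * (q / s) ^ 2 / n * (s ^ 2 / (s ^ 2 - 1)) := by
        have : s - 1 ≠ 0 := by linarith
        have : s + 1 ≠ 0 := by linarith
        have : s ^ 2 - 1 ≠ 0 := by nlinarith
        have e4 : (s - 1) * s * (s + 1) = s * (s ^ 2 - 1) := by ring
        rw [e4]
        field_simp
      rw [e3]
      have h4 : s ^ 2 / (s ^ 2 - 1) ≤ 4 / 3 := by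
        rw [div_le_div_iff₀ (by nlinarith) (by norm_num)]
        nlinarith
      have h5 : (q / s) ^ 2 ≤ n ^ 2 := by
        have : 0 ≤ q / s := by positivity
        gcongr
      have h6 : 2 * (q / s) ^ 2 / n ≤ 2 * n := by
        rw [div_le_iff₀ hn0]
        nlinarith
      have h7 : 0 ≤ 2 * (q / s) ^ 2 / n := by positivity
      have h8 : 0 ≤ s ^ 2 / (s ^ 2 - 1) := by
        apply div_nonneg (by positivity)
        nlinarith
      calc 2 * (q / s) ^ 2 / (n : ℝ) * (s ^ 2 / (s ^ 2 - 1)) ≤ 2 * (n : ℝ) * (4 / 3) :=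
            mul_le_mul h6 h4 h8 (by positivity)
        _ = 8 / 3 * (n : ℝ) := by ring
    have h9 : 1 / s * q = q / s := by ring
    rw [h9]
    linarith

/-- the `L¹` norm of the kernel -/
lemma kap_l1 {n j : ℕ} (hn : 1 ≤ n) : IntervalIntegrable (kap n j) volume 0 1 ∧
    ∫ x in (0 : ℝ)..1, |kap n j x| ≤ Real.sqrt (5 * n * (1 + Real.log (1 + n))) := by
  have hn0 : (0 : ℝ) < n := by exact_mod_cast hn
  have hj0 : (0 : ℝ) ≤ j := Nat.cast_nonneg j
  have hs0 : (0 : ℝ) < (n : ℝ) + j := by positivity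
  set T : ℝ := 1 + Real.log (1 + n) with hT
  have hT1 : 1 ≤ T := by
    have : 0 ≤ Real.log (1 + n) := Real.log_nonneg (by linarith)
    linarith
  set Y : ℝ := Real.sqrt (5 * n * T) with hY
  have hY0 : 0 < Y := Real.sqrt_pos.2 (by positivity)
  have hY2 : Y ^ 2 = 5 * n * T := Real.sq_sqrt (by positivity)
  set w : ℝ → ℝ := fun x => 1 / ((n : ℝ) + j) + (1 - x) + ((n : ℝ) + j) / n * (1 - x) ^ 2 with hw
  have hw0 : ∀ x ∈ Icc (0 : ℝ) 1, 0 < w x := by
    intro x hx
    have : 0 ≤ 1 - x := by linarith [hx.2]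
    simp only [hw]
    positivity
  have hwc : Continuous w := by
    simp only [hw]
    fun_prop
  have hP := P_cont n j
  have hQ := Q_cont n j
  have i1 : IntervalIntegrable (fun x => T / Y * (P n j x * Q n j x * w x)) volume 0 1 := by
    apply Continuous.intervalIntegrable
    fun_prop
  have i2 : IntervalIntegrable (fun x => Y / T * (1 / w x)) volume 0 1 := by
    apply ContinuousOn.intervalIntegrable
    rw [uIcc_of_le zero_le_one]
    exact continuousOn_const.mul (ContinuousOn.div continuousOn_const hwc.continuousOn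
      fun x hx => (hw0 x hx).ne')
  have hpt : ∀ x ∈ Ioc (0 : ℝ) 1, |kap n j x| ≤
      1 / 2 * (T / Y * (P n j x * Q n j x * w x) + Y / T * (1 / w x)) := by
    intro x hx
    have h1 := hw0 x ⟨hx.1.le, hx.2⟩
    have h2 := kap_sq (n := n) (j := j) hx.1
    rw [← h2]
    set y : ℝ := T / Y * w x with hy
    have hy0 : 0 < y := by positivity
    have h3 : T / Y * (kap n j x ^ 2 * w x) + Y / T * (1 / w x) = |kap n j x| ^ 2 * y + 1 / y := by
      rw [hy, sq_abs]
      field_simp
    rw [h3]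
    have h4 : 0 ≤ (|kap n j x| * y - 1) ^ 2 / y := by positivity
    have h5 : (|kap n j x| * y - 1) ^ 2 / y = |kap n j x| ^ 2 * y + 1 / y - 2 * |kap n j x| := by
      field_simp
      ring
    rw [h5] at h4
    linarith
  have i3 : IntervalIntegrable (fun x => 1 / 2 * (T / Y * (P n j x * Q n j x * w x) +
      Y / T * (1 / w x))) volume 0 1 := (i1.add i2).const_mul _
  have i4 : IntervalIntegrable (kap n j) volume 0 1 := by
    rw [intervalIntegrable_iff_integrableOn_Ioc_of_le zero_le_one] at i3 ⊢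
    refine Integrable.mono' i3 (kap_meas n j).aestronglyMeasurable ?_
    rw [ae_restrict_iff' measurableSet_Ioc]
    exact Eventually.of_forall fun x hx => hpt x hx
  refine ⟨i4, ?_⟩
  have h6 : ∫ x in (0 : ℝ)..1, |kap n j x| ≤ ∫ x in (0 : ℝ)..1,
      1 / 2 * (T / Y * (P n j x * Q n j x * w x) + Y / T * (1 / w x)) := by
    rw [intervalIntegral.integral_of_le zero_le_one, intervalIntegral.integral_of_le zero_le_one]
    rw [intervalIntegrable_iff_integrableOn_Ioc_of_le zero_le_one] at i3 i4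
    exact setIntegral_mono_on i4.abs i3 measurableSet_Ioc hpt
  refine h6.trans ?_
  rw [intervalIntegral.integral_const_mul, intervalIntegral.integral_add i1 i2,
    intervalIntegral.integral_const_mul, intervalIntegral.integral_const_mul]
  have h7 := weighted (n := n) (j := j) hn
  have h8 := recip (n := n) (j := j) hn
  have h9 : T / Y * ∫ x in (0 : ℝ)..1, P n j x * Q n j x * w x ≤ T / Y * (14 / 3 * n) :=
    mul_le_mul_of_nonneg_left h7 (by positivity)
  have h10 : Y / T * ∫ x in (0 : ℝ)..1, 1 / w x ≤ Y / T * T :=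
    mul_le_mul_of_nonneg_left h8 (by positivity)
  have h11 : T / Y * (14 / 3 * n) = 14 / 15 * Y := by
    field_simp
    nlinarith
  have h12 : Y / T * T = Y := by field_simp
  rw [h11] at h9
  rw [h12] at h10
  linarith

end Pool.Agent.H93W.Kern
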