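import Pool.Agent.H93W.Pair
import Pool.Agent.Y282.RB.A3

/-!
The `L²` bound for smooth `V`.
-/

set_option autoImplicit false

open MeasureTheory Set Filter Topology
open scoped ENNReal ContDiff SchwartzMap

namespace Pool.Agent.H93W.L2

open Pool.Agent.H93W.RT Pool.Agent.H93W.Kern Pool.Agent.H93W.Op Pool.Agent.H93W.Pair
open Pool.Agent.Y282.RB

theorem int_normSqC (φ : ℝ → ℂ) :
    ∫ z : ℂ, φ (Complex.normSq z) = (Real.pi : ℂ) * ∫ x in Ioi (0 : ℝ), φ x := by
  rw [← Complex.integral_comp_polarCoord_symm]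
  have h1 : ∀ q : ℝ × ℝ, q.1 • φ (Complex.normSq (Complex.polarCoord.symm q)) =
      (((q.1 : ℝ) : ℂ) * φ (q.1 ^ 2)) * 1 := by
    intro q
    have : Complex.normSq (Complex.polarCoord.symm q) = q.1 ^ 2 := by
      rw [Complex.normSq_eq_norm_sq, Complex.norm_polarCoord_symm, sq_abs]
    rw [this, Complex.real_smul, mul_one]
  simp_rw [h1]
  rw [polarCoord_target, Measure.volume_eq_prod,
    setIntegral_prod_mul (fun r : ℝ => (r : ℂ) * φ (r ^ 2)) (fun _ : ℝ => (1 : ℂ))]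
  have h2 : ∫ _y in Ioo (-Real.pi) Real.pi, (1 : ℂ) = 2 * Real.pi := by
    rw [setIntegral_const, Measure.real, Real.volume_Ioo, ENNReal.toReal_ofReal (by
      have := Real.pi_pos
      linarith), Complex.real_smul, mul_one]
    push_cast
    ring
  rw [h2]
  have h3 := integral_comp_rpow_Ioi_of_pos (g := φ) (p := 2) (by norm_num)
  have h4 : ∫ x in Ioi (0 : ℝ), (2 * x ^ ((2 : ℝ) - 1)) • φ (x ^ (2 : ℝ))
      = 2 * ∫ x in Ioi (0 : ℝ), (x : ℂ) * φ (x ^ 2) := by
    rw [← integral_const_mul]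
    refine setIntegral_congr_fun measurableSet_Ioi (fun x _ => ?_)
    have e : (2 : ℝ) - 1 = 1 := by norm_num
    simp only [e, Real.rpow_one, Real.rpow_two, Complex.real_smul]
    push_cast
    ring
  rw [h4] at h3
  rw [← h3]
  ring

lemma Lam_eq {n j : ℕ} (hn : 1 ≤ n) {U V : ℝ → ℂ} (hU : CC U) (hV : CC V) :
    (Real.pi : ℂ) * Lam (ker n j) U V =
      ∫ z : ℂ, U (Complex.normSq z) * AV n j V (Complex.normSq z) := by
  have i1 := int1 hU hV
  have i2 := int2 (ker_loc hn j) hU hV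
  have i2' : Integrable (fun q : ℝ × ℝ => Op.ker n j q * (U q.1 * V q.2)) (volume.prod volume) := i2
  have e1 : ∫ q : ℝ × ℝ, Op.ker n j q * (U q.1 * V q.2) =
      ∫ t, U t * ∫ s, Op.ker n j (t, s) * V s := by
    rw [Measure.volume_eq_prod, integral_prod _ i2']
    refine integral_congr_ae (Eventually.of_forall fun t => ?_)
    simp only
    rw [← integral_const_mul]
    refine integral_congr_ae (Eventually.of_forall fun s => ?_)
    simp only
    ring
  have i3 : Integrable (fun t => U t * ∫ s, Op.ker n j (t, s) * V s) := by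
    refine i2'.integral_prod_left.congr (Eventually.of_forall fun t => ?_)
    simp only
    rw [← integral_const_mul]
    refine integral_congr_ae (Eventually.of_forall fun s => ?_)
    simp only
    ring
  have e2 : Lam (Op.ker n j) U V = ∫ t, U t * AV n j V t := by
    unfold RT.Lam
    rw [e1, ← integral_add i1 i3]
    refine integral_congr_ae (Eventually.of_forall fun t => ?_)
    simp only [AV]
    ring
  have hL := int_normSqC (fun t => U t * AV n j V t)
  rw [hL, e2]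
  congr 1
  symm
  apply setIntegral_eq_integral_of_forall_compl_eq_zero
  intro t ht
  obtain ⟨_, a, b, ha, hab, hU0⟩ := hU
  rw [hU0 t (fun h => ht (lt_of_lt_of_le ha h.1)), zero_mul]

lemma sq_normSq {U : ℝ → ℂ} (hU : CC U) :
    ∫⁻ z : ℂ, ‖U (Complex.normSq z)‖ₑ ^ (2 : ℝ) =
      ENNReal.ofReal (Real.pi * ∫ t, ‖U t‖ ^ 2) := by
  have h1 := A3.int_normSq (fun t => ‖U t‖ ^ 2)
  obtain ⟨hUc, a, b, ha, hab, hU0⟩ := id hU
  have h2 : ∫ x in Ioi (0 : ℝ), ‖U x‖ ^ 2 = ∫ t, ‖U t‖ ^ 2 := by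
    apply setIntegral_eq_integral_of_forall_compl_eq_zero
    intro t ht
    rw [hU0 t (fun h => ht (lt_of_lt_of_le ha h.1))]
    simp
  rw [← h2, ← h1, ofReal_integral_eq_lintegral_ofReal]
  · refine lintegral_congr fun z => ?_
    rw [ENNReal.ofReal_pow (norm_nonneg _), ofReal_norm, ← ENNReal.rpow_natCast]
    norm_num
  · have hc : Continuous (fun z : ℂ => ‖U (Complex.normSq z)‖ ^ 2) :=
      ((hUc.comp Complex.continuous_normSq).norm).pow 2
    refine hc.integrable_of_hasCompactSupport ?_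
    refine HasCompactSupport.intro (isCompact_closedBall (0 : ℂ) (|b| + 1)) fun w hw => ?_
    rw [Metric.mem_closedBall, dist_zero_right, not_le] at hw
    have h1 : b < Complex.normSq w := by
      rw [Complex.normSq_eq_norm_sq]
      nlinarith [le_abs_self b, abs_nonneg b]
    rw [hU0 _ fun h => by linarith [h.2]]
    simp
  · exact Eventually.of_forall fun z => by positivity

lemma H2s {n j : ℕ} (hn : 1 ≤ n) {U V : ℝ → ℂ} (hU : CC U) (hV : CC V) (hVs : ContDiff ℝ ∞ V) :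
    ‖Lam (ker n j) U V‖ ≤ (∫ t, ‖U t‖ ^ 2) ^ (1 / 2 : ℝ) * (∫ t, ‖V t‖ ^ 2) ^ (1 / 2 : ℝ) := by
  obtain ⟨ψ, h1, h2, h3⟩ := schw n j hV hVs
  have hpi := Real.pi_pos
  have hU2 : 0 ≤ ∫ t, ‖U t‖ ^ 2 := integral_nonneg fun t => by positivity
  have hV2 : 0 ≤ ∫ t, ‖V t‖ ^ 2 := integral_nonneg fun t => by positivity
  have h0 : ∀ᵐ z : ℂ, z ≠ 0 := by
    rw [ae_iff]
    simp
  have hu : ∀ (z : ℂ) (m : ℤ), z ≠ 0 → ‖(starRingEnd ℂ z / (‖z‖ : ℂ)) ^ m‖ = 1 := by
    intro z m hz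
    rw [norm_zpow, norm_div, RCLike.norm_conj, Complex.norm_real, norm_norm,
      div_self (norm_ne_zero_iff.2 hz), one_zpow]
  have hu' : ∀ (z : ℂ) (m : ℕ), z ≠ 0 → ‖(z / (‖z‖ : ℂ)) ^ m‖ = 1 := by
    intro z m hz
    rw [norm_pow, norm_div, Complex.norm_real, norm_norm,
      div_self (norm_ne_zero_iff.2 hz), one_pow]
  have hT : AEMeasurable (fun z => ‖Tn n ψ z‖ₑ) (volume : Measure ℂ) := by
    rw [K.Tn_eq]
    exact ((Pool.Agent.TH55.PowA.T_cont (K.adm_sy n) ψ).measurable.enorm).aemeasurable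
  have hUm : AEMeasurable (fun z : ℂ => ‖U (Complex.normSq z)‖ₑ) (volume : Measure ℂ) :=
    ((hU.1.comp Complex.continuous_normSq).measurable.enorm).aemeasurable
  have key : ENNReal.ofReal (Real.pi * ‖Lam (Op.ker n j) U V‖) ≤
      ENNReal.ofReal (Real.pi * ((∫ t, ‖U t‖ ^ 2) ^ (1 / 2 : ℝ) * (∫ t, ‖V t‖ ^ 2) ^ (1 / 2 : ℝ))) := by
    have e1 : Real.pi * ‖Lam (Op.ker n j) U V‖ = ‖(Real.pi : ℂ) * Lam (Op.ker n j) U V‖ := by
      rw [norm_mul, Complex.norm_real, Real.norm_of_nonneg hpi.le]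
    rw [e1, Lam_eq hn hU hV, ofReal_norm]
    refine (enorm_integral_le_lintegral_enorm _).trans ?_
    calc ∫⁻ z : ℂ, ‖U (Complex.normSq z) * AV n j V (Complex.normSq z)‖ₑ =
        ∫⁻ z : ℂ, (fun z : ℂ => ‖U (Complex.normSq z)‖ₑ) z * (fun z => ‖Tn n ψ z‖ₑ) z := by
          refine lintegral_congr_ae ?_
          filter_upwards [h0] with z hz
          rw [enorm_mul, h3 z hz, enorm_mul]
          have : ‖(starRingEnd ℂ z / (‖z‖ : ℂ)) ^ ((n : ℤ) - j)‖ₑ = 1 := by
            rw [← ofReal_norm, hu z _ hz, ENNReal.ofReal_one]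
          rw [this, one_mul]
      _ ≤ (∫⁻ z : ℂ, ‖U (Complex.normSq z)‖ₑ ^ (2 : ℝ)) ^ (1 / 2 : ℝ) *
          (∫⁻ z : ℂ, ‖Tn n ψ z‖ₑ ^ (2 : ℝ)) ^ (1 / 2 : ℝ) :=
          ENNReal.lintegral_mul_le_Lp_mul_Lq volume
            (Real.holderConjugate_iff.2 ⟨by norm_num, by norm_num⟩) hUm hT
      _ = (∫⁻ z : ℂ, ‖U (Complex.normSq z)‖ₑ ^ (2 : ℝ)) ^ (1 / 2 : ℝ) *
          (∫⁻ z : ℂ, ‖V (Complex.normSq z)‖ₑ ^ (2 : ℝ)) ^ (1 / 2 : ℝ) := by
          congr 2
          have e2 := Pool.Agent.Y338.BP.T_two ψ n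
          have e3 : ∀ x : ℝ≥0∞, x ^ (2 : ℝ) = x ^ 2 := fun x => by
            rw [← ENNReal.rpow_natCast]; norm_num
          simp_rw [e3]
          rw [K.Tn_eq, e2]
          refine lintegral_congr_ae ?_
          filter_upwards [h0] with z hz
          rw [h1 z hz, enorm_mul]
          have : ‖(z / (‖z‖ : ℂ)) ^ (n + j)‖ₑ = 1 := by
            rw [← ofReal_norm, hu' z _ hz, ENNReal.ofReal_one]
          rw [this, one_mul]
      _ = _ := by
          rw [sq_normSq hU, sq_normSq hV, ENNReal.ofReal_rpow_of_nonneg (by positivity) (by norm_num),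
            ENNReal.ofReal_rpow_of_nonneg (by positivity) (by norm_num),
            ← ENNReal.ofReal_mul (by positivity), Real.mul_rpow hpi.le hU2,
            Real.mul_rpow hpi.le hV2]
          congr 1
          have e4 : Real.pi ^ (1 / 2 : ℝ) * Real.pi ^ (1 / 2 : ℝ) = Real.pi := by
            rw [← Real.rpow_add hpi]
            norm_num
          calc _ = (Real.pi ^ (1 / 2 : ℝ) * Real.pi ^ (1 / 2 : ℝ)) *
              ((∫ t, ‖U t‖ ^ 2) ^ (1 / 2 : ℝ) * (∫ t, ‖V t‖ ^ 2) ^ (1 / 2 : ℝ)) := by ring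
            _ = _ := by rw [e4]
  have h5 := (ENNReal.ofReal_le_ofReal_iff (by positivity)).1 key
  exact le_of_mul_le_mul_left h5 hpi

end Pool.Agent.H93W.L2
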