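import Pool.Agent.H93W.RT
import Pool.Agent.H93W.Kern

/-!
The kernel operator on the half line.
-/

set_option autoImplicit false

open MeasureTheory Set Filter Topology
open scoped ENNReal

namespace Pool.Agent.H93W.Op

open Pool.Agent.H93W.RT Pool.Agent.H93W.Kern

/-- the kernel `κ(t/s)/s` for `0 < t < s` -/
noncomputable def ker (n j : ℕ) (q : ℝ × ℝ) : ℂ :=
  if 0 < q.1 ∧ q.1 < q.2 then ((kap n j (q.1 / q.2) / q.2 : ℝ) : ℂ) else 0

/-- the `L¹` norm of `κ` -/
noncomputable def Ik (n j : ℕ) : ℝ := ∫ x in (0 : ℝ)..1, |kap n j x|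

lemma Ik_nonneg (n j : ℕ) : 0 ≤ Ik n j :=
  intervalIntegral.integral_nonneg zero_le_one fun _ _ => abs_nonneg _

lemma ker_meas (n j : ℕ) : Measurable (ker n j) := by
  unfold ker
  refine Measurable.ite ?_ ?_ measurable_const
  · exact (measurableSet_lt measurable_const measurable_fst).inter
      (measurableSet_lt measurable_fst measurable_snd)
  · exact Complex.measurable_ofReal.comp
      (((kap_meas n j).comp (measurable_fst.div measurable_snd)).div measurable_snd)

lemma ker_int {n j : ℕ} (hn : 1 ≤ n) (s : ℝ) :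
    ∫⁻ t, ‖ker n j (t, s)‖ₑ ≤ ENNReal.ofReal (Ik n j) := by
  rcases le_or_gt s 0 with hs | hs
  · have h0 : ∀ t, ker n j (t, s) = 0 := by
      intro t
      unfold ker
      rw [if_neg]
      rintro ⟨h1, h2⟩
      simp only at h1 h2
      linarith
    simp [h0]
  · have e1 : (fun t => ‖ker n j (t, s)‖ₑ) =
        (Ioo 0 s).indicator (fun t => ENNReal.ofReal (|kap n j (1 / s * t)| / s)) := by
      funext t
      unfold ker
      simp only
      by_cases ht : t ∈ Ioo 0 s
      · rw [indicator_of_mem ht, if_pos ⟨ht.1, ht.2⟩, ← ofReal_norm, Complex.norm_real,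
          Real.norm_eq_abs, abs_div, abs_of_pos hs]
        congr 4
        ring
      · rw [indicator_of_notMem ht, if_neg]
        · simp
        · exact fun h => ht ⟨h.1, h.2⟩
    have hs1 : (0 : ℝ) < 1 / s := by positivity
    have i0 : IntervalIntegrable (fun x => |kap n j (1 / s * x)| / s) volume 0 s := by
      have h1 := (kap_l1 (j := j) hn).1.comp_mul_left (c := 1 / s)
      rw [zero_div, one_div_one_div] at h1
      exact h1.abs.div_const s
    have i1 : ∫ t in (0 : ℝ)..s, |kap n j (1 / s * t)| / s = Ik n j := by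
      rw [intervalIntegral.integral_div]
      have h2 := intervalIntegral.integral_comp_mul_left (a := (0 : ℝ)) (b := s)
        (fun x => |kap n j x|) hs1.ne'
      rw [h2, mul_zero, one_div_mul_cancel hs.ne', one_div, inv_inv, smul_eq_mul]
      unfold Ik
      field_simp
    rw [e1, lintegral_indicator measurableSet_Ioo, ← i1,
      intervalIntegral.integral_of_le hs.le, integral_Ioc_eq_integral_Ioo,
      ofReal_integral_eq_lintegral_ofReal]
    · rw [intervalIntegrable_iff_integrableOn_Ioc_of_le hs.le] at i0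
      exact i0.mono_set Ioo_subset_Ioc_self
    · exact Eventually.of_forall fun t => by positivity

lemma ker_two {n j : ℕ} (hn : 1 ≤ n) (F : ℝ → ℝ≥0∞) (hF : Measurable F) :
    ∫⁻ q : ℝ × ℝ, ‖ker n j q‖ₑ * F q.2 ≤ ENNReal.ofReal (Ik n j) * ∫⁻ s, F s := by
  rw [Measure.volume_eq_prod, lintegral_prod_symm]
  · rw [← lintegral_const_mul _ hF]
    refine lintegral_mono fun s => ?_
    simp only
    rw [lintegral_mul_const]
    · exact mul_le_mul_left (ker_int hn s) _
    · exact ((ker_meas n j).comp (measurable_id.prodMk measurable_const)).enorm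
  · exact (((ker_meas n j).enorm).mul (hF.comp measurable_snd)).aemeasurable

lemma ker_loc {n : ℕ} (hn : 1 ≤ n) (j : ℕ) : Loc (ker n j) := by
  intro a b ha hab
  refine ⟨(ker_meas n j).aestronglyMeasurable, ?_⟩
  have h1 := ker_two (j := j) hn ((Icc a b).indicator 1) (measurable_one.indicator measurableSet_Icc)
  rw [HasFiniteIntegral]
  have h2 : ∫⁻ q in Icc a b ×ˢ Icc a b, ‖ker n j q‖ₑ ≤
      ∫⁻ q : ℝ × ℝ, ‖ker n j q‖ₑ * (Icc a b).indicator 1 q.2 := by
    rw [← lintegral_indicator (measurableSet_Icc.prod measurableSet_Icc)]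
    refine lintegral_mono fun q => ?_
    by_cases hq : q ∈ Icc a b ×ˢ Icc a b
    · rw [indicator_of_mem hq, indicator_of_mem hq.2]
      simp
    · rw [indicator_of_notMem hq]
      exact zero_le
  refine lt_of_le_of_lt (h2.trans h1) ?_
  rw [lintegral_indicator measurableSet_Icc]
  simp only [Pi.one_apply, lintegral_const, one_mul, Measure.restrict_apply MeasurableSet.univ,
    univ_inter, Real.volume_Icc]
  exact ENNReal.mul_lt_top ENNReal.ofReal_lt_top ENNReal.ofReal_lt_top

/-- the `(∞, 1)` bound -/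
lemma bound1 {n j : ℕ} (hn : 1 ≤ n) {U V : ℝ → ℂ} (hV : CC V) {m : ℝ}
    (hm : ∀ t, ‖U t‖ ≤ m) : ‖Lam (ker n j) U V‖ ≤ m * (1 + Ik n j) * ∫ t, ‖V t‖ := by
  have hm0 : 0 ≤ m := (norm_nonneg (U 0)).trans (hm 0)
  have iV : Integrable V := hV.1.integrable_of_hasCompactSupport hV.hcs
  have h1 : ‖∫ t, U t * V t‖ ≤ m * ∫ t, ‖V t‖ := by
    rw [← integral_const_mul]
    refine norm_integral_le_of_norm_le (iV.norm.const_mul m) (Eventually.of_forall fun t => ?_)
    rw [norm_mul]
    exact mul_le_mul_of_nonneg_right (hm t) (norm_nonneg _)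
  have h2 : ‖∫ q : ℝ × ℝ, ker n j q * (U q.1 * V q.2)‖ ≤ m * Ik n j * ∫ t, ‖V t‖ := by
    have h3 : ‖∫ q : ℝ × ℝ, ker n j q * (U q.1 * V q.2)‖ₑ ≤
        ENNReal.ofReal (m * Ik n j * ∫ t, ‖V t‖) := by
      refine (enorm_integral_le_lintegral_enorm _).trans ?_
      calc ∫⁻ q : ℝ × ℝ, ‖ker n j q * (U q.1 * V q.2)‖ₑ ≤
          ∫⁻ q : ℝ × ℝ, ‖ker n j q‖ₑ * (ENNReal.ofReal m * ‖V q.2‖ₑ) := by
            refine lintegral_mono fun q => ?_
            rw [enorm_mul, enorm_mul]
            gcongr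
            rw [← ofReal_norm]
            exact ENNReal.ofReal_le_ofReal (hm _)
        _ ≤ ENNReal.ofReal (Ik n j) * ∫⁻ s, ENNReal.ofReal m * ‖V s‖ₑ :=
            ker_two hn (fun s => ENNReal.ofReal m * ‖V s‖ₑ) (by
              have := hV.1.measurable
              fun_prop)
        _ = ENNReal.ofReal (Ik n j) * (ENNReal.ofReal m * ∫⁻ s, ‖V s‖ₑ) := by
            rw [lintegral_const_mul]
            exact hV.1.measurable.enorm
        _ = ENNReal.ofReal (m * Ik n j * ∫ t, ‖V t‖) := by
            rw [← ofReal_integral_norm_eq_lintegral_enorm iV, ← ENNReal.ofReal_mul hm0,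
              ← ENNReal.ofReal_mul (Ik_nonneg n j)]
            congr 1
            ring
    rw [← ofReal_norm] at h3
    refine (ENNReal.ofReal_le_ofReal_iff ?_).1 h3
    exact mul_nonneg (mul_nonneg hm0 (Ik_nonneg n j)) (integral_nonneg fun _ => norm_nonneg _)
  unfold Lam
  refine (norm_add_le _ _).trans ?_
  calc _ ≤ m * (∫ t, ‖V t‖) + m * Ik n j * ∫ t, ‖V t‖ := add_le_add h1 h2
    _ = _ := by ring

end Pool.Agent.H93W.Op
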