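import Pool.Agent.Y282.RB.A
import Pool.Agent.H93W.Kern

/-!
The kernel representation of `(t ^ j h) ^ (n)` in terms of `h ^ (n)`.
-/

set_option autoImplicit false

open MeasureTheory Set Filter Topology
open scoped ContDiff

namespace Pool.Agent.H93W.Repr

open Pool.Agent.Y282.RB Pool.Agent.H93W.Kern

lemma cdi {H : ℝ → ℂ} (hH : ContDiff ℝ (⊤ : ℕ∞) H) (i : ℕ) :
    ContDiff ℝ (⊤ : ℕ∞) (iteratedDeriv i H) := by
  induction i with
  | zero => simpa using hH
  | succ i ih =>
    rw [iteratedDeriv_succ]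
    exact ((contDiff_infty_iff_deriv (f := iteratedDeriv i H)).1 ih).2

lemma hdi {H : ℝ → ℂ} (hH : ContDiff ℝ (⊤ : ℕ∞) H) (i : ℕ) (x : ℝ) :
    HasDerivAt (iteratedDeriv i H) (iteratedDeriv (i + 1) H x) x := by
  rw [iteratedDeriv_succ]
  exact ((cdi hH i).differentiable (by norm_num) x).hasDerivAt

lemma tay {H : ℝ → ℂ} (hH : ContDiff ℝ (⊤ : ℕ∞) H) {b : ℝ} (hb : ∀ i, iteratedDeriv i H b = 0)
    (k : ℕ) (t : ℝ) : H t = ∫ s in b..t, (((t - s) ^ k / (k.factorial : ℝ) : ℝ) : ℂ) *
      iteratedDeriv (k + 1) H s := by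
  induction k with
  | zero =>
    simp only [pow_zero, Nat.factorial_zero, Nat.cast_one, div_one, Complex.ofReal_one, one_mul,
      zero_add]
    rw [intervalIntegral.integral_eq_sub_of_hasDerivAt (f := H)]
    · have := hb 0
      rw [iteratedDeriv_zero] at this
      rw [this, sub_zero]
    · intro x _
      simpa using hdi hH 0 x
    · exact (cdi hH 1).continuous.intervalIntegrable _ _
  | succ k ih =>
    rw [ih]
    have hu : ∀ x ∈ uIcc b t, HasDerivAt
        (fun s : ℝ => (((t - s) ^ (k + 1) / ((k + 1).factorial : ℝ) : ℝ) : ℂ))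
        ((-((t - x) ^ k / (k.factorial : ℝ)) : ℝ) : ℂ) x := by
      intro x _
      have h1 : HasDerivAt (fun s : ℝ => (t - s) ^ (k + 1) / ((k + 1).factorial : ℝ))
          (-((t - x) ^ k / (k.factorial : ℝ))) x := by
        have h2 : HasDerivAt (fun s : ℝ => t - s) (-1) x := by
          simpa using (hasDerivAt_id x).const_sub t
        have h3 := (h2.pow (k + 1)).div_const ((k + 1).factorial : ℝ)
        refine h3.congr_deriv ?_
        rw [Nat.factorial_succ]
        have : (k.factorial : ℝ) ≠ 0 := by positivity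
        push_cast
        field_simp
      exact h1.ofReal_comp
    have hv : ∀ x ∈ uIcc b t, HasDerivAt (iteratedDeriv (k + 1) H)
        (iteratedDeriv (k + 1 + 1) H x) x := fun x _ => hdi hH (k + 1) x
    have h4 := intervalIntegral.integral_mul_deriv_eq_deriv_mul hu hv (by
      apply Continuous.intervalIntegrable
      fun_prop) ((cdi hH (k + 1 + 1)).continuous.intervalIntegrable _ _)
    rw [h4, hb (k + 1)]
    simp only [sub_self, mul_zero, sub_zero]
    rw [zero_pow (Nat.succ_ne_zero k)]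
    simp only [zero_div, Complex.ofReal_zero, zero_mul, zero_sub]
    rw [← intervalIntegral.integral_neg]
    refine intervalIntegral.integral_congr fun x _ => ?_
    push_cast
    ring

lemma iter_pow (j : ℕ) (l : ℕ) (t : ℝ) : iteratedDeriv l (fun t : ℝ => (t : ℂ) ^ j) t =
    ((j.descFactorial l : ℝ) : ℂ) * (t : ℂ) ^ (j - l) := by
  induction l generalizing t with
  | zero => simp
  | succ l ih =>
    have h1 : iteratedDeriv l (fun t : ℝ => (t : ℂ) ^ j) =
        fun t : ℝ => ((j.descFactorial l : ℝ) : ℂ) * (t : ℂ) ^ (j - l) := funext ih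
    rw [iteratedDeriv_succ, h1]
    have h3 : HasDerivAt (fun t : ℝ => (t : ℂ) ^ (j - l))
        ((j - l : ℕ) * (t : ℂ) ^ (j - l - 1)) t := by
      have := (hasDerivAt_pow (j - l) (t : ℂ)).comp_ofReal
      exact this
    rw [(h3.const_mul _).deriv, Nat.descFactorial_succ]
    have e : j - l - 1 = j - (l + 1) := by omega
    rw [e]
    push_cast
    ring

theorem main {n : ℕ} (j : ℕ) {h g : ℝ → ℂ} (hh : ContDiff ℝ (⊤ : ℕ∞) h)
    (hg : iteratedDeriv n h = g) {R : ℝ} (hR : ∀ x, R ≤ x → h x = 0) (t : ℝ) :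
    iteratedDeriv n (fun t : ℝ => (t : ℂ) ^ j * h t) t = (t : ℂ) ^ j * g t +
      ∫ s in t..(R + 1), ((∑ l ∈ Finset.range (n + 1),
        co n j l * (t ^ (j - l) * (s - t) ^ (l - 1)) : ℝ) : ℂ) * g s := by
  have hgc : Continuous g := by
    rw [← hg]
    exact (cdi hh n).continuous
  have hp : ContDiff ℝ (⊤ : ℕ∞) (fun t : ℝ => (t : ℂ) ^ j) := Complex.ofRealCLM.contDiff.pow j
  have e0 : (fun t : ℝ => (t : ℂ) ^ j * h t) = (fun t : ℝ => (t : ℂ) ^ j) * h := rfl
  rw [e0, iteratedDeriv_mul (hp.of_le (by exact_mod_cast le_top)).contDiffAt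
    (hh.of_le (by exact_mod_cast le_top)).contDiffAt, Finset.sum_range_succ']
  simp only [Nat.choose_zero_right, Nat.cast_one, one_mul, iteratedDeriv_zero, Nat.sub_zero]
  rw [hg, add_comm]
  congr 1
  have h1 : ∀ s : ℝ, ((∑ l ∈ Finset.range (n + 1),
        co n j l * (t ^ (j - l) * (s - t) ^ (l - 1)) : ℝ) : ℂ) * g s =
      ∑ l ∈ Finset.range n,
        ((co n j (l + 1) * (t ^ (j - (l + 1)) * (s - t) ^ l) : ℝ) : ℂ) * g s := by
    intro s
    rw [Finset.sum_range_succ', co_zero, zero_mul, add_zero, Complex.ofReal_sum, Finset.sum_mul]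
    rfl
  simp_rw [h1]
  rw [intervalIntegral.integral_finsetSum (fun l _ => by
    apply Continuous.intervalIntegrable
    fun_prop)]
  refine Finset.sum_congr rfl fun l hl => ?_
  rw [Finset.mem_range] at hl
  rw [iter_pow]
  have h2 : iteratedDeriv (n - (l + 1)) h t = ∫ s in (R + 1)..t,
      (((t - s) ^ l / (l.factorial : ℝ) : ℝ) : ℂ) * g s := by
    have e5 : ∀ a b : ℕ, iteratedDeriv a (iteratedDeriv b h) = iteratedDeriv (a + b) h := by
      intro a b
      rw [iteratedDeriv_eq_iterate, iteratedDeriv_eq_iterate, iteratedDeriv_eq_iterate,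
        Function.iterate_add_apply]
    have h3 : ∀ i, iteratedDeriv i (iteratedDeriv (n - (l + 1)) h) (R + 1) = 0 := by
      intro i
      rw [e5]
      exact A.iter_zero hR _ _ le_rfl
    have h5 := tay (cdi hh (n - (l + 1))) h3 l t
    rw [e5, show l + 1 + (n - (l + 1)) = n by omega, hg] at h5
    exact h5
  rw [h2, intervalIntegral.integral_symm, ← intervalIntegral.integral_neg,
    ← intervalIntegral.integral_const_mul]
  refine intervalIntegral.integral_congr fun s _ => ?_
  have h4 : co n j (l + 1) * (t ^ (j - (l + 1)) * (s - t) ^ l) =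
      -((n.choose (l + 1) : ℝ) * ((j.descFactorial (l + 1) : ℝ) * t ^ (j - (l + 1))) *
        ((t - s) ^ l / (l.factorial : ℝ))) := by
    have e1 : (s - t) ^ l = (-1) ^ l * (t - s) ^ l := by
      rw [← mul_pow]
      congr 1
      ring
    have e2 : (-1 : ℝ) ^ (l + 1) * (-1) ^ l = -1 := by
      rw [pow_succ]
      have : ((-1 : ℝ) ^ l) * (-1) ^ l = 1 := by rw [← mul_pow]; simp
      linear_combination -this
    have e3 : (j.descFactorial (l + 1) : ℝ) = ((l : ℝ) + 1) * (l.factorial : ℝ) * (j.choose (l + 1) : ℝ) := by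
      rw [Nat.descFactorial_eq_factorial_mul_choose, Nat.factorial_succ]
      push_cast
      ring
    have hl0 : (l.factorial : ℝ) ≠ 0 := by positivity
    have e4 : (l.factorial : ℝ) * ((t - s) ^ l / (l.factorial : ℝ)) = (t - s) ^ l := by
      field_simp
    rw [e1, e3]
    unfold co
    push_cast
    linear_combination (((l : ℝ) + 1) * (n.choose (l + 1) : ℝ) * (j.choose (l + 1) : ℝ) *
      t ^ (j - (l + 1)) * (t - s) ^ l) * e2 + (((l : ℝ) + 1) * (n.choose (l + 1) : ℝ) *
      (j.choose (l + 1) : ℝ) * t ^ (j - (l + 1))) * e4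
  rw [h4]
  push_cast
  ring

end Pool.Agent.H93W.Repr
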