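import Pool.Agent.Y282.RB.A2
import Pool.Agent.Y282.RB.A

/-!
The powers of the Beurling transform on `z ^ (n + j) g(|z| ^ 2)`.
-/

set_option autoImplicit false

open MeasureTheory Set Filter Topology
open scoped FourierTransform SchwartzMap LineDeriv ContDiff

namespace Pool.Agent.H93W.Wirt

open Pool.Agent.Y282.RB Pool.Agent.Y282.RB.A2

lemma fd_conj (l : ℤ) (F : ℝ → ℂ) (z : ℂ) (hz : z ≠ 0) (hF : DifferentiableAt ℝ F (Complex.normSq z))
    (v : ℂ) :
    fderiv ℝ (fun z : ℂ => (starRingEnd ℂ z) ^ l * F (Complex.normSq z)) z v =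
      l * (starRingEnd ℂ z) ^ (l - 1) * starRingEnd ℂ v * F (Complex.normSq z) +
      (starRingEnd ℂ z) ^ l * (((2 * z.re * v.re + 2 * z.im * v.im : ℝ) : ℂ) *
        deriv F (Complex.normSq z)) := by
  have hc : starRingEnd ℂ z ≠ 0 := by simpa using hz
  have h0 : HasFDerivAt (fun z : ℂ => starRingEnd ℂ z) (Complex.conjCLE : ℂ →L[ℝ] ℂ) z :=
    Complex.conjCLE.hasFDerivAt
  have h1 : HasFDerivAt (fun w : ℂ => w ^ l)
      ((ContinuousLinearMap.toSpanSingleton ℂ (l * (starRingEnd ℂ z) ^ (l - 1) : ℂ)).restrictScalars ℝ)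
      (starRingEnd ℂ z) :=
    (hasDerivAt_zpow l (starRingEnd ℂ z) (Or.inl hc)).hasFDerivAt.restrictScalars ℝ
  have h1' : HasFDerivAt (fun z : ℂ => (starRingEnd ℂ z) ^ l)
      (((ContinuousLinearMap.toSpanSingleton ℂ (l * (starRingEnd ℂ z) ^ (l - 1) : ℂ)).restrictScalars ℝ).comp
        (Complex.conjCLE : ℂ →L[ℝ] ℂ)) z := HasFDerivAt.comp z h1 h0
  have h2 : HasFDerivAt (fun z : ℂ => F (Complex.normSq z))
      ((ContinuousLinearMap.toSpanSingleton ℝ (deriv F (Complex.normSq z))).comp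
        ((2 * z.re) • Complex.reCLM + (2 * z.im) • Complex.imCLM)) z :=
    HasFDerivAt.comp z hF.hasDerivAt.hasFDerivAt (fd_normSq z)
  have h4 : HasFDerivAt (fun z : ℂ => (starRingEnd ℂ z) ^ l * F (Complex.normSq z)) _ z := h1'.mul h2
  rw [h4.fderiv]
  simp [Complex.real_smul]
  ring

lemma dd_conj {l : ℤ} {F : ℝ → ℂ} (hF : Differentiable ℝ F) {f : 𝓢(ℂ, ℂ)}
    (hf : ∀ z, z ≠ 0 → f z = (starRingEnd ℂ z) ^ l * F (Complex.normSq z)) (z : ℂ) (hz : z ≠ 0) :
    dd f z = (starRingEnd ℂ z) ^ (l + 1) * deriv F (Complex.normSq z) := by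
  have h1 : (f : ℂ → ℂ) =ᶠ[𝓝 z] fun z : ℂ => (starRingEnd ℂ z) ^ l * F (Complex.normSq z) := by
    filter_upwards [isOpen_ne.mem_nhds hz] with w hw
    exact hf w hw
  rw [dd_apply, h1.fderiv_eq, fd_conj l F z hz (hF _), fd_conj l F z hz (hF _)]
  have hc : starRingEnd ℂ z ≠ 0 := by simpa using hz
  have h2 : (starRingEnd ℂ) z = (z.re : ℂ) - z.im * Complex.I := by
    apply Complex.ext <;> simp
  rw [zpow_add_one₀ hc]
  simp only [map_one, Complex.conj_I, Complex.one_re, Complex.one_im, Complex.I_re, Complex.I_im,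
    mul_zero, mul_one, add_zero, zero_add]
  push_cast
  linear_combination (1 / 2 * l * (starRingEnd ℂ z) ^ (l - 1) * F (Complex.normSq z)) *
    Complex.I_sq - (starRingEnd ℂ z) ^ l * deriv F (Complex.normSq z) * h2

lemma dd_conj_iter {l : ℤ} {F : ℝ → ℂ} (hF : ContDiff ℝ (⊤ : ℕ∞) F) {f : 𝓢(ℂ, ℂ)}
    (hf : ∀ z, z ≠ 0 → f z = (starRingEnd ℂ z) ^ l * F (Complex.normSq z)) (i : ℕ) (z : ℂ)
    (hz : z ≠ 0) :
    dd^[i] f z = (starRingEnd ℂ z) ^ (l + i) * iteratedDeriv i F (Complex.normSq z) := by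
  induction i generalizing z with
  | zero => simpa using hf z hz
  | succ i ih =>
    rw [Function.iterate_succ_apply', dd_conj (l := l + i) (F := iteratedDeriv i F) ?_ ih z hz,
      iteratedDeriv_succ]
    · push_cast
      rw [add_assoc]
    · exact hF.differentiable_iteratedDeriv i (by exact_mod_cast ENat.natCast_lt_top i)

/-- the multiplier on the class `n + j` -/
theorem plane (n j : ℕ) (h : ℝ → ℂ) (hh : ContDiff ℝ (⊤ : ℕ∞) h) (R : ℝ)
    (hR : ∀ x, R ≤ x → h x = 0) (z : ℂ) (hz : z ≠ 0) :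
    Tn n (fun z => z ^ (j + n) * iteratedDeriv n h (Complex.normSq z)) z =
      (starRingEnd ℂ z) ^ ((n : ℤ) - j) *
        iteratedDeriv n (fun t : ℝ => (t : ℂ) ^ j * h t) (Complex.normSq z) := by
  have hs : ContDiff ℝ ∞ (fun z : ℂ => z ^ j * h (Complex.normSq z)) := by
    have h1 : ContDiff ℝ ∞ (Complex.normSq : ℂ → ℝ) := by
      have e : (Complex.normSq : ℂ → ℝ) = fun z => z.re * z.re + z.im * z.im := by
        funext z
        exact Complex.normSq_apply z
      rw [e]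
      exact (Complex.reCLM.contDiff.mul Complex.reCLM.contDiff).add
        (Complex.imCLM.contDiff.mul Complex.imCLM.contDiff)
    exact (contDiff_id.pow j).mul (hh.comp h1)
  have hc : HasCompactSupport (fun z : ℂ => z ^ j * h (Complex.normSq z)) := by
    refine HasCompactSupport.intro (isCompact_closedBall (0 : ℂ) (|R| + 1)) fun w hw => ?_
    rw [Metric.mem_closedBall, dist_zero_right, not_le] at hw
    have h1 : R ≤ Complex.normSq w := by
      rw [Complex.normSq_eq_norm_sq]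
      nlinarith [le_abs_self R, abs_nonneg R]
    rw [hR _ h1, mul_zero]
  set f : 𝓢(ℂ, ℂ) := hc.toSchwartzMap hs with hfdef
  have hf : ∀ z, f z = z ^ j * h (Complex.normSq z) := fun z => rfl
  have h1 : (fun z => z ^ (j + n) * iteratedDeriv n h (Complex.normSq z)) = db^[n] f := by
    funext w
    rw [db_iter hh hf n w]
  have hu : ContDiff ℝ (⊤ : ℕ∞) (fun t : ℝ => (t : ℂ) ^ j * h t) :=
    (Complex.ofRealCLM.contDiff.pow j).mul hh
  have hf2 : ∀ z, z ≠ 0 → f z = (starRingEnd ℂ z) ^ (-(j : ℤ)) *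
      (fun t : ℝ => (t : ℂ) ^ j * h t) (Complex.normSq z) := by
    intro w hw
    have hc : starRingEnd ℂ w ≠ 0 := by simpa using hw
    rw [hf, zpow_neg, zpow_natCast]
    simp only
    rw [← Complex.mul_conj, mul_pow]
    field_simp
  rw [h1, Tn_db, dd_conj_iter hu hf2 n z hz]
  congr 2
  ring

end Pool.Agent.H93W.Wirt
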