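import Pool.Agent.H93W.Op
import Pool.Agent.H93W.Repr
import Pool.Agent.H93W.Wirt
import Pool.Agent.Y282.RB.A1
import Pool.Agent.Y282.RB.K
import Pool.Agent.Y338.BP.E

/-!
The pairing between the classes `n - j` and `n + j`.
-/

set_option autoImplicit false

open MeasureTheory Set Filter Topology
open scoped ENNReal ContDiff SchwartzMap

namespace Pool.Agent.H93W.Pair

open Pool.Agent.H93W.RT Pool.Agent.H93W.Kern Pool.Agent.H93W.Op Pool.Agent.Y282.RB

lemma kap_div {n j : ℕ} {t s : ℝ} (ht : 0 < t) (hs : 0 < s) :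
    t ^ (((n : ℝ) - j) / 2) * ((∑ l ∈ Finset.range (n + 1),
        co n j l * (t ^ (j - l) * (s - t) ^ (l - 1))) * s ^ (-(((n : ℝ) + j) / 2))) =
      kap n j (t / s) / s := by
  have h1 : P n j (t / s) = (∑ l ∈ Finset.range (n + 1),
      co n j l * (t ^ (j - l) * (s - t) ^ (l - 1))) * (s / s ^ j) := by
    unfold P
    rw [Finset.sum_mul]
    refine Finset.sum_congr rfl fun l _ => ?_
    rcases Nat.eq_zero_or_pos l with rfl | hl
    · simp [co_zero]
    · rcases lt_or_ge j l with h | h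
      · rw [co_gt n h]; simp
      · obtain ⟨k, rfl⟩ := Nat.exists_eq_add_of_le' hl
        obtain ⟨f, rfl⟩ := Nat.exists_eq_add_of_le h
        have e1 : k + 1 + f - (k + 1) = f := by omega
        rw [e1, Nat.add_sub_cancel]
        have e2 : 1 - t / s = (s - t) / s := by field_simp
        rw [e2, div_pow, div_pow, pow_add s (k + 1) f, pow_succ s k]
        field_simp
  unfold kap
  rw [h1, Real.div_rpow ht.le hs.le]
  have e3 : s ^ (-(((n : ℝ) + j) / 2)) = (s ^ (((n : ℝ) - j) / 2))⁻¹ * (s ^ j)⁻¹ := by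
    rw [← Real.rpow_natCast s j, ← Real.rpow_neg hs.le, ← Real.rpow_neg hs.le, ← Real.rpow_add hs]
    congr 1
    ring
  rw [e3]
  have : s ^ (((n : ℝ) - j) / 2) ≠ 0 := (Real.rpow_pos_of_pos hs _).ne'
  field_simp

/-- the operator -/
noncomputable def AV (n j : ℕ) (V : ℝ → ℂ) (t : ℝ) : ℂ := V t + ∫ s, ker n j (t, s) * V s

/-- the weight function -/
noncomputable def gg (n j : ℕ) (V : ℝ → ℂ) (s : ℝ) : ℂ := ((s ^ (-(((n : ℝ) + j) / 2)) : ℝ) : ℂ) * V s

lemma rep {n j : ℕ} {V : ℝ → ℂ} {a b b' : ℝ} (hV0 : ∀ t, t ∉ Icc a b → V t = 0)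
    (hb : b ≤ b') {t : ℝ} (ht : 0 < t) :
    ((t ^ (((n : ℝ) - j) / 2) : ℝ) : ℂ) * ((t : ℂ) ^ j * gg n j V t +
      ∫ s in t..b', ((∑ l ∈ Finset.range (n + 1),
        co n j l * (t ^ (j - l) * (s - t) ^ (l - 1)) : ℝ) : ℂ) * gg n j V s) = AV n j V t := by
  unfold AV
  rw [mul_add]
  congr 1
  · unfold gg
    have e1 : t ^ (((n : ℝ) - j) / 2) * t ^ j * t ^ (-(((n : ℝ) + j) / 2)) = 1 := by
      rw [← Real.rpow_natCast t j, ← Real.rpow_add ht, ← Real.rpow_add ht]
      have : ((n : ℝ) - j) / 2 + j + -(((n : ℝ) + j) / 2) = 0 := by ring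
      rw [this, Real.rpow_zero]
    have e2 : ((t ^ (((n : ℝ) - j) / 2) * t ^ j * t ^ (-(((n : ℝ) + j) / 2)) : ℝ) : ℂ) = 1 := by
      rw [e1]; simp
    push_cast at e2
    linear_combination (V t) * e2
  · have hz : ∀ s, b' < s → V s = 0 := fun s hs => hV0 s (fun h => by linarith [h.2])
    have hker : ∀ s, ker n j (t, s) * V s = (Ioi t).indicator
        (fun s => ((kap n j (t / s) / s : ℝ) : ℂ) * V s) s := by
      intro s
      unfold Op.ker
      by_cases h : s ∈ Ioi t
      · rw [indicator_of_mem h, if_pos ⟨ht, h⟩]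
      · rw [indicator_of_notMem h, if_neg (fun h' => h h'.2), zero_mul]
    rw [← intervalIntegral.integral_const_mul]
    simp_rw [hker]
    rw [integral_indicator measurableSet_Ioi]
    rcases le_or_gt t b' with h | h
    · rw [intervalIntegral.integral_of_le h]
      have h2 : ∫ s in Ioi t, ((kap n j (t / s) / s : ℝ) : ℂ) * V s =
          ∫ s in Ioc t b', ((kap n j (t / s) / s : ℝ) : ℂ) * V s := by
        apply setIntegral_eq_of_subset_of_forall_sdiff_eq_zero measurableSet_Ioi Ioc_subset_Ioi_self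
        rintro s ⟨hs1, hs2⟩
        have : b' < s := by
          by_contra h'
          exact hs2 ⟨hs1, not_lt.1 h'⟩
        rw [hz s this, mul_zero]
      rw [h2]
      refine setIntegral_congr_fun measurableSet_Ioc fun s hs => ?_
      have hs0 : 0 < s := ht.trans hs.1
      have h3 := kap_div (n := n) (j := j) ht hs0
      rw [← h3]
      unfold gg
      push_cast
      ring
    · rw [intervalIntegral.integral_of_ge h.le]
      have h4 : ∫ s in Ioi t, ((kap n j (t / s) / s : ℝ) : ℂ) * V s = 0 := by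
        rw [setIntegral_congr_fun (g := fun _ => 0) measurableSet_Ioi fun s hs => ?_]
        · simp
        · simp only
          rw [hz s (h.trans hs), mul_zero]
      have h5 : ∫ s in Ioc b' t, ((t ^ (((n : ℝ) - j) / 2) : ℝ) : ℂ) *
          (((∑ l ∈ Finset.range (n + 1),
        co n j l * (t ^ (j - l) * (s - t) ^ (l - 1)) : ℝ) : ℂ) * gg n j V s) = 0 := by
        rw [setIntegral_congr_fun (g := fun _ => 0) measurableSet_Ioc fun s hs => ?_]
        · simp
        · simp only [gg]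
          rw [hz s hs.1]
          ring
      rw [h4, h5, neg_zero]

lemma gg_smooth (n j : ℕ) {V : ℝ → ℂ} (hVs : ContDiff ℝ ∞ V) {a b : ℝ} (ha : 0 < a)
    (hV0 : ∀ t, t ∉ Icc a b → V t = 0) : ContDiff ℝ ∞ (gg n j V) := by
  rw [contDiff_iff_contDiffAt]
  intro x
  rcases lt_or_ge x (a / 2) with hx | hx
  · refine (contDiffAt_const (c := (0 : ℂ))).congr_of_eventuallyEq ?_
    filter_upwards [Iio_mem_nhds hx] with y hy
    unfold gg
    rw [hV0 y (fun h => by
      have := h.1
      have hy' : y < a / 2 := hy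
      linarith), mul_zero]
  · have hx0 : 0 < x := by linarith
    unfold gg
    refine ContDiffAt.mul ?_ hVs.contDiffAt
    exact Complex.ofRealCLM.contDiff.contDiffAt.comp x
      (Real.contDiffAt_rpow_const_of_ne hx0.ne')

lemma gg_zero (n j : ℕ) {V : ℝ → ℂ} {t : ℝ} (h : V t = 0) : gg n j V t = 0 := by
  unfold gg
  rw [h, mul_zero]

theorem schw (n j : ℕ) {V : ℝ → ℂ} (hV : CC V) (hVs : ContDiff ℝ ∞ V) : ∃ ψ : 𝓢(ℂ, ℂ),
    (∀ z, z ≠ 0 → ψ z = (z / (‖z‖ : ℂ)) ^ (n + j) * V (Complex.normSq z)) ∧ ψ 0 = 0 ∧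
    ∀ z, z ≠ 0 → Tn n ψ z =
      (starRingEnd ℂ z / (‖z‖ : ℂ)) ^ ((n : ℤ) - j) * AV n j V (Complex.normSq z) := by
  obtain ⟨hVc, a, b, ha, hab, hV0⟩ := id hV
  have hgs := gg_smooth n j hVs ha hV0
  obtain ⟨h, hh, hhR, hhg⟩ := A1.key n (b + 1) (gg n j V) hgs fun x hx =>
    gg_zero n j (hV0 x fun h => by linarith [h.2])
  have hs : ContDiff ℝ ∞ (fun z : ℂ => z ^ (j + n) * gg n j V (Complex.normSq z)) := by
    have h1 : ContDiff ℝ ∞ (Complex.normSq : ℂ → ℝ) := by
      have e : (Complex.normSq : ℂ → ℝ) = fun z => z.re * z.re + z.im * z.im := by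
        funext z
        exact Complex.normSq_apply z
      rw [e]
      exact (Complex.reCLM.contDiff.mul Complex.reCLM.contDiff).add
        (Complex.imCLM.contDiff.mul Complex.imCLM.contDiff)
    exact (contDiff_id.pow _).mul (hgs.comp h1)
  have hc : HasCompactSupport (fun z : ℂ => z ^ (j + n) * gg n j V (Complex.normSq z)) := by
    refine HasCompactSupport.intro (isCompact_closedBall (0 : ℂ) (|b| + 1)) fun w hw => ?_
    rw [Metric.mem_closedBall, dist_zero_right, not_le] at hw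
    have h1 : b < Complex.normSq w := by
      rw [Complex.normSq_eq_norm_sq]
      nlinarith [le_abs_self b, abs_nonneg b]
    rw [gg_zero n j (hV0 _ fun h => by linarith [h.2]), mul_zero]
  refine ⟨hc.toSchwartzMap hs, fun z hz => ?_, ?_, fun z hz => ?_⟩
  · show z ^ (j + n) * gg n j V (Complex.normSq z) = _
    have hn : 0 < ‖z‖ := norm_pos_iff.2 hz
    have hnc : (‖z‖ : ℂ) ≠ 0 := Complex.ofReal_ne_zero.2 hn.ne'
    have e1 : (Complex.normSq z) ^ (-(((n : ℝ) + j) / 2)) = (‖z‖ ^ (n + j))⁻¹ := by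
      rw [Complex.normSq_eq_norm_sq, ← Real.rpow_natCast, ← Real.rpow_natCast,
        ← Real.rpow_mul hn.le, ← Real.rpow_neg hn.le]
      congr 1
      push_cast
      ring
    unfold gg
    rw [e1, div_pow, add_comm j n]
    push_cast
    field_simp
  · show (0 : ℂ) ^ (j + n) * gg n j V (Complex.normSq 0) = 0
    rw [map_zero, gg_zero n j (hV0 0 fun h => by linarith [h.1]), mul_zero]
  · have e0 : (⇑(hc.toSchwartzMap hs) : ℂ → ℂ) =
        fun z => z ^ (j + n) * iteratedDeriv n h (Complex.normSq z) := by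
      funext w
      rw [hhg]
      rfl
    have hn : 0 < ‖z‖ := norm_pos_iff.2 hz
    have ht : 0 < Complex.normSq z := Complex.normSq_pos.2 hz
    rw [e0, Wirt.plane n j h hh (b + 1) hhR z hz, Repr.main j hh hhg hhR,
      ← rep (n := n) (j := j) hV0 (b' := b + 1 + 1) (by linarith) ht, div_zpow]
    have e1 : (Complex.normSq z) ^ (((n : ℝ) - j) / 2) = ‖z‖ ^ ((n : ℤ) - j) := by
      rw [Complex.normSq_eq_norm_sq, ← Real.rpow_natCast, ← Real.rpow_mul hn.le,
        ← Real.rpow_intCast]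
      congr 1
      push_cast
      ring
    have hnc : (‖z‖ : ℂ) ≠ 0 := Complex.ofReal_ne_zero.2 hn.ne'
    have hnc2 : (‖z‖ : ℂ) ^ ((n : ℤ) - j) ≠ 0 := zpow_ne_zero _ hnc
    rw [e1]
    push_cast
    field_simp

end Pool.Agent.H93W.Pair
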