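import Pool.Agent.H93W.Dual
import Pool.Agent.TH55.PowE

/-!
From the half line to the plane, and from compact support to Schwartz functions.
-/

set_option autoImplicit false

open MeasureTheory Set Filter Topology
open scoped ENNReal ContDiff SchwartzMap

namespace Pool.Agent.H93W.Plane

open Pool.Agent.H93W.RT Pool.Agent.H93W.Kern Pool.Agent.H93W.Op Pool.Agent.H93W.Pair
open Pool.Agent.H93W.Dual
open Pool.Agent.Y282.RB

lemma int_pos {φ : ℝ → ℝ} {a b : ℝ} (ha : 0 < a) (h0 : ∀ t, t ∉ Icc a b → φ t = 0) :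
    ∫ z : ℂ, φ (Complex.normSq z) = Real.pi * ∫ t, φ t := by
  rw [A3.int_normSq]
  congr 1
  apply setIntegral_eq_integral_of_forall_compl_eq_zero
  intro t ht
  exact h0 t (fun h => ht (lt_of_lt_of_le ha h.1))

lemma lint_pos {φ : ℝ → ℝ} (hφc : Continuous φ) (hφ : ∀ t, 0 ≤ φ t) {a b : ℝ} (ha : 0 < a)
    (h0 : ∀ t, t ∉ Icc a b → φ t = 0) :
    ∫⁻ z : ℂ, ENNReal.ofReal (φ (Complex.normSq z)) = ENNReal.ofReal (Real.pi * ∫ t, φ t) := by
  rw [← int_pos ha h0, ofReal_integral_eq_lintegral_ofReal]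
  · refine (hφc.comp Complex.continuous_normSq).integrable_of_hasCompactSupport ?_
    refine HasCompactSupport.intro (isCompact_closedBall (0 : ℂ) (|b| + 1)) fun w hw => ?_
    rw [Metric.mem_closedBall, dist_zero_right, not_le] at hw
    have h1 : b < Complex.normSq w := by
      rw [Complex.normSq_eq_norm_sq]
      nlinarith [le_abs_self b, abs_nonneg b]
    exact h0 _ fun h => by linarith [h.2]
  · exact Eventually.of_forall fun z => hφ _

theorem compact {n j : ℕ} (hn : 1 ≤ n) {f : 𝓢(ℂ, ℂ)} (hf : Cl ((n : ℤ) - j) f) (ha : Ann f)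
    {p : ℝ} (hp : 2 < p) :
    ∫⁻ z, ‖Tn n f z‖ₑ ^ p ≤
      ENNReal.ofReal (((1 + Ik n j) ^ (1 - 2 / p)) ^ p) * ∫⁻ z, ‖f z‖ₑ ^ p := by
  have hp0 : 0 < p := by linarith
  have hB0 : 0 ≤ 1 + Ik n j := by linarith [Ik_nonneg n j]
  have hB1 : 0 ≤ ((1 + Ik n j) ^ (1 - 2 / p)) ^ p := Real.rpow_nonneg (Real.rpow_nonneg hB0 _) _
  have hk : ∀ k : ℕ, (0 : ℝ) < 1 / ((k : ℝ) + 2) ∧ 1 / ((k : ℝ) + 2) < 1 := by
    intro k
    have : (0 : ℝ) ≤ k := Nat.cast_nonneg k
    refine ⟨by positivity, ?_⟩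
    rw [div_lt_one (by linarith)]
    linarith
  choose χ R hχ1 hχ2 hχ3 hχ4 hχ5 hχ6 using fun k : ℕ =>
    K.exists_cut (1 / ((k : ℝ) + 2)) (hk k).1 (hk k).2
  have hTc : Continuous (pr (Tn n f)) := by
    apply pr_cont
    rw [K.Tn_eq]
    exact Pool.Agent.TH55.PowA.T_cont (K.adm_sy n) f
  have hfc := cc_pr f.continuous ha
  -- the right side
  have hR : ∫⁻ z, ‖f z‖ₑ ^ p = ENNReal.ofReal (Real.pi * ∫ t, ‖pr f t‖ ^ p) := by
    obtain ⟨_, a, b, ha', hab, h0⟩ := id hfc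
    rw [← lint_pos (φ := fun t => ‖pr f t‖ ^ p) (hfc.1.norm.rpow_const fun x => Or.inr hp0.le)
      (fun t => by positivity) ha' (b := b) (fun t ht => by
        rw [h0 t ht, norm_zero, Real.zero_rpow hp0.ne'])]
    refine lintegral_congr_ae ?_
    filter_upwards [ne0] with z hz
    rw [← norm_pr hf hz, ← ofReal_norm, ENNReal.ofReal_rpow_of_nonneg (norm_nonneg _) hp0.le]
  have hk2 : ∀ k, ∫⁻ z : ℂ, ENNReal.ofReal (χ k (Complex.normSq z) *
      ‖pr (Tn n f) (Complex.normSq z)‖ ^ p) ≤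
      ENNReal.ofReal (((1 + Ik n j) ^ (1 - 2 / p)) ^ p) * ∫⁻ z, ‖f z‖ₑ ^ p := by
    intro k
    have hc : (0 : ℝ) < 1 / ((k : ℝ) + 2) / 2 := by
      have := (hk k).1
      linarith
    have hcd : 1 / ((k : ℝ) + 2) / 2 < max (R k) (1 / ((k : ℝ) + 2)) := by
      refine lt_of_lt_of_le ?_ (le_max_right _ _)
      have := (hk k).1
      linarith
    have hχ0 : ∀ t, t ∉ Icc (1 / ((k : ℝ) + 2) / 2) (max (R k) (1 / ((k : ℝ) + 2))) → χ k t = 0 := by
      intro t ht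
      rcases le_or_gt t (1 / ((k : ℝ) + 2) / 2) with h | h
      · exact hχ5 k t h
      · refine hχ6 k t ?_
        by_contra h'
        exact ht ⟨h.le, (not_le.1 h').le.trans (le_max_left _ _)⟩
    rw [lint_pos (φ := fun t => χ k t * ‖pr (Tn n f) t‖ ^ p)
      ((hχ1 k).continuous.mul (hTc.norm.rpow_const fun x => Or.inr hp0.le))
      (fun t => mul_nonneg (hχ3 k t).1 (by positivity)) hc
      (b := max (R k) (1 / ((k : ℝ) + 2))) (fun t ht => by
        rw [hχ0 t ht, zero_mul]), hR, ← ENNReal.ofReal_mul hB1]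
    refine ENNReal.ofReal_le_ofReal ?_
    have h1 := dual hn hf ha hp (hχ1 k).continuous (hχ3 k) hc hcd hχ0
    calc _ ≤ Real.pi * (((1 + Ik n j) ^ (1 - 2 / p)) ^ p * ∫ t, ‖pr f t‖ ^ p) :=
          mul_le_mul_of_nonneg_left h1 Real.pi_pos.le
      _ = _ := by ring
  have hlim : ∀ᵐ z : ℂ, liminf (fun k => ENNReal.ofReal (χ k (Complex.normSq z) *
      ‖pr (Tn n f) (Complex.normSq z)‖ ^ p)) atTop = ‖Tn n f z‖ₑ ^ p := by
    filter_upwards [ne0] with z hz
    have hz0 : 0 < Complex.normSq z := Complex.normSq_pos.2 hz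
    obtain ⟨N, hN⟩ := exists_nat_gt (max (Complex.normSq z) (1 / Complex.normSq z))
    apply Tendsto.liminf_eq
    refine tendsto_const_nhds.congr' ?_
    filter_upwards [eventually_ge_atTop N] with k hk'
    have hk'' : (N : ℝ) ≤ k := by exact_mod_cast hk'
    have h6 : Complex.normSq z < N := lt_of_le_of_lt (le_max_left _ _) hN
    have h7 : 1 / Complex.normSq z < N := lt_of_le_of_lt (le_max_right _ _) hN
    rw [hχ4 k _ ?_ ?_, one_mul, ← norm_pr (cl_Tn hf) hz, ← ofReal_norm,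
      ENNReal.ofReal_rpow_of_nonneg (norm_nonneg _) hp0.le]
    · rw [div_le_iff₀ (by positivity)]
      rw [div_lt_iff₀ hz0] at h7
      nlinarith
    · rw [one_div_one_div]
      linarith
  calc ∫⁻ z, ‖Tn n f z‖ₑ ^ p = ∫⁻ z, liminf (fun k => ENNReal.ofReal (χ k (Complex.normSq z) *
      ‖pr (Tn n f) (Complex.normSq z)‖ ^ p)) atTop :=
        (lintegral_congr_ae hlim).symm
    _ ≤ liminf (fun k => ∫⁻ z : ℂ, ENNReal.ofReal (χ k (Complex.normSq z) *
      ‖pr (Tn n f) (Complex.normSq z)‖ ^ p)) atTop := by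
        refine lintegral_liminf_le fun k => ?_
        refine Measurable.ennreal_ofReal ?_
        exact (((hχ1 k).continuous.mul (hTc.norm.rpow_const fun x => Or.inr hp0.le)).comp
          Complex.continuous_normSq).measurable
    _ ≤ _ := by
        refine (liminf_le_liminf (Eventually.of_forall hk2)).trans ?_
        rw [liminf_const]

/-- truncations -/
lemma exists_trunc {k : ℤ} (f : 𝓢(ℂ, ℂ)) (hf : Cl k f) (ε : ℝ) (h0 : 0 < ε) (h1 : ε < 1) :
    ∃ h : 𝓢(ℂ, ℂ), Cl k h ∧ Ann h ∧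
      (∀ z, ‖h z‖ ≤ ‖f z‖) ∧ (∀ z, ‖(f - h) z‖ ≤ ‖f z‖) ∧
      ∀ z, ε ≤ Complex.normSq z → Complex.normSq z ≤ 1 / ε → (f - h) z = 0 := by
  obtain ⟨χ, R, hχ1, hχ2, hχ3, hχ4, hχ5, hχ6⟩ := K.exists_cut ε h0 h1
  have hns : ContDiff ℝ ∞ (Complex.normSq : ℂ → ℝ) := by
    have e : (Complex.normSq : ℂ → ℝ) = fun z => z.re * z.re + z.im * z.im := by
      funext z
      exact Complex.normSq_apply z
    rw [e]
    exact (Complex.reCLM.contDiff.mul Complex.reCLM.contDiff).add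
      (Complex.imCLM.contDiff.mul Complex.imCLM.contDiff)
  have hrs : ContDiff ℝ ∞ (fun z : ℂ => (χ (Complex.normSq z) : ℂ) * f z) :=
    (Complex.ofRealCLM.contDiff.comp (hχ1.comp hns)).mul (f.smooth ⊤)
  have hrc : HasCompactSupport (fun z : ℂ => (χ (Complex.normSq z) : ℂ) * f z) := by
    refine HasCompactSupport.intro (isCompact_closedBall (0 : ℂ) (max R 1)) fun z hz => ?_
    rw [Metric.mem_closedBall, dist_zero_right, not_le] at hz
    rw [hχ6 _ ?_]
    · simp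
    · rw [Complex.normSq_eq_norm_sq]
      have h2 : R < ‖z‖ := lt_of_le_of_lt (le_max_left _ _) hz
      have h3 : 1 < ‖z‖ := lt_of_le_of_lt (le_max_right _ _) hz
      nlinarith
  refine ⟨hrc.toSchwartzMap hrs, fun a z ha => ?_, ⟨ε / 2, max R ε, by linarith, ?_, fun z hz => ?_⟩,
    fun z => ?_, fun z => ?_, fun z hz1 hz2 => ?_⟩
  · show (χ (Complex.normSq (a * z)) : ℂ) * f (a * z) = a ^ k * ((χ (Complex.normSq z) : ℂ) * f z)
    rw [hf a z ha, map_mul, Complex.normSq_eq_norm_sq a, ha]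
    ring_nf
  · refine lt_of_lt_of_le ?_ (le_max_right _ _)
    linarith
  · show (χ (Complex.normSq z) : ℂ) * f z = 0
    have : χ (Complex.normSq z) = 0 := by
      rcases le_or_gt (Complex.normSq z) (ε / 2) with h | h
      · exact hχ5 _ h
      · refine hχ6 _ ?_
        by_contra h'
        exact hz ⟨h.le, (not_le.1 h').le.trans (le_max_left _ _)⟩
    rw [this]
    simp
  · show ‖(χ (Complex.normSq z) : ℂ) * f z‖ ≤ ‖f z‖
    rw [norm_mul, Complex.norm_real, Real.norm_of_nonneg (hχ3 _).1]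
    exact mul_le_of_le_one_left (norm_nonneg _) (hχ3 _).2
  · show ‖f z - (χ (Complex.normSq z) : ℂ) * f z‖ ≤ ‖f z‖
    have e : f z - (χ (Complex.normSq z) : ℂ) * f z = ((1 - χ (Complex.normSq z) : ℝ) : ℂ) * f z := by
      push_cast
      ring
    rw [e, norm_mul, Complex.norm_real, Real.norm_of_nonneg (by linarith [(hχ3 (Complex.normSq z)).2])]
    exact mul_le_of_le_one_left (norm_nonneg _) (by linarith [(hχ3 (Complex.normSq z)).1])
  · show f z - (χ (Complex.normSq z) : ℂ) * f z = 0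
    rw [hχ4 _ hz1 hz2]
    simp

/-- the bound on the plane for Schwartz functions of a class -/
theorem schwartz {n j : ℕ} (hn : 1 ≤ n) {f : 𝓢(ℂ, ℂ)} (hf : Cl ((n : ℤ) - j) f)
    {p : ℝ} (hp : 2 < p) :
    eLpNorm (Tn n f) (ENNReal.ofReal p) (volume : Measure ℂ) ≤
      ENNReal.ofReal ((1 + Ik n j) ^ (1 - 2 / p)) *
        eLpNorm (⇑f) (ENNReal.ofReal p) (volume : Measure ℂ) := by
  have hp0 : 0 < p := by linarith
  have hP0 : ENNReal.ofReal p ≠ 0 := by
    rw [ne_eq, ENNReal.ofReal_eq_zero, not_le]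
    exact hp0
  have hPt : (ENNReal.ofReal p).toReal = p := ENNReal.toReal_ofReal hp0.le
  have hB0 : 0 ≤ 1 + Ik n j := by linarith [Ik_nonneg n j]
  have hB1 : 0 ≤ (1 + Ik n j) ^ (1 - 2 / p) := Real.rpow_nonneg hB0 _
  obtain ⟨C, hC⟩ : ∃ C, C = (1 + Ik n j) ^ (1 - 2 / p) := ⟨_, rfl⟩
  rw [← hC] at hB1 ⊢
  have hcomp : ∀ h : 𝓢(ℂ, ℂ), Cl ((n : ℤ) - j) h → Ann h →
      eLpNorm (Tn n h) (ENNReal.ofReal p) (volume : Measure ℂ) ≤
      ENNReal.ofReal C * eLpNorm (⇑h) (ENNReal.ofReal p) (volume : Measure ℂ) := by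
    intro h h1 h2
    rw [eLpNorm_eq_lintegral_rpow_enorm_toReal hP0 ENNReal.ofReal_ne_top,
      eLpNorm_eq_lintegral_rpow_enorm_toReal hP0 ENNReal.ofReal_ne_top, hPt]
    have h3 := compact hn h1 h2 hp
    rw [← hC] at h3
    calc (∫⁻ z, ‖Tn n h z‖ₑ ^ p) ^ (1 / p) ≤
        (ENNReal.ofReal (C ^ p) * ∫⁻ z, ‖h z‖ₑ ^ p) ^ (1 / p) :=
          ENNReal.rpow_le_rpow h3 (by positivity)
      _ = ENNReal.ofReal C * (∫⁻ z, ‖h z‖ₑ ^ p) ^ (1 / p) := by
          rw [ENNReal.mul_rpow_of_nonneg _ _ (by positivity),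
            ENNReal.ofReal_rpow_of_nonneg (by positivity) (by positivity), ← Real.rpow_mul hB1,
            mul_one_div_cancel hp0.ne', Real.rpow_one]
  have hk : ∀ k : ℕ, (0 : ℝ) < 1 / ((k : ℝ) + 2) ∧ 1 / ((k : ℝ) + 2) < 1 := by
    intro k
    have : (0 : ℝ) ≤ k := Nat.cast_nonneg k
    refine ⟨by positivity, ?_⟩
    rw [div_lt_one (by linarith)]
    linarith
  choose h hcl hann hle1 hle2 hz using fun k : ℕ =>
    exists_trunc f hf (1 / ((k : ℝ) + 2)) (hk k).1 (hk k).2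
  set KK : ℝ≥0∞ := ENNReal.ofReal (Pool.Agent.TH55.PowA.Cn n * (p - 1)) with hKK
  have hKt : KK ≠ ⊤ := ENNReal.ofReal_ne_top
  have hP1 : (1 : ℝ≥0∞) ≤ ENNReal.ofReal p := by
    rw [← ENNReal.ofReal_one]
    exact ENNReal.ofReal_le_ofReal (by linarith)
  have hbound : ∀ k, eLpNorm (Tn n f) (ENNReal.ofReal p) (volume : Measure ℂ) ≤
      KK * eLpNorm (f - h k : 𝓢(ℂ, ℂ)) (ENNReal.ofReal p) (volume : Measure ℂ) +
        ENNReal.ofReal C * eLpNorm (⇑f) (ENNReal.ofReal p) (volume : Measure ℂ) := by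
    intro k
    have e1 : Tn n f = fun z => Tn n (f - h k : 𝓢(ℂ, ℂ)) z + Tn n (h k) z := by
      rw [← K.Tn_add]
      congr 2
      rw [sub_add_cancel]
    have m1 : AEStronglyMeasurable (Tn n (f - h k : 𝓢(ℂ, ℂ))) (volume : Measure ℂ) := by
      rw [K.Tn_eq]
      exact (Pool.Agent.TH55.PowA.T_cont (K.adm_sy n) _).aestronglyMeasurable
    have m2 : AEStronglyMeasurable (Tn n (h k)) (volume : Measure ℂ) := by
      rw [K.Tn_eq]
      exact (Pool.Agent.TH55.PowA.T_cont (K.adm_sy n) _).aestronglyMeasurable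
    rw [e1]
    refine (eLpNorm_add_le m1 m2 hP1).trans (add_le_add ?_ ?_)
    · rw [K.Tn_eq]
      exact Pool.Agent.TH55.PowA.main p hp.le n hn (f - h k)
    · refine (hcomp (h k) (hcl k) (hann k)).trans ?_
      gcongr
      exact eLpNorm_mono (hle1 k)
  have hlim : Tendsto (fun k => KK * eLpNorm (f - h k : 𝓢(ℂ, ℂ)) (ENNReal.ofReal p)
      (volume : Measure ℂ) + ENNReal.ofReal C * eLpNorm (⇑f) (ENNReal.ofReal p)
        (volume : Measure ℂ)) atTop (𝓝 (KK * 0 + ENNReal.ofReal C * eLpNorm (⇑f) (ENNReal.ofReal p)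
          (volume : Measure ℂ))) := by
    refine Tendsto.add ?_ tendsto_const_nhds
    refine ENNReal.Tendsto.const_mul ?_ (Or.inr hKt)
    refine K.tendsto_trunc f (fun k => f - h k) p hp.le (fun k z => hle2 k z) fun k z hz1 hz2 => ?_
    refine hz k z hz1 ?_
    rw [one_div_one_div]
    exact hz2
  rw [mul_zero, zero_add] at hlim
  exact ge_of_tendsto' hlim hbound

end Pool.Agent.H93W.Plane
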