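import Mathlib

/-!
Riesz-Thorin for a kernel operator on the half line, between `(2, 2)` and `(∞, ∞)`, on pairs of
continuous functions with compact support in the open half line.
-/

set_option autoImplicit false

open MeasureTheory Set Filter Topology Complex Complex.HadamardThreeLines

namespace Pool.Agent.H93W.RT

/-- continuous with compact support in the open half line -/
def CC (U : ℝ → ℂ) : Prop :=
  Continuous U ∧ ∃ a b : ℝ, 0 < a ∧ a < b ∧ ∀ t, t ∉ Icc a b → U t = 0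

lemma diff_exp {α : Type*} [MeasurableSpace α] {μ : Measure α} {C : α → ℂ} {l : α → ℝ} {M : ℝ}
    (hC : Integrable C μ) (hl : Measurable l) (hM : ∀ a, C a ≠ 0 → |l a| ≤ M) :
    Differentiable ℂ (fun w : ℂ => ∫ a, C a * cexp (w * (l a : ℂ)) ∂μ) := by
  have hmeas : ∀ w : ℂ, AEStronglyMeasurable (fun a => C a * cexp (w * (l a : ℂ))) μ := by
    intro w
    refine hC.aestronglyMeasurable.mul ?_
    apply Measurable.aestronglyMeasurable
    fun_prop
  have hexp : ∀ (w : ℂ) (R : ℝ) (a : α), ‖w‖ ≤ R → C a ≠ 0 →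
      ‖cexp (w * (l a : ℂ))‖ ≤ Real.exp (R * M) := by
    intro w R a hw ha
    rw [Complex.norm_exp]
    refine Real.exp_le_exp.2 ?_
    rw [Complex.re_mul_ofReal]
    have h1 : |w.re| ≤ R := (Complex.abs_re_le_norm w).trans hw
    have h2 := hM a ha
    calc w.re * l a ≤ |w.re * l a| := le_abs_self _
      _ = |w.re| * |l a| := abs_mul _ _
      _ ≤ R * M := by
        have := abs_nonneg (l a)
        have := abs_nonneg w.re
        exact mul_le_mul h1 h2 (by positivity) (by linarith)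
  intro w
  have key := hasDerivAt_integral_of_dominated_loc_of_deriv_le (μ := μ) (𝕜 := ℂ)
    (F := fun w a => C a * cexp (w * (l a : ℂ)))
    (F' := fun w a => C a * (cexp (w * (l a : ℂ)) * (l a : ℂ)))
    (x₀ := w) (s := Metric.ball w 1) (bound := fun a => ‖C a‖ * (Real.exp ((‖w‖ + 1) * M) * M))
    (Metric.ball_mem_nhds w one_pos) (Eventually.of_forall hmeas) ?_ ?_ ?_ ?_ ?_
  · exact key.2.differentiableAt
  · refine (hC.norm.mul_const (Real.exp (‖w‖ * M))).mono' (hmeas w)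
      (Eventually.of_forall fun a => ?_)
    by_cases ha : C a = 0
    · simp [ha]
    · rw [norm_mul]
      exact mul_le_mul_of_nonneg_left (hexp w _ a le_rfl ha) (norm_nonneg _)
  · refine hC.aestronglyMeasurable.mul ?_
    apply Measurable.aestronglyMeasurable
    fun_prop
  · refine Eventually.of_forall fun a v hv => ?_
    by_cases ha : C a = 0
    · simp [ha]
    · have hv' : ‖v‖ ≤ ‖w‖ + 1 := by
        have h1 : dist v w < 1 := hv
        rw [dist_eq_norm] at h1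
        have := norm_le_norm_add_norm_sub' v w
        linarith [norm_sub_rev v w]
      rw [norm_mul, norm_mul, Complex.norm_real]
      have h3 := hM a ha
      have h4 := hexp v _ a hv' ha
      have h5 : ‖l a‖ ≤ M := h3
      gcongr
  · exact hC.norm.mul_const _
  · refine Eventually.of_forall fun a v _ => ?_
    have h1 : HasDerivAt (fun w : ℂ => w * (l a : ℂ)) (l a : ℂ) v := by
      simpa using (hasDerivAt_id v).mul_const (l a : ℂ)
    exact (h1.cexp).const_mul (C a)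

/-- the regularised powers -/
noncomputable def reg (U : ℝ → ℂ) (ε : ℝ) (c : ℂ) (t : ℝ) : ℂ :=
  U t * cexp (c * (Real.log (‖U t‖ ^ 2 + ε ^ 2) : ℂ))

lemma reg_mul (U : ℝ → ℂ) (ε : ℝ) (c d : ℂ) (t : ℝ) :
    reg U ε c t * cexp (d * (Real.log (‖U t‖ ^ 2 + ε ^ 2) : ℂ)) = reg U ε (c + d) t := by
  unfold reg
  rw [mul_assoc, ← Complex.exp_add]
  congr 2
  ring

lemma reg_zero (U : ℝ → ℂ) (ε : ℝ) (t : ℝ) : reg U ε 0 t = U t := by
  simp [reg]

lemma norm_reg (U : ℝ → ℂ) {ε : ℝ} (hε : 0 < ε) (c : ℂ) (t : ℝ) :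
    ‖reg U ε c t‖ = ‖U t‖ * (‖U t‖ ^ 2 + ε ^ 2) ^ c.re := by
  have h0 : 0 < ‖U t‖ ^ 2 + ε ^ 2 := by positivity
  unfold reg
  rw [norm_mul, Complex.norm_exp, Complex.re_mul_ofReal, Real.rpow_def_of_pos h0, mul_comm (Real.log _)]

lemma CC.hcs {U : ℝ → ℂ} (hU : CC U) : HasCompactSupport U := by
  obtain ⟨_, a, b, _, _, h⟩ := hU
  exact HasCompactSupport.intro isCompact_Icc h

lemma CC.reg {U : ℝ → ℂ} (hU : CC U) {ε : ℝ} (hε : 0 < ε) (c : ℂ) : CC (reg U ε c) := by
  obtain ⟨hc, a, b, h0, hab, h⟩ := hU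
  refine ⟨?_, a, b, h0, hab, fun t ht => by simp [RT.reg, h t ht]⟩
  unfold RT.reg
  refine hc.mul ?_
  refine Complex.continuous_exp.comp (continuous_const.mul ?_)
  refine Complex.continuous_ofReal.comp (Continuous.log ?_ ?_)
  · fun_prop
  · intro t
    positivity

lemma log_bdd {U : ℝ → ℂ} (hU : CC U) {ε : ℝ} (hε : 0 < ε) :
    ∃ M : ℝ, 0 ≤ M ∧ ∀ t, |Real.log (‖U t‖ ^ 2 + ε ^ 2)| ≤ M := by
  have hcont : Continuous (fun t => Real.log (‖U t‖ ^ 2 + ε ^ 2) - Real.log (ε ^ 2)) := by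
    refine Continuous.sub (Continuous.log ?_ ?_) continuous_const
    · have := hU.1
      fun_prop
    · intro t
      positivity
  have hs : HasCompactSupport (fun t => Real.log (‖U t‖ ^ 2 + ε ^ 2) - Real.log (ε ^ 2)) := by
    obtain ⟨hc, a, b, h0, hab, h⟩ := hU
    refine HasCompactSupport.intro isCompact_Icc (fun t ht => ?_) (K := Icc a b)
    simp [h t ht]
  obtain ⟨M, hM⟩ := hs.exists_bound_of_continuous hcont
  refine ⟨|M| + |Real.log (ε ^ 2)|, by positivity, fun t => ?_⟩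
  have h1 := hM t
  rw [Real.norm_eq_abs] at h1
  have h2 : |Real.log (‖U t‖ ^ 2 + ε ^ 2)| ≤
      |Real.log (‖U t‖ ^ 2 + ε ^ 2) - Real.log (ε ^ 2)| + |Real.log (ε ^ 2)| := by
    have := abs_add_le (Real.log (‖U t‖ ^ 2 + ε ^ 2) - Real.log (ε ^ 2)) (Real.log (ε ^ 2))
    rwa [sub_add_cancel] at this
  linarith [le_abs_self M]

/-- the bilinear form -/
noncomputable def Lam (k : ℝ × ℝ → ℂ) (U V : ℝ → ℂ) : ℂ :=
  (∫ t, U t * V t) + ∫ q : ℝ × ℝ, k q * (U q.1 * V q.2)

/-- local integrability of the kernel in the open quadrant -/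
def Loc (k : ℝ × ℝ → ℂ) : Prop :=
  ∀ a b : ℝ, 0 < a → a < b → IntegrableOn k (Icc a b ×ˢ Icc a b)

lemma int1 {U V : ℝ → ℂ} (hU : CC U) (hV : CC V) : Integrable (fun t => U t * V t) :=
  (hU.1.mul hV.1).integrable_of_hasCompactSupport hU.hcs.mul_right

lemma int2 {k : ℝ × ℝ → ℂ} (hk : Loc k) {U V : ℝ → ℂ} (hU : CC U) (hV : CC V) :
    Integrable (fun q : ℝ × ℝ => k q * (U q.1 * V q.2)) := by
  obtain ⟨hUc, a, b, ha, hab, hU0⟩ := id hU
  obtain ⟨hVc, c, d, hc, hcd, hV0⟩ := id hV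
  obtain ⟨M1, hM1⟩ := hU.hcs.exists_bound_of_continuous hUc
  obtain ⟨M2, hM2⟩ := hV.hcs.exists_bound_of_continuous hVc
  have h1 := hk (min a c) (max b d) (lt_min ha hc)
    (lt_of_le_of_lt (min_le_left a c) (lt_of_lt_of_le hab (le_max_left b d)))
  have h2 : IntegrableOn (fun q : ℝ × ℝ => k q * (U q.1 * V q.2))
      (Icc (min a c) (max b d) ×ˢ Icc (min a c) (max b d)) := by
    refine Integrable.mul_bdd (c := |M1| * |M2|) h1 ?_ (Eventually.of_forall fun q => ?_)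
    · exact ((hUc.comp continuous_fst).mul (hVc.comp continuous_snd)).aestronglyMeasurable
    · rw [norm_mul]
      have := hM1 q.1
      have := hM2 q.2
      exact mul_le_mul ((hM1 _).trans (le_abs_self _)) ((hM2 _).trans (le_abs_self _))
        (norm_nonneg _) (abs_nonneg _)
  refine (integrableOn_iff_integrable_of_support_subset ?_).1 h2
  intro q hq
  rw [Function.mem_support] at hq
  have hu : U q.1 ≠ 0 := fun h => hq (by simp [h])
  have hv : V q.2 ≠ 0 := fun h => hq (by simp [h])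
  have h3 : q.1 ∈ Icc a b := by
    by_contra h
    exact hu (hU0 _ h)
  have h4 : q.2 ∈ Icc c d := by
    by_contra h
    exact hv (hV0 _ h)
  exact ⟨⟨(min_le_left _ _).trans h3.1, h3.2.trans (le_max_left _ _)⟩,
    ⟨(min_le_right _ _).trans h4.1, h4.2.trans (le_max_right _ _)⟩⟩

section
variable {k : ℝ × ℝ → ℂ} {U V : ℝ → ℂ} {p q ε : ℝ}

/-- the entire function -/
noncomputable def FF (k : ℝ × ℝ → ℂ) (U V : ℝ → ℂ) (p q ε : ℝ) (w : ℂ) : ℂ :=
  Lam k (reg U ε ((p * w - 1) / 2)) (reg V ε ((q * (1 - w) - 1) / 2))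

lemma FF_eq (w : ℂ) : FF k U V p q ε w =
    (∫ t, (reg U ε (-1 / 2) t * reg V ε ((q - 1) / 2) t) *
      cexp (w * ((p / 2 * Real.log (‖U t‖ ^ 2 + ε ^ 2) - q / 2 * Real.log (‖V t‖ ^ 2 + ε ^ 2) : ℝ) : ℂ)))
    + ∫ z : ℝ × ℝ, (k z * (reg U ε (-1 / 2) z.1 * reg V ε ((q - 1) / 2) z.2)) *
      cexp (w * ((p / 2 * Real.log (‖U z.1‖ ^ 2 + ε ^ 2) -
        q / 2 * Real.log (‖V z.2‖ ^ 2 + ε ^ 2) : ℝ) : ℂ)) := by
  have key : ∀ t s : ℝ, reg U ε ((p * w - 1) / 2) t * reg V ε ((q * (1 - w) - 1) / 2) s =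
      (reg U ε (-1 / 2) t * reg V ε ((q - 1) / 2) s) *
      cexp (w * ((p / 2 * Real.log (‖U t‖ ^ 2 + ε ^ 2) -
        q / 2 * Real.log (‖V s‖ ^ 2 + ε ^ 2) : ℝ) : ℂ)) := by
    intro t s
    have e1 : ((p * w - 1) / 2 : ℂ) = -1 / 2 + (p / 2 * w) := by ring
    have e2 : ((q * (1 - w) - 1) / 2 : ℂ) = (q - 1) / 2 + (-(q / 2) * w) := by ring
    rw [e1, e2, ← reg_mul, ← reg_mul]
    have e3 : cexp (w * ((p / 2 * Real.log (‖U t‖ ^ 2 + ε ^ 2) -
        q / 2 * Real.log (‖V s‖ ^ 2 + ε ^ 2) : ℝ) : ℂ)) =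
        cexp ((p / 2 * w) * (Real.log (‖U t‖ ^ 2 + ε ^ 2) : ℂ)) *
        cexp ((-(q / 2) * w) * (Real.log (‖V s‖ ^ 2 + ε ^ 2) : ℂ)) := by
      rw [← Complex.exp_add]
      congr 1
      push_cast
      ring
    rw [e3]
    ring
  unfold FF Lam
  congr 1
  · refine integral_congr_ae (Eventually.of_forall fun t => ?_)
    exact key t t
  · refine integral_congr_ae (Eventually.of_forall fun z => ?_)
    simp only
    rw [key]
    ring

lemma meas_log {U : ℝ → ℂ} (hU : Continuous U) (ε : ℝ) :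
    Measurable fun t => Real.log (‖U t‖ ^ 2 + ε ^ 2) := by
  have := hU.measurable
  fun_prop

lemma FF_props (hk : Loc k) (hU : CC U) (hV : CC V) (hp : 0 < p) (hq : 0 < q) (hε : 0 < ε) :
    Differentiable ℂ (FF k U V p q ε) ∧
      ∃ K : ℝ, ∀ w : ℂ, |w.re| ≤ 1 → ‖FF k U V p q ε w‖ ≤ K := by
  obtain ⟨M1, hM10, hM1⟩ := log_bdd hU hε
  obtain ⟨M2, hM20, hM2⟩ := log_bdd hV hε
  set M := p / 2 * M1 + q / 2 * M2 with hM
  have hM0 : 0 ≤ M := by positivity
  have hl : ∀ t s : ℝ, |p / 2 * Real.log (‖U t‖ ^ 2 + ε ^ 2) -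
        q / 2 * Real.log (‖V s‖ ^ 2 + ε ^ 2)| ≤ M := by
    intro t s
    refine (abs_sub _ _).trans ?_
    rw [abs_mul, abs_mul, abs_of_pos (half_pos hp), abs_of_pos (half_pos hq)]
    have := hM1 t
    have := hM2 s
    rw [hM]
    gcongr
  have i1 := int1 (hU.reg hε (-1 / 2)) (hV.reg hε ((q - 1) / 2))
  have i2 := int2 hk (hU.reg hε (-1 / 2)) (hV.reg hε ((q - 1) / 2))
  have m1 := meas_log hU.1 ε
  have m2 := meas_log hV.1 ε
  have e : FF k U V p q ε = fun w => _ := funext fun w => FF_eq (k := k) (U := U) (V := V) (p := p)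
    (q := q) (ε := ε) w
  constructor
  · rw [e]
    refine Differentiable.add ?_ ?_
    · exact diff_exp (M := M) i1 (by fun_prop) fun t _ => hl t t
    · refine diff_exp (M := M) i2 ?_ fun z _ => hl z.1 z.2
      exact ((m1.comp measurable_fst).const_mul _).sub ((m2.comp measurable_snd).const_mul _)
  · refine ⟨(∫ t, ‖reg U ε (-1 / 2) t * reg V ε ((q - 1) / 2) t‖ * Real.exp M) +
      ∫ z : ℝ × ℝ, ‖k z * (reg U ε (-1 / 2) z.1 * reg V ε ((q - 1) / 2) z.2)‖ * Real.exp M,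
      fun w hw => ?_⟩
    have hex : ∀ l : ℝ, |l| ≤ M → ‖cexp (w * (l : ℂ))‖ ≤ Real.exp M := by
      intro l hl
      rw [Complex.norm_exp]
      refine Real.exp_le_exp.2 ?_
      rw [Complex.re_mul_ofReal]
      calc w.re * l ≤ |w.re * l| := le_abs_self _
        _ = |w.re| * |l| := abs_mul _ _
        _ ≤ 1 * M := mul_le_mul hw hl (abs_nonneg _) zero_le_one
        _ = M := one_mul _
    rw [FF_eq]
    refine (norm_add_le _ _).trans (add_le_add ?_ ?_)
    · refine (norm_integral_le_integral_norm _).trans ?_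
      refine integral_mono_of_nonneg (Eventually.of_forall fun _ => norm_nonneg _)
        (i1.norm.mul_const _) (Eventually.of_forall fun t => ?_)
      simp only
      rw [norm_mul]
      exact mul_le_mul_of_nonneg_left (hex _ (hl t t)) (norm_nonneg _)
    · refine (norm_integral_le_integral_norm _).trans ?_
      refine integral_mono_of_nonneg (Eventually.of_forall fun _ => norm_nonneg _)
        (i2.norm.mul_const _) (Eventually.of_forall fun t => ?_)
      simp only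
      rw [norm_mul]
      exact mul_le_mul_of_nonneg_left (hex _ (hl _ _)) (norm_nonneg _)

/-- the regularised integral -/
noncomputable def NN (U : ℝ → ℂ) (a b r ε : ℝ) : ℝ := ∫ t in a..b, (‖U t‖ ^ 2 + ε ^ 2) ^ (r / 2)

lemma NN_cont (hU : Continuous U) (a b : ℝ) {r : ℝ} (hr : 0 < r) : Continuous (NN U a b r) := by
  unfold NN
  refine intervalIntegral.continuous_parametric_intervalIntegral_of_continuous' ?_ a b
  refine Continuous.rpow_const ?_ fun x => Or.inr (by positivity)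
  have h1 : Continuous fun x : ℝ × ℝ => ‖U x.2‖ := (hU.comp continuous_snd).norm
  exact (h1.pow 2).add (continuous_fst.pow 2)

lemma NN_zero {a b : ℝ} (hab : a < b) (h0 : ∀ t, t ∉ Icc a b → U t = 0) {r : ℝ} (hr : 0 < r) :
    NN U a b r 0 = ∫ t, ‖U t‖ ^ r := by
  unfold NN
  rw [intervalIntegral.integral_of_le hab.le, ← integral_Icc_eq_integral_Ioc]
  rw [← setIntegral_eq_integral_of_forall_compl_eq_zero (s := Icc a b)
    (f := fun t => ‖U t‖ ^ r)]
  · refine setIntegral_congr_fun measurableSet_Icc fun t _ => ?_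
    rw [zero_pow two_ne_zero, add_zero, ← Real.rpow_natCast, ← Real.rpow_mul (norm_nonneg _)]
    congr 1
    push_cast
    ring
  · intro t ht
    rw [h0 t ht, norm_zero, Real.zero_rpow hr.ne']

lemma le_NN (hU : Continuous U) {a b : ℝ} (hab : a < b) (h0 : ∀ t, t ∉ Icc a b → U t = 0)
    {r ε : ℝ} (hε : 0 < ε) (f : ℝ → ℝ) (hf : ∀ t, 0 ≤ f t)
    (hle : ∀ t, f t ≤ (‖U t‖ ^ 2 + ε ^ 2) ^ (r / 2)) (hz : ∀ t, U t = 0 → f t = 0) :
    ∫ t, f t ≤ NN U a b r ε := by
  unfold NN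
  rw [intervalIntegral.integral_of_le hab.le, ← integral_Icc_eq_integral_Ioc]
  rw [← setIntegral_eq_integral_of_forall_compl_eq_zero (s := Icc a b) (f := f)
    (fun t ht => hz t (h0 t ht))]
  refine integral_mono_of_nonneg (Eventually.of_forall hf) ?_ (Eventually.of_forall hle)
  refine ContinuousOn.integrableOn_Icc (Continuous.continuousOn ?_)
  refine Continuous.rpow_const ?_ fun x => Or.inl (by positivity)
  fun_prop

/-- **Riesz-Thorin.** -/
theorem main {B : ℝ} (hB : 0 ≤ B) (hk : Loc k) (hU : CC U) (hV : CC V) (hp : 2 < p)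
    (hpq : 1 / p + 1 / q = 1)
    (H2 : ∀ U V : ℝ → ℂ, CC U → CC V →
      ‖Lam k U V‖ ≤ (∫ t, ‖U t‖ ^ 2) ^ (1 / 2 : ℝ) * (∫ t, ‖V t‖ ^ 2) ^ (1 / 2 : ℝ))
    (H1 : ∀ U V : ℝ → ℂ, CC U → CC V → (∀ t, ‖U t‖ ≤ 1) → ‖Lam k U V‖ ≤ B * ∫ t, ‖V t‖) :
    ‖Lam k U V‖ ≤ B ^ (1 - 2 / p) * (∫ t, ‖U t‖ ^ p) ^ (1 / p) * (∫ t, ‖V t‖ ^ q) ^ (1 / q) := by
  have hp0 : 0 < p := by linarith
  have hq1 : 1 / q = 1 - 1 / p := by linarith
  have hpi : 1 / p < 1 / 2 := one_div_lt_one_div_of_lt (by norm_num) hp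
  have hpi0 : 0 < 1 / p := by positivity
  have hq0 : 0 < q := by
    have : 0 < 1 / q := by rw [hq1]; linarith
    exact one_div_pos.1 this
  have hq2 : q < 2 := by
    have : 1 / 2 < 1 / q := by rw [hq1]; linarith
    exact (one_div_lt_one_div (by norm_num) hq0).1 this
  have hqa : q * (1 - 1 / p) = 1 := by
    rw [← hq1]
    exact mul_one_div_cancel hq0.ne'
  have hpa : p * (1 / p) = 1 := mul_one_div_cancel hp0.ne'
  obtain ⟨hUc, a, b, ha, hab, hU0⟩ := id hU
  obtain ⟨hVc, c, d, hc, hcd, hV0⟩ := id hV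
  -- the estimate for fixed `ε`
  have key : ∀ ε : ℝ, 0 < ε → ‖Lam k U V‖ ≤ (B * NN V c d q ε) ^ (1 - 2 / p) *
      ((NN U a b p ε) ^ (1 / 2 : ℝ) * (NN V c d q ε) ^ (1 / 2 : ℝ)) ^ (2 / p) := by
    intro ε hε
    obtain ⟨hd, K, hK⟩ := FF_props (p := p) (q := q) hk hU hV hp0 hq0 hε
    have hF : FF k U V p q ε ((1 / p : ℝ) : ℂ) = Lam k U V := by
      unfold FF
      have e1 : ((p : ℂ) * ((1 / p : ℝ) : ℂ) - 1) / 2 = 0 := by
        rw [← Complex.ofReal_mul, hpa]
        simp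
      have e2 : ((q : ℂ) * (1 - ((1 / p : ℝ) : ℂ)) - 1) / 2 = 0 := by
        have : (1 - ((1 / p : ℝ) : ℂ)) = ((1 - 1 / p : ℝ) : ℂ) := by push_cast; ring
        rw [this, ← Complex.ofReal_mul, hqa]
        simp
      rw [e1, e2]
      have h1 : reg U ε 0 = U := funext fun t => reg_zero U ε t
      have h2 : reg V ε 0 = V := funext fun t => reg_zero V ε t
      rw [h1, h2]
    have h3 := norm_le_interp_of_mem_verticalClosedStrip' (f := FF k U V p q ε)
      (z := ((1 / p : ℝ) : ℂ)) (l := 0) (u := 1 / 2) (a := B * NN V c d q ε)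
      (b := (NN U a b p ε) ^ (1 / 2 : ℝ) * (NN V c d q ε) ^ (1 / 2 : ℝ))
      (by norm_num) ?_ hd.diffContOnCl ?_ ?_ ?_
    · rw [hF, Complex.ofReal_re, sub_zero, sub_zero] at h3
      have e : 1 / p / (1 / 2) = 2 / p := by ring
      rw [e] at h3
      exact h3
    · simp only [verticalClosedStrip, mem_preimage, Complex.ofReal_re, mem_Icc]
      exact ⟨hpi0.le, hpi.le⟩
    · refine ⟨K, ?_⟩
      rintro _ ⟨w, hw, rfl⟩
      simp only [verticalClosedStrip, mem_preimage, mem_Icc] at hw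
      refine hK w ?_
      rw [abs_le]
      constructor <;> linarith [hw.1, hw.2]
    · intro w hw
      have hw0 : w.re = 0 := hw
      have hb1 : ∀ t, ‖reg U ε ((p * w - 1) / 2) t‖ ≤ 1 := by
        intro t
        rw [norm_reg U hε]
        have e : (((p : ℂ) * w - 1) / 2).re = -1 / 2 := by
          simp [hw0]
        have hx : 0 < ‖U t‖ ^ 2 + ε ^ 2 := by positivity
        rw [e]
        have h4 : ‖U t‖ ≤ (‖U t‖ ^ 2 + ε ^ 2) ^ (1 / 2 : ℝ) := by
          rw [← Real.sqrt_eq_rpow]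
          exact Real.le_sqrt_of_sq_le (by nlinarith [sq_nonneg ε])
        calc ‖U t‖ * (‖U t‖ ^ 2 + ε ^ 2) ^ (-1 / 2 : ℝ) ≤
            (‖U t‖ ^ 2 + ε ^ 2) ^ (1 / 2 : ℝ) * (‖U t‖ ^ 2 + ε ^ 2) ^ (-1 / 2 : ℝ) := by gcongr
          _ = 1 := by
            rw [← Real.rpow_add hx]
            norm_num
      refine (H1 _ _ (hU.reg hε _) (hV.reg hε _) hb1).trans ?_
      refine mul_le_mul_of_nonneg_left ?_ hB
      refine le_NN hVc hcd hV0 hε _ (fun _ => norm_nonneg _) (fun t => ?_) fun t ht => ?_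
      · rw [norm_reg V hε]
        have e : (((q : ℂ) * (1 - w) - 1) / 2).re = (q - 1) / 2 := by
          simp [hw0]
        have hx : 0 < ‖V t‖ ^ 2 + ε ^ 2 := by positivity
        rw [e]
        have h4 : ‖V t‖ ≤ (‖V t‖ ^ 2 + ε ^ 2) ^ (1 / 2 : ℝ) := by
          rw [← Real.sqrt_eq_rpow]
          exact Real.le_sqrt_of_sq_le (by nlinarith [sq_nonneg ε])
        calc ‖V t‖ * (‖V t‖ ^ 2 + ε ^ 2) ^ ((q - 1) / 2) ≤
            (‖V t‖ ^ 2 + ε ^ 2) ^ (1 / 2 : ℝ) * (‖V t‖ ^ 2 + ε ^ 2) ^ ((q - 1) / 2) := by gcongr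
          _ = (‖V t‖ ^ 2 + ε ^ 2) ^ (q / 2) := by
            rw [← Real.rpow_add hx]
            congr 1
            ring
      · simp [reg, ht]
    · intro w hw
      have hw0 : w.re = 1 / 2 := hw
      refine (H2 _ _ (hU.reg hε _) (hV.reg hε _)).trans ?_
      have hsq : ∀ x e : ℝ, 0 ≤ x → x ^ 2 * (x ^ 2 + ε ^ 2) ^ (e - 1) ≤ (x ^ 2 + ε ^ 2) ^ e := by
        intro x e hx
        have h5 : 0 < x ^ 2 + ε ^ 2 := by positivity
        calc x ^ 2 * (x ^ 2 + ε ^ 2) ^ (e - 1) ≤ (x ^ 2 + ε ^ 2) * (x ^ 2 + ε ^ 2) ^ (e - 1) := by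
              gcongr
              nlinarith [sq_nonneg ε]
          _ = (x ^ 2 + ε ^ 2) ^ e := by
              nth_rewrite 1 [← Real.rpow_one (x ^ 2 + ε ^ 2)]
              rw [← Real.rpow_add h5]
              congr 1
              ring
      have hpow : ∀ X c : ℝ, 0 < X → (X ^ c) ^ 2 = X ^ (2 * c) := by
        intro X c hX
        rw [← Real.rpow_natCast, ← Real.rpow_mul hX.le]
        congr 1
        push_cast
        ring
      have g1 : ∫ t, ‖reg U ε ((p * w - 1) / 2) t‖ ^ 2 ≤ NN U a b p ε := by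
        refine le_NN hUc hab hU0 hε _ (fun _ => by positivity) (fun t => ?_) fun t ht => ?_
        · rw [norm_reg U hε, mul_pow]
          have hx : 0 < ‖U t‖ ^ 2 + ε ^ 2 := by positivity
          rw [hpow _ _ hx]
          have e : 2 * (((p : ℂ) * w - 1) / 2).re = p / 2 - 1 := by
            simp [hw0]
            ring
          rw [e]
          exact hsq _ _ (norm_nonneg _)
        · simp [reg, ht]
      have g2 : ∫ t, ‖reg V ε ((q * (1 - w) - 1) / 2) t‖ ^ 2 ≤ NN V c d q ε := by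
        refine le_NN hVc hcd hV0 hε _ (fun _ => by positivity) (fun t => ?_) fun t ht => ?_
        · rw [norm_reg V hε, mul_pow]
          have hx : 0 < ‖V t‖ ^ 2 + ε ^ 2 := by positivity
          rw [hpow _ _ hx]
          have e : 2 * (((q : ℂ) * (1 - w) - 1) / 2).re = q / 2 - 1 := by
            simp [hw0]
            ring
          rw [e]
          exact hsq _ _ (norm_nonneg _)
        · simp [reg, ht]
      have n1 : 0 ≤ ∫ t, ‖reg U ε ((p * w - 1) / 2) t‖ ^ 2 := integral_nonneg fun t => by positivity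
      have n2 : 0 ≤ ∫ t, ‖reg V ε ((q * (1 - w) - 1) / 2) t‖ ^ 2 :=
        integral_nonneg fun t => by positivity
      exact mul_le_mul (Real.rpow_le_rpow n1 g1 (by norm_num))
        (Real.rpow_le_rpow n2 g2 (by norm_num)) (Real.rpow_nonneg n2 _)
        (Real.rpow_nonneg (n1.trans g1) _)
  -- the limit `ε → 0`
  have hcont : Continuous fun ε => (B * NN V c d q ε) ^ (1 - 2 / p) *
      ((NN U a b p ε) ^ (1 / 2 : ℝ) * (NN V c d q ε) ^ (1 / 2 : ℝ)) ^ (2 / p) := by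
    have c1 := NN_cont hUc a b hp0
    have c2 := NN_cont hVc c d hq0
    have h2p : 0 ≤ 1 - 2 / p := by
      have : 2 / p = 2 * (1 / p) := by ring
      rw [this]; linarith
    have h2q : 0 ≤ 2 / p := by positivity
    refine ((continuous_const.mul c2).rpow_const fun _ => Or.inr h2p).mul ?_
    refine Continuous.rpow_const ?_ fun _ => Or.inr h2q
    exact (c1.rpow_const fun _ => Or.inr (by norm_num)).mul
      (c2.rpow_const fun _ => Or.inr (by norm_num))
  have hlim := (hcont.tendsto 0).mono_left (nhdsWithin_le_nhds (s := Ioi (0 : ℝ)))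
  have h6 := ge_of_tendsto hlim (by
    filter_upwards [self_mem_nhdsWithin] with ε hε
    exact key ε hε)
  rw [NN_zero hcd hV0 hq0, NN_zero hab hU0 hp0] at h6
  refine h6.trans (le_of_eq ?_)
  set X := ∫ t, ‖U t‖ ^ p with hX
  set Y := ∫ t, ‖V t‖ ^ q with hY
  have hX0 : 0 ≤ X := integral_nonneg fun t => by positivity
  have hY0 : 0 ≤ Y := integral_nonneg fun t => by positivity
  rw [Real.mul_rpow hB hY0, Real.mul_rpow (by positivity) (by positivity), ← Real.rpow_mul hX0,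
    ← Real.rpow_mul hY0]
  have e1 : (1 / 2 : ℝ) * (2 / p) = 1 / p := by ring
  rw [e1]
  have e2 : Y ^ (1 - 2 / p) * Y ^ (1 / p) = Y ^ (1 / q) := by
    rw [hq1, ← Real.rpow_add' hY0]
    · congr 1; ring
    · have : 1 - 2 / p + 1 / p = 1 - 1 / p := by ring
      rw [this]
      linarith
  calc B ^ (1 - 2 / p) * Y ^ (1 - 2 / p) * (X ^ (1 / p) * Y ^ (1 / p)) =
      B ^ (1 - 2 / p) * X ^ (1 / p) * (Y ^ (1 - 2 / p) * Y ^ (1 / p)) := by ring
    _ = _ := by rw [e2]

end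

end Pool.Agent.H93W.RT
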