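import Pool.Agent.H93W.Kern

/-!
The square function of the kernels of several classes.
-/

set_option autoImplicit false

open MeasureTheory Set Filter Topology

namespace Pool.Agent.H93W.W1

open Pool.Agent.H93W.Kern

/-- the square function of the kernels -/
noncomputable def GT (n : ℕ) (T : Finset ℕ) (x : ℝ) : ℝ := Real.sqrt (∑ j ∈ T, kap n j x ^ 2)

/-- the mass -/
noncomputable def AJ (n j : ℕ) : ℝ := 2 * n * j / ((n : ℝ) + j)

/-- the total mass -/
noncomputable def AT (n : ℕ) (T : Finset ℕ) : ℝ := ∑ j ∈ T, AJ n j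

lemma AJ_nonneg (n j : ℕ) : 0 ≤ AJ n j := by
  unfold AJ
  positivity

lemma AT_nonneg (n : ℕ) (T : Finset ℕ) : 0 ≤ AT n T := Finset.sum_nonneg fun j _ => AJ_nonneg n j

lemma GT_nonneg (n : ℕ) (T : Finset ℕ) (x : ℝ) : 0 ≤ GT n T x := Real.sqrt_nonneg _

lemma GT_meas (n : ℕ) (T : Finset ℕ) : Measurable (GT n T) := by
  unfold GT
  exact (Finset.measurable_sum T fun j _ => (kap_meas n j).pow_const 2).sqrt

lemma mass_le {n j J : ℕ} (hn : 1 ≤ n) (hj : j ≤ J) :
    ∫ x in (0 : ℝ)..1, P n j x * Q n j x * (1 / ((n : ℝ) + J) + (1 - x)) ≤ AJ n j := by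
  have hn0 : (0 : ℝ) < n := by exact_mod_cast hn
  have hP := P_cont n j
  have hQ := Q_cont n j
  have hJ0 : (0 : ℝ) ≤ J := Nat.cast_nonneg J
  have e : ∀ x : ℝ, P n j x * Q n j x * (1 / ((n : ℝ) + J) + (1 - x)) =
      1 / ((n : ℝ) + J) * (P n j x * Q n j x) + P n j x * Q n j x * (1 - x) := by
    intro x; ring
  simp_rw [e]
  have i1 : IntervalIntegrable (fun x => 1 / ((n : ℝ) + J) * (P n j x * Q n j x)) volume 0 1 := by
    apply Continuous.intervalIntegrable
    fun_prop
  have i2 : IntervalIntegrable (fun x => P n j x * Q n j x * (1 - x)) volume 0 1 := by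
    apply Continuous.intervalIntegrable
    fun_prop
  rw [intervalIntegral.integral_add i1 i2, intervalIntegral.integral_const_mul, E1 hn]
  rcases Nat.eq_zero_or_pos j with rfl | hj1
  · have h0 : ∀ x, P n 0 x = 0 := by
      intro x
      unfold P
      refine Finset.sum_eq_zero fun l _ => ?_
      rcases Nat.eq_zero_or_pos l with rfl | hl
      · rw [co_zero, zero_mul]
      · rw [co_gt n hl, zero_mul]
    simp only [h0, zero_mul, intervalIntegral.integral_zero, Nat.cast_zero, mul_zero, add_zero]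
    unfold AJ
    positivity
  · rw [E2 hn hj1]
    have hj0 : (0 : ℝ) < j := by exact_mod_cast hj1
    have hjJ : (j : ℝ) ≤ J := by exact_mod_cast hj
    have h1 : 1 / ((n : ℝ) + J) * ((n : ℝ) * j) ≤ (n : ℝ) * j / (n + j) := by
      rw [one_div_mul_eq_div]
      gcongr
    have h3 : AJ n j = (n : ℝ) * j / (n + j) + (n : ℝ) * j / (n + j) := by
      unfold AJ
      ring
    rw [h3]
    linarith

lemma recip2 {n J : ℕ} (hn : 1 ≤ n) :
    ∫ x in (0 : ℝ)..1, 1 / (1 / ((n : ℝ) + J) + (1 - x)) = Real.log (1 + n + J) := by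
  have hn0 : (0 : ℝ) < n := by exact_mod_cast hn
  have hJ0 : (0 : ℝ) ≤ J := Nat.cast_nonneg J
  have hs : (0 : ℝ) < (n : ℝ) + J := by positivity
  have h1 := intervalIntegral.integral_comp_sub_left (a := (0 : ℝ)) (b := 1)
    (fun y => 1 / (1 / ((n : ℝ) + J) + y)) 1
  simp only [sub_self, sub_zero] at h1
  rw [h1]
  have h2 := intervalIntegral.integral_comp_add_left (a := (0 : ℝ)) (b := 1)
    (fun y => 1 / y) (1 / ((n : ℝ) + J))
  rw [h2, integral_one_div_of_pos (by positivity) (by positivity)]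
  congr 1
  field_simp
  ring

/-- the `L¹` norm of the square function -/
theorem GT_l1 {n J : ℕ} (hn : 1 ≤ n) (T : Finset ℕ) (hT : ∀ j ∈ T, j ≤ J) :
    IntervalIntegrable (GT n T) volume 0 1 ∧
    ∫ x in (0 : ℝ)..1, GT n T x ≤
      Real.sqrt (AT n T * Real.log (1 + n + J)) := by
  have hn0 : (0 : ℝ) < n := by exact_mod_cast hn
  have hJ0 : (0 : ℝ) ≤ J := Nat.cast_nonneg J
  have hs0 : (0 : ℝ) < (n : ℝ) + J := by positivity
  obtain ⟨L, hL⟩ : ∃ L, L = Real.log (1 + n + J) := ⟨_, rfl⟩
  have hL0 : 0 < L := by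
    rw [hL]
    exact Real.log_pos (by linarith)
  obtain ⟨A, hA⟩ : ∃ A : ℝ, A = AT n T := ⟨_, rfl⟩
  have hA0 : 0 ≤ A := by
    rw [hA]
    exact AT_nonneg n T
  rw [← hL, ← hA]
  set w : ℝ → ℝ := fun x => 1 / ((n : ℝ) + J) + (1 - x) with hw
  have hw0 : ∀ x ∈ Icc (0 : ℝ) 1, 0 < w x := by
    intro x hx
    have : 0 ≤ 1 - x := by linarith [hx.2]
    simp only [hw]
    positivity
  have hwc : Continuous w := by
    simp only [hw]
    fun_prop
  have hPQ : Continuous fun x => ∑ j ∈ T, P n j x * Q n j x := by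
    refine continuous_finsetSum T fun j _ => ?_
    exact (P_cont n j).mul (Q_cont n j)
  have hG2 : ∀ x, 0 < x → GT n T x ^ 2 = ∑ j ∈ T, P n j x * Q n j x := by
    intro x hx
    unfold GT
    rw [Real.sq_sqrt (Finset.sum_nonneg fun j _ => sq_nonneg _)]
    exact Finset.sum_congr rfl fun j _ => kap_sq hx
  have hint : ∫ x in (0 : ℝ)..1, (∑ j ∈ T, P n j x * Q n j x) * w x ≤ A := by
    have e : ∀ x, (∑ j ∈ T, P n j x * Q n j x) * w x =
        ∑ j ∈ T, P n j x * Q n j x * (1 / ((n : ℝ) + J) + (1 - x)) := by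
      intro x
      rw [Finset.sum_mul]
    simp_rw [e]
    rw [intervalIntegral.integral_finsetSum]
    · calc _ ≤ ∑ j ∈ T, AJ n j := Finset.sum_le_sum fun j hj => mass_le hn (hT j hj)
        _ = A := by rw [hA]; rfl
    · intro j _
      apply Continuous.intervalIntegrable
      have hP := P_cont n j
      have hQ := Q_cont n j
      fun_prop
  have hrec : ∫ x in (0 : ℝ)..1, 1 / w x = L := by
    rw [hL]
    exact recip2 hn
  -- the bound with a parameter
  have key : ∀ lam : ℝ, 0 < lam → IntervalIntegrable (GT n T) volume 0 1 ∧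
      ∫ x in (0 : ℝ)..1, GT n T x ≤ 1 / 2 * (lam * A + L / lam) := by
    intro lam hlam
    have i1 : IntervalIntegrable (fun x => lam * ((∑ j ∈ T, P n j x * Q n j x) * w x)) volume 0 1 := by
      apply Continuous.intervalIntegrable
      fun_prop
    have i2 : IntervalIntegrable (fun x => 1 / lam * (1 / w x)) volume 0 1 := by
      apply ContinuousOn.intervalIntegrable
      rw [uIcc_of_le zero_le_one]
      exact continuousOn_const.mul (ContinuousOn.div continuousOn_const hwc.continuousOn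
        fun x hx => (hw0 x hx).ne')
    have hpt : ∀ x ∈ Ioc (0 : ℝ) 1, ‖GT n T x‖ ≤
        1 / 2 * (lam * ((∑ j ∈ T, P n j x * Q n j x) * w x) + 1 / lam * (1 / w x)) := by
      intro x hx
      have h1 := hw0 x ⟨hx.1.le, hx.2⟩
      rw [← hG2 x hx.1, Real.norm_of_nonneg (GT_nonneg n T x)]
      have h3 : lam * (GT n T x ^ 2 * w x) + 1 / lam * (1 / w x) - 2 * GT n T x =
          (GT n T x * (lam * w x) - 1) ^ 2 / (lam * w x) := by
        field_simp
        ring
      have h4 : 0 ≤ (GT n T x * (lam * w x) - 1) ^ 2 / (lam * w x) := by positivity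
      linarith
    have i3 : IntervalIntegrable (fun x => 1 / 2 * (lam * ((∑ j ∈ T, P n j x * Q n j x) * w x) +
        1 / lam * (1 / w x))) volume 0 1 := (i1.add i2).const_mul _
    have i4 : IntervalIntegrable (GT n T) volume 0 1 := by
      rw [intervalIntegrable_iff_integrableOn_Ioc_of_le zero_le_one] at i3 ⊢
      refine Integrable.mono' i3 (GT_meas n T).aestronglyMeasurable ?_
      rw [ae_restrict_iff' measurableSet_Ioc]
      exact Eventually.of_forall fun x hx => hpt x hx
    refine ⟨i4, ?_⟩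
    have h6 : ∫ x in (0 : ℝ)..1, GT n T x ≤ ∫ x in (0 : ℝ)..1,
        1 / 2 * (lam * ((∑ j ∈ T, P n j x * Q n j x) * w x) + 1 / lam * (1 / w x)) := by
      rw [intervalIntegral.integral_of_le zero_le_one, intervalIntegral.integral_of_le zero_le_one]
      rw [intervalIntegrable_iff_integrableOn_Ioc_of_le zero_le_one] at i3 i4
      exact setIntegral_mono_on i4 i3 measurableSet_Ioc fun x hx =>
        (le_abs_self _).trans (hpt x hx)
    refine h6.trans ?_
    rw [intervalIntegral.integral_const_mul, intervalIntegral.integral_add i1 i2,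
      intervalIntegral.integral_const_mul, intervalIntegral.integral_const_mul, hrec]
    have h9 : lam * ∫ x in (0 : ℝ)..1, (∑ j ∈ T, P n j x * Q n j x) * w x ≤ lam * A :=
      mul_le_mul_of_nonneg_left hint hlam.le
    have h10 : 1 / lam * L = L / lam := by ring
    rw [h10]
    linarith
  refine ⟨(key 1 one_pos).1, ?_⟩
  rcases eq_or_lt_of_le hA0 with h0 | h0
  · rw [← h0, zero_mul, Real.sqrt_zero]
    refine le_of_forall_pos_le_add fun ε hε => ?_
    have h1 := (key (L / ε) (by positivity)).2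
    rw [← h0] at h1
    have h2 : 1 / 2 * (L / ε * 0 + L / (L / ε)) = ε / 2 := by
      field_simp
      ring
    rw [h2] at h1
    linarith
  · have hY0 : 0 < Real.sqrt (A * L) := Real.sqrt_pos.2 (by positivity)
    have hY2 : Real.sqrt (A * L) ^ 2 = A * L := Real.sq_sqrt (by positivity)
    have h1 := (key (Real.sqrt (A * L) / A) (by positivity)).2
    have h2 : 1 / 2 * (Real.sqrt (A * L) / A * A + L / (Real.sqrt (A * L) / A)) =
        Real.sqrt (A * L) := by
      field_simp
      nlinarith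
    rw [h2] at h1
    exact h1

end Pool.Agent.H93W.W1
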