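import Pool.Agent.H93W.W9

/-!
Comparison of the constants with the Pochhammer ratio.
-/

set_option autoImplicit false

open MeasureTheory Set Filter Topology

namespace Pool.Agent.H93W.W10

open Pool.Agent.H93W.W1
open Pool.Agent.Y282.RB

lemma log_up {a : ℝ} (ha : 0 < a) :
    Real.log (1 + a⁻¹) ≤ 2 / (2 * a + 1) + 1 / (6 * a * (a + 1) * (2 * a + 1)) := by
  have h1 := Real.hasSum_log_one_add_inv ha
  obtain ⟨x, hx⟩ : ∃ x : ℝ, x = 1 / (2 * a + 1) := ⟨_, rfl⟩
  rw [← hx] at h1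
  have hx0 : 0 < x := by rw [hx]; positivity
  have hx1 : x < 1 := by
    rw [hx, div_lt_one (by positivity)]
    linarith
  have h2 : HasSum (fun k : ℕ => 2 / 3 * x * (x ^ 2) ^ k) (2 / 3 * x * (1 - x ^ 2)⁻¹) :=
    (hasSum_geometric_of_lt_one (by positivity) (by nlinarith)).mul_left _
  have h3 : HasSum (fun k : ℕ => if k = 0 then 4 / 3 * x else 0) (4 / 3 * x) :=
    hasSum_ite_eq 0 (4 / 3 * x)
  have h4 := hasSum_le (f := fun k : ℕ => (2 : ℝ) * (1 / (2 * k + 1)) * x ^ (2 * k + 1))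
    (g := fun k : ℕ => 2 / 3 * x * (x ^ 2) ^ k + if k = 0 then 4 / 3 * x else 0) (fun k => by
      rcases Nat.eq_zero_or_pos k with hk | hk
      · subst hk
        simp
        linarith
      · rw [if_neg hk.ne', add_zero]
        have hk1 : (1 : ℝ) ≤ k := by exact_mod_cast hk
        have e : x ^ (2 * k + 1) = x * (x ^ 2) ^ k := by
          rw [pow_succ, pow_mul]
          ring
        rw [e]
        have h5 : 2 * (1 / (2 * (k : ℝ) + 1)) ≤ 2 / 3 := by
          rw [mul_one_div, div_le_div_iff₀ (by positivity) (by norm_num)]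
          linarith
        calc 2 * (1 / (2 * (k : ℝ) + 1)) * (x * (x ^ 2) ^ k) ≤ 2 / 3 * (x * (x ^ 2) ^ k) := by
              gcongr
          _ = _ := by ring) h1 (h2.add h3)
  refine h4.trans (le_of_eq ?_)
  have e1 : 1 - x ^ 2 = 4 * a * (a + 1) / (2 * a + 1) ^ 2 := by
    rw [hx]
    field_simp
    ring
  rw [e1, hx]
  field_simp
  ring

lemma sum_ge (m : ℕ) : Real.log ((m : ℝ) + 2) + (8 / 3 - Real.log 2 - 1 / 96) +
    1 / (24 * ((m : ℝ) + 2) ^ 2) ≤ ∑ i ∈ Finset.range (m + 2), 2 / (2 * (i : ℝ) + 1) := by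
  induction m with
  | zero =>
    rw [Finset.sum_range_succ, Finset.sum_range_succ]
    norm_num
    linarith
  | succ m ih =>
    rw [show m + 1 + 2 = (m + 2) + 1 by ring, Finset.sum_range_succ]
    push_cast
    obtain ⟨a, ha⟩ : ∃ a : ℝ, a = (m : ℝ) + 2 := ⟨_, rfl⟩
    have ha0 : 0 < a := by rw [ha]; positivity
    have e1 : (m : ℝ) + 1 + 2 = a * (1 + a⁻¹) := by
      rw [mul_add, mul_inv_cancel₀ ha0.ne', ha]
      ring
    have h1 := log_up ha0
    have e3 : (m : ℝ) + 1 + 2 = a + 1 := by rw [ha]; ring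
    have h2 : Real.log ((m : ℝ) + 1 + 2) = Real.log a + Real.log (1 + a⁻¹) := by
      rw [e1, Real.log_mul ha0.ne' (by positivity)]
    have h3 : 1 / (6 * a * (a + 1) * (2 * a + 1)) + 1 / (24 * (a + 1) ^ 2) ≤ 1 / (24 * a ^ 2) := by
      rw [← sub_nonneg]
      have e2 : 1 / (24 * a ^ 2) - (1 / (6 * a * (a + 1) * (2 * a + 1)) + 1 / (24 * (a + 1) ^ 2)) =
          1 / (24 * a ^ 2 * (a + 1) ^ 2 * (2 * a + 1)) := by
        field_simp
        ring
      rw [e2]
      positivity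
    rw [← ha] at ih ⊢
    rw [h2, e3]
    linarith

lemma En_ge' {n : ℕ} (hn : 1 ≤ n) : 7.12 * (n : ℝ) ≤ Const.En n := by
  rcases eq_or_lt_of_le hn with h | h
  · rw [← h]
    unfold Const.En
    simp only [Finset.range_one, Finset.sum_singleton, Nat.cast_zero, mul_zero, zero_add, div_one,
      Nat.cast_one, mul_one]
    have h1 := Real.exp_one_gt_d9
    have h2 : Real.exp 2 = Real.exp 1 * Real.exp 1 := by
      rw [← Real.exp_add]
      norm_num
    rw [h2]
    nlinarith
  · obtain ⟨m, rfl⟩ := Nat.exists_eq_add_of_le' (show 2 ≤ n from h)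
    have h1 := sum_ge m
    unfold Const.En
    push_cast
    have h0 : (0 : ℝ) < (m : ℝ) + 2 := by positivity
    have h2 : Real.log ((m : ℝ) + 2) + (85 / 32 - Real.log 2) ≤
        ∑ i ∈ Finset.range (m + 2), 2 / (2 * (i : ℝ) + 1) := by
      refine le_trans ?_ h1
      have : 0 < 1 / (24 * ((m : ℝ) + 2) ^ 2) := by positivity
      linarith
    refine le_trans ?_ (Real.exp_le_exp.2 h2)
    rw [Real.exp_add, Real.exp_log h0, Real.exp_sub, Real.exp_log (by norm_num : (0 : ℝ) < 2)]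
    have h3 : (14.24 : ℝ) ≤ Real.exp (85 / 32) := by
      have h4 : (14.24 : ℝ) ^ 32 ≤ Real.exp (85 / 32) ^ 32 := by
        rw [← Real.exp_nat_mul]
        have e : ((32 : ℕ) : ℝ) * (85 / 32) = ((85 : ℕ) : ℝ) * 1 := by norm_num
        rw [e, Real.exp_nat_mul]
        have h5 := Real.exp_one_gt_d9
        have h6 : (14.24 : ℝ) ^ 32 ≤ 2.718281 ^ 85 := by norm_num
        refine h6.trans ?_
        gcongr
        linarith
      exact le_of_pow_le_pow_left₀ (by norm_num) (Real.exp_pos _).le h4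
    nlinarith

/-- the Pochhammer ratio is at least `(0.963 n)^(1-2/p) (p-1)` -/
lemma Cn_ge' {n : ℕ} (hn : 1 ≤ n) {p : ℝ} (hp : 2 ≤ p) :
    (0.963 * (n : ℝ)) ^ (1 - 2 / p) * (p - 1) ≤ Cn p n := by
  obtain ⟨m, rfl⟩ := Nat.exists_eq_add_of_le' hn
  have hp0 : 0 < p := by linarith
  set u : ℝ := 1 - 2 / p with hu
  have hu0 : 0 ≤ u := by
    rw [hu, sub_nonneg, div_le_one hp0]
    exact hp
  have hu1 : u < 1 := by
    rw [hu]
    have : 0 < 2 / p := by positivity
    linarith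
  have hip : 1 / p = (1 - u) / 2 := by
    rw [hu]
    field_simp
    ring
  have h1 : Real.exp (∑ i ∈ Finset.range m, 2 / (2 * ((i : ℝ) + 1) + 1)) ^ u * (p - 1) ≤
      Cn p (m + 1) := by
    unfold Cn
    rw [Finset.prod_range_succ']
    have e0 : ((((0 : ℕ) : ℝ) + 1 - 1 / p) / (((0 : ℕ) : ℝ) + 1 / p)) = p - 1 := by
      push_cast
      field_simp
      ring
    rw [e0]
    refine mul_le_mul_of_nonneg_right ?_ (by linarith)
    rw [← Real.exp_mul, Finset.sum_mul, Real.exp_sum]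
    refine Finset.prod_le_prod (fun i _ => (Real.exp_pos _).le) fun i _ => ?_
    push_cast
    obtain ⟨s, hs⟩ : ∃ s : ℝ, s = (i : ℝ) + 1 := ⟨_, rfl⟩
    rw [← hs]
    have hi : (1 : ℝ) ≤ s := by
      rw [hs]
      have : (0 : ℝ) ≤ i := Nat.cast_nonneg i
      linarith
    have hx0 : 0 ≤ u / (2 * s + 1) := by positivity
    have hx1 : u / (2 * s + 1) < 1 := by
      rw [div_lt_one (by positivity)]
      linarith
    have h1 := Const.log_ratio hx0 hx1
    have hpos : 0 < (1 + u / (2 * s + 1)) / (1 - u / (2 * s + 1)) := by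
      apply div_pos (by positivity)
      linarith
    have h2 : Real.exp (2 * (u / (2 * s + 1))) ≤
        (1 + u / (2 * s + 1)) / (1 - u / (2 * s + 1)) := by
      rw [← Real.exp_log hpos]
      exact Real.exp_le_exp.2 h1
    have e1 : 2 / (2 * s + 1) * u = 2 * (u / (2 * s + 1)) := by ring
    have e2 : (s + 1 - 1 / p) / (s + 1 / p) =
        (1 + u / (2 * s + 1)) / (1 - u / (2 * s + 1)) := by
      rw [hip]
      have h3 : (2 * s + 1) ≠ 0 := by positivity
      have h4 : s + (1 - u) / 2 ≠ 0 := by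
        have : 0 < s + (1 - u) / 2 := by linarith
        exact this.ne'
      have h5 : 1 - u / (2 * s + 1) ≠ 0 := by
        have : 0 < 1 - u / (2 * s + 1) := by linarith
        exact this.ne'
      rw [div_eq_div_iff h4 h5]
      field_simp
      ring
    rw [e1, e2]
    exact h2
  refine le_trans ?_ h1
  have h2 : 0.963 * (((m + 1 : ℕ) : ℝ)) ≤
      Real.exp (∑ i ∈ Finset.range m, 2 / (2 * ((i : ℝ) + 1) + 1)) := by
    have h3 := En_ge' (n := m + 1) (by omega)
    unfold Const.En at h3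
    rw [Finset.sum_range_succ'] at h3
    push_cast at h3 ⊢
    rw [mul_zero, zero_add, div_one, Real.exp_add] at h3
    have h4 : Real.exp 2 ≤ 7.3891 := by
      have h5 := Real.exp_one_lt_d9
      have h6 : Real.exp 2 = Real.exp 1 * Real.exp 1 := by
        rw [← Real.exp_add]
        norm_num
      have h7 := Real.exp_pos 1
      rw [h6]
      nlinarith
    have h8 := Real.exp_pos (∑ i ∈ Finset.range m, 2 / (2 * ((i : ℝ) + 1) + 1))
    have hm : (0 : ℝ) ≤ m := Nat.cast_nonneg m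
    nlinarith
  have : 0 ≤ p - 1 := by linarith
  gcongr

lemma const_small {n : ℕ} {p B : ℝ} (hp : 2 ≤ p) (hB : 0 ≤ B) (h : B ≤ 7.11 * n) :
    B ^ (1 - 2 / p) ≤ (0.963 * (n : ℝ)) ^ (1 - 2 / p) * (p - 1) := by
  have hp0 : 0 < p := by linarith
  have hn : (0 : ℝ) ≤ n := Nat.cast_nonneg n
  have h1 : (0 : ℝ) ≤ 0.963 * n := by positivity
  obtain ⟨u, hu⟩ : ∃ u : ℝ, u = 1 - 2 / p := ⟨_, rfl⟩
  have hu0 : 0 ≤ u := by
    rw [hu, sub_nonneg, div_le_one hp0]
    exact hp
  have hu1 : u < 1 := by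
    rw [hu]
    have : 0 < 2 / p := by positivity
    linarith
  have e : (1 + u) / (1 - u) = p - 1 := by
    rw [hu]
    field_simp
    ring
  have h1' := Const.log_ratio hu0 hu1
  rw [e] at h1'
  have h2 : Real.exp (2 * u) ≤ p - 1 := by
    rw [← Real.exp_log (show 0 < p - 1 by linarith)]
    exact Real.exp_le_exp.2 h1'
  have h3 : (7.389 : ℝ) ≤ Real.exp 2 := by
    have h4 := Real.exp_one_gt_d9
    have h5 : Real.exp 2 = Real.exp 1 * Real.exp 1 := by
      rw [← Real.exp_add]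
      norm_num
    rw [h5]
    nlinarith
  rw [← hu]
  calc B ^ u ≤ (Real.exp 2 * (0.963 * n)) ^ u := by
        refine Real.rpow_le_rpow hB (h.trans ?_) hu0
        nlinarith
    _ = Real.exp (2 * u) * (0.963 * (n : ℝ)) ^ u := by
        rw [Real.mul_rpow (Real.exp_pos _).le h1, ← Real.exp_mul]
    _ ≤ (p - 1) * (0.963 * (n : ℝ)) ^ u := by gcongr
    _ = _ := mul_comm _ _

lemma const_large {n : ℕ} {p B : ℝ} (hp : 2 ≤ p) (hB : 0 ≤ B) (h : B ≤ 0.963 * n * (p - 1)) :
    B ^ (1 - 2 / p) ≤ (0.963 * (n : ℝ)) ^ (1 - 2 / p) * (p - 1) := by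
  have hp0 : 0 < p := by linarith
  have hn : (0 : ℝ) ≤ n := Nat.cast_nonneg n
  have h1 : (0 : ℝ) ≤ 0.963 * n := by positivity
  have hu0 : 0 ≤ 1 - 2 / p := by
    rw [sub_nonneg, div_le_one hp0]
    exact hp
  have hu1 : 1 - 2 / p ≤ 1 := by
    have : 0 < 2 / p := by positivity
    linarith
  calc B ^ (1 - 2 / p) ≤ (0.963 * n * (p - 1)) ^ (1 - 2 / p) := Real.rpow_le_rpow hB h hu0
    _ = (0.963 * (n : ℝ)) ^ (1 - 2 / p) * (p - 1) ^ (1 - 2 / p) :=
        Real.mul_rpow h1 (by linarith)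
    _ ≤ (0.963 * (n : ℝ)) ^ (1 - 2 / p) * (p - 1) ^ (1 : ℝ) := by
        refine mul_le_mul_of_nonneg_left ?_ (by positivity)
        exact Real.rpow_le_rpow_of_exponent_le (by linarith) hu1
    _ = _ := by rw [Real.rpow_one]

lemma full' {n : ℕ} (hn : 1 ≤ n) (hn2 : n ≤ 10 ^ 32) {J : ℕ} (hJ : J ≤ n) {T : Finset ℕ}
    (hT : ∀ j ∈ T, j ≤ J) :
    Real.sqrt T.card + Real.sqrt (AT n T * Real.log (1 + n + J)) ≤ 7.11 * n := by
  have hn1 : (1 : ℝ) ≤ n := by exact_mod_cast hn
  have hJ0 : (0 : ℝ) ≤ J := Nat.cast_nonneg J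
  have hJn : (J : ℝ) ≤ n := by exact_mod_cast hJ
  have hsub : T ⊆ Finset.range (n + 1) :=
    fun j hj => Finset.mem_range.2 (Nat.lt_succ_of_le ((hT j hj).trans hJ))
  have hc : (T.card : ℝ) ≤ n + 1 := by
    have := Finset.card_le_card hsub
    rw [Finset.card_range] at this
    exact_mod_cast this
  have hA : AT n T ≤ 2 / 3 * (n * (n + 1)) := by
    have h2 : AT n T ≤ ∑ j ∈ Finset.range (n + 1), (2 * (n : ℝ) + 8 * j) / 9 := by
      refine (Finset.sum_le_sum fun j _ => ?_).trans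
        (Finset.sum_le_sum_of_subset_of_nonneg hsub fun j _ _ => by positivity)
      unfold AJ
      have hj0 : (0 : ℝ) ≤ j := Nat.cast_nonneg j
      rw [div_le_div_iff₀ (by positivity) (by norm_num)]
      nlinarith [sq_nonneg ((n : ℝ) - 2 * j)]
    have h4 := Finset.sum_range_id_mul_two (n + 1)
    have h5 : ((∑ i ∈ Finset.range (n + 1), i : ℕ) : ℝ) * 2 = ((n + 1 : ℕ) : ℝ) * ((n + 1 - 1 : ℕ) : ℝ) := by
      exact_mod_cast h4
    rw [Nat.add_sub_cancel] at h5
    push_cast at h5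
    rw [← Finset.sum_div, Finset.sum_add_distrib, Finset.sum_const, Finset.card_range,
      ← Finset.mul_sum, nsmul_eq_mul] at h2
    push_cast at h2
    refine h2.trans (le_of_eq ?_)
    linarith
  have hL : Real.log (1 + n + J) ≤ Real.log (1 + 2 * n) :=
    Real.log_le_log (by positivity) (by linarith)
  have hL0 : 0 ≤ Real.log (1 + n + J) := Real.log_nonneg (by linarith)
  have hAL : AT n T * Real.log (1 + n + J) ≤ 2 / 3 * (n * (n + 1)) * Real.log (1 + 2 * n) :=
    mul_le_mul hA hL hL0 (by positivity)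
  rcases lt_or_ge n 1024 with h | h
  · have h1 : (n : ℝ) ≤ 1023 := by
      have : n ≤ 1023 := by omega
      exact_mod_cast this
    have h2 : Real.log (1 + 2 * n) ≤ 11 * Real.log 2 := by
      have e : (11 : ℝ) * Real.log 2 = Real.log (2 ^ 11) := by
        rw [Real.log_pow]
        norm_num
      rw [e]
      refine Real.log_le_log (by positivity) ?_
      norm_num
      linarith
    have h3 := Real.log_two_lt_d9
    have h4 : Real.sqrt T.card ≤ 2 * n := by
      rw [Real.sqrt_le_left (by positivity)]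
      nlinarith
    have h5 : Real.sqrt (AT n T * Real.log (1 + n + J)) ≤ 3.5 * n := by
      rw [Real.sqrt_le_left (by positivity)]
      have h6 : 2 / 3 * ((n : ℝ) * (n + 1)) * Real.log (1 + 2 * n) ≤
          2 / 3 * (n * (n + 1)) * 7.7 := by
        refine mul_le_mul_of_nonneg_left ?_ (by positivity)
        linarith
      nlinarith
    linarith
  · have h1 : (1024 : ℝ) ≤ n := by exact_mod_cast h
    have h2 : (n : ℝ) ≤ 10 ^ 32 := by exact_mod_cast hn2
    have h3 : Real.log (1 + 2 * n) ≤ 74.5 := by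
      rw [Real.log_le_iff_le_exp (by positivity)]
      have h5 : (2.7182818 : ℝ) ^ 149 ≤ Real.exp 74.5 ^ 2 := by
        have h6 : Real.exp 74.5 ^ 2 = Real.exp 1 ^ 149 := by
          rw [← Real.exp_nat_mul, ← Real.exp_nat_mul]
          norm_num
        rw [h6]
        have h7 := Real.exp_one_gt_d9
        gcongr
        linarith
      have h8 : ((1 : ℝ) + 2 * 10 ^ 32) ^ 2 ≤ 2.7182818 ^ 149 := by norm_num
      have h9 : ((1 : ℝ) + 2 * 10 ^ 32) ≤ Real.exp 74.5 :=
        le_of_pow_le_pow_left₀ (by norm_num) (Real.exp_pos _).le (h8.trans h5)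
      linarith
    have h4 : Real.sqrt T.card ≤ 0.0313 * n := by
      rw [Real.sqrt_le_left (by positivity)]
      nlinarith
    have h5 : Real.sqrt (AT n T * Real.log (1 + n + J)) ≤ 7.06 * n := by
      rw [Real.sqrt_le_left (by positivity)]
      have h6 : 2 / 3 * ((n : ℝ) * (n + 1)) * Real.log (1 + 2 * n) ≤
          2 / 3 * (n * (n + 1)) * 74.5 := by
        refine mul_le_mul_of_nonneg_left h3 (by positivity)
      nlinarith
    linarith

lemma window' {n J : ℕ} (hn : 1 ≤ n) {T : Finset ℕ} (hT : ∀ j ∈ T, j ≤ J) :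
    Real.sqrt T.card + Real.sqrt (AT n T * Real.log (1 + n + J)) ≤
      Real.sqrt (J + 1) * (1 + Real.sqrt (2 * n * Real.log (1 + n + J))) := by
  have hJ0 : (0 : ℝ) ≤ J := Nat.cast_nonneg J
  have hn1 : (1 : ℝ) ≤ n := by exact_mod_cast hn
  have hsub : T ⊆ Finset.range (J + 1) := fun j hj => Finset.mem_range.2 (Nat.lt_succ_of_le (hT j hj))
  have hc : (T.card : ℝ) ≤ J + 1 := by
    have := Finset.card_le_card hsub
    rw [Finset.card_range] at this
    exact_mod_cast this
  have h1 : Real.sqrt T.card ≤ Real.sqrt (J + 1) := Real.sqrt_le_sqrt hc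
  have hA : AT n T ≤ (J + 1) * (2 * n) := by
    have h2 : AT n T ≤ ∑ j ∈ T, (2 * (n : ℝ)) := by
      refine Finset.sum_le_sum fun j _ => ?_
      unfold AJ
      have hj0 : (0 : ℝ) ≤ j := Nat.cast_nonneg j
      rw [div_le_iff₀ (by positivity)]
      nlinarith
    rw [Finset.sum_const, nsmul_eq_mul] at h2
    refine h2.trans ?_
    gcongr
  have hL0 : 0 ≤ Real.log (1 + n + J) := Real.log_nonneg (by linarith)
  have h6 : Real.sqrt (AT n T * Real.log (1 + n + J)) ≤
      Real.sqrt (J + 1) * Real.sqrt (2 * n * Real.log (1 + n + J)) := by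
    rw [← Real.sqrt_mul (by positivity)]
    refine Real.sqrt_le_sqrt ?_
    calc AT n T * Real.log (1 + n + J) ≤ (J + 1) * (2 * n) * Real.log (1 + n + J) := by gcongr
      _ = _ := by ring
  linarith

end Pool.Agent.H93W.W10
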