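import Pool.Agent.H93W.Appr
import Pool.Agent.H93W.W1

/-!
Riesz-Thorin for finite families of functions on the half line.
-/

set_option autoImplicit false

open MeasureTheory Set Filter Topology Complex Complex.HadamardThreeLines

namespace Pool.Agent.H93W.W2

open Pool.Agent.H93W.RT

variable {ι : Type*} [Fintype ι]

/-- the function on the strip -/
noncomputable def FV (Λ : (ι → ℝ → ℂ) → (ι → ℝ → ℂ) → ℂ) (U V : ι → ℝ → ℂ) (p q ε : ℝ) (w : ℂ) : ℂ :=
  Λ (fun m => reg (U m) ε ((p * w - 1) / 2)) (fun m => reg (V m) ε ((q * (1 - w) - 1) / 2))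

/-- forms to which the method applies -/
def Good (Λ : (ι → ℝ → ℂ) → (ι → ℝ → ℂ) → ℂ) : Prop :=
  ∀ (U V : ι → ℝ → ℂ), (∀ m, CC (U m)) → (∀ m, CC (V m)) → ∀ p q ε : ℝ, 0 < p → 0 < q → 0 < ε →
    Differentiable ℂ (FV Λ U V p q ε) ∧ ∃ K : ℝ, ∀ w : ℂ, |w.re| ≤ 1 → ‖FV Λ U V p q ε w‖ ≤ K

/-- **Riesz-Thorin for families.** -/
theorem main {Λ : (ι → ℝ → ℂ) → (ι → ℝ → ℂ) → ℂ} {U V : ι → ℝ → ℂ} {p q : ℝ}
    {B : ℝ} (hB : 0 ≤ B) (hk : Good Λ) (hU : ∀ m, CC (U m)) (hV : ∀ m, CC (V m)) (hp : 2 < p)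
    (hpq : 1 / p + 1 / q = 1)
    (H2 : ∀ U V : ι → ℝ → ℂ, (∀ m, CC (U m)) → (∀ m, CC (V m)) →
      ‖Λ U V‖ ≤ (∑ m, ∫ t, ‖U m t‖ ^ 2) ^ (1 / 2 : ℝ) * (∑ m, ∫ t, ‖V m t‖ ^ 2) ^ (1 / 2 : ℝ))
    (H1 : ∀ U V : ι → ℝ → ℂ, (∀ m, CC (U m)) → (∀ m, CC (V m)) → (∀ m t, ‖U m t‖ ≤ 1) →
      ‖Λ U V‖ ≤ B * ∑ m, ∫ t, ‖V m t‖) :
    ‖Λ U V‖ ≤ B ^ (1 - 2 / p) * (∑ m, ∫ t, ‖U m t‖ ^ p) ^ (1 / p) *
      (∑ m, ∫ t, ‖V m t‖ ^ q) ^ (1 / q) := by
  have hp0 : 0 < p := by linarith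
  have hq1 : 1 / q = 1 - 1 / p := by linarith
  have hpi : 1 / p < 1 / 2 := one_div_lt_one_div_of_lt (by norm_num) hp
  have hpi0 : 0 < 1 / p := by positivity
  have hq0 : 0 < q := by
    have : 0 < 1 / q := by rw [hq1]; linarith
    exact one_div_pos.1 this
  have hqa : q * (1 - 1 / p) = 1 := by
    rw [← hq1]
    exact mul_one_div_cancel hq0.ne'
  have hpa : p * (1 / p) = 1 := mul_one_div_cancel hp0.ne'
  choose hUc a b ha hab hU0 using id hU
  choose hVc c d hc hcd hV0 using id hV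
  obtain ⟨PU, hPU⟩ : ∃ PU : ℝ → ℝ, PU = fun ε => ∑ m, NN (U m) (a m) (b m) p ε := ⟨_, rfl⟩
  obtain ⟨PV, hPV⟩ : ∃ PV : ℝ → ℝ, PV = fun ε => ∑ m, NN (V m) (c m) (d m) q ε := ⟨_, rfl⟩
  -- the estimate for fixed `ε`
  have key : ∀ ε : ℝ, 0 < ε → ‖Λ U V‖ ≤ (B * PV ε) ^ (1 - 2 / p) *
      ((PU ε) ^ (1 / 2 : ℝ) * (PV ε) ^ (1 / 2 : ℝ)) ^ (2 / p) := by
    intro ε hε
    obtain ⟨hd, K, hK⟩ := hk U V hU hV p q ε hp0 hq0 hε
    have hF : FV Λ U V p q ε ((1 / p : ℝ) : ℂ) = Λ U V := by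
      unfold FV
      have e1 : ((p : ℂ) * ((1 / p : ℝ) : ℂ) - 1) / 2 = 0 := by
        rw [← Complex.ofReal_mul, hpa]
        simp
      have e2 : ((q : ℂ) * (1 - ((1 / p : ℝ) : ℂ)) - 1) / 2 = 0 := by
        have : (1 - ((1 / p : ℝ) : ℂ)) = ((1 - 1 / p : ℝ) : ℂ) := by push_cast; ring
        rw [this, ← Complex.ofReal_mul, hqa]
        simp
      rw [e1, e2]
      have h1 : (fun m => reg (U m) ε 0) = U := funext fun m => funext fun t => reg_zero (U m) ε t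
      have h2 : (fun m => reg (V m) ε 0) = V := funext fun m => funext fun t => reg_zero (V m) ε t
      rw [h1, h2]
    have h3 := norm_le_interp_of_mem_verticalClosedStrip' (f := FV Λ U V p q ε)
      (z := ((1 / p : ℝ) : ℂ)) (l := 0) (u := 1 / 2) (a := B * PV ε)
      (b := (PU ε) ^ (1 / 2 : ℝ) * (PV ε) ^ (1 / 2 : ℝ))
      (by norm_num) ?_ hd.diffContOnCl ?_ ?_ ?_
    · rw [hF, Complex.ofReal_re, sub_zero, sub_zero] at h3
      have e : 1 / p / (1 / 2) = 2 / p := by ring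
      rw [e] at h3
      exact h3
    · simp only [verticalClosedStrip, mem_preimage, Complex.ofReal_re, mem_Icc]
      exact ⟨hpi0.le, hpi.le⟩
    · refine ⟨K, ?_⟩
      rintro _ ⟨w, hw, rfl⟩
      simp only [verticalClosedStrip, mem_preimage, mem_Icc] at hw
      refine hK w ?_
      rw [abs_le]
      constructor <;> linarith [hw.1, hw.2]
    · intro w hw
      have hw0 : w.re = 0 := hw
      have hb1 : ∀ m t, ‖reg (U m) ε ((p * w - 1) / 2) t‖ ≤ 1 := by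
        intro m t
        rw [norm_reg (U m) hε]
        have e : (((p : ℂ) * w - 1) / 2).re = -1 / 2 := by
          simp [hw0]
        have hx : 0 < ‖U m t‖ ^ 2 + ε ^ 2 := by positivity
        rw [e]
        have h4 : ‖U m t‖ ≤ (‖U m t‖ ^ 2 + ε ^ 2) ^ (1 / 2 : ℝ) := by
          rw [← Real.sqrt_eq_rpow]
          exact Real.le_sqrt_of_sq_le (by nlinarith [sq_nonneg ε])
        calc ‖U m t‖ * (‖U m t‖ ^ 2 + ε ^ 2) ^ (-1 / 2 : ℝ) ≤
            (‖U m t‖ ^ 2 + ε ^ 2) ^ (1 / 2 : ℝ) * (‖U m t‖ ^ 2 + ε ^ 2) ^ (-1 / 2 : ℝ) := by gcongr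
          _ = 1 := by
            rw [← Real.rpow_add hx]
            norm_num
      refine (H1 _ _ (fun m => (hU m).reg hε _) (fun m => (hV m).reg hε _) hb1).trans ?_
      refine mul_le_mul_of_nonneg_left ?_ hB
      rw [hPV]
      refine Finset.sum_le_sum fun m _ => ?_
      refine le_NN (hVc m) (hcd m) (hV0 m) hε _ (fun _ => norm_nonneg _) (fun t => ?_) fun t ht => ?_
      · rw [norm_reg (V m) hε]
        have e : (((q : ℂ) * (1 - w) - 1) / 2).re = (q - 1) / 2 := by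
          simp [hw0]
        have hx : 0 < ‖V m t‖ ^ 2 + ε ^ 2 := by positivity
        rw [e]
        have h4 : ‖V m t‖ ≤ (‖V m t‖ ^ 2 + ε ^ 2) ^ (1 / 2 : ℝ) := by
          rw [← Real.sqrt_eq_rpow]
          exact Real.le_sqrt_of_sq_le (by nlinarith [sq_nonneg ε])
        calc ‖V m t‖ * (‖V m t‖ ^ 2 + ε ^ 2) ^ ((q - 1) / 2) ≤
            (‖V m t‖ ^ 2 + ε ^ 2) ^ (1 / 2 : ℝ) * (‖V m t‖ ^ 2 + ε ^ 2) ^ ((q - 1) / 2) := by gcongr
          _ = (‖V m t‖ ^ 2 + ε ^ 2) ^ (q / 2) := by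
            rw [← Real.rpow_add hx]
            congr 1
            ring
      · simp [reg, ht]
    · intro w hw
      have hw0 : w.re = 1 / 2 := hw
      refine (H2 _ _ (fun m => (hU m).reg hε _) (fun m => (hV m).reg hε _)).trans ?_
      have hsq : ∀ x e : ℝ, 0 ≤ x → x ^ 2 * (x ^ 2 + ε ^ 2) ^ (e - 1) ≤ (x ^ 2 + ε ^ 2) ^ e := by
        intro x e hx
        have h5 : 0 < x ^ 2 + ε ^ 2 := by positivity
        calc x ^ 2 * (x ^ 2 + ε ^ 2) ^ (e - 1) ≤ (x ^ 2 + ε ^ 2) * (x ^ 2 + ε ^ 2) ^ (e - 1) := by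
              gcongr
              nlinarith [sq_nonneg ε]
          _ = (x ^ 2 + ε ^ 2) ^ e := by
              nth_rewrite 1 [← Real.rpow_one (x ^ 2 + ε ^ 2)]
              rw [← Real.rpow_add h5]
              congr 1
              ring
      have hpow : ∀ X c : ℝ, 0 < X → (X ^ c) ^ 2 = X ^ (2 * c) := by
        intro X c hX
        rw [← Real.rpow_natCast, ← Real.rpow_mul hX.le]
        congr 1
        push_cast
        ring
      have g1 : ∑ m, ∫ t, ‖reg (U m) ε ((p * w - 1) / 2) t‖ ^ 2 ≤ PU ε := by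
        rw [hPU]
        refine Finset.sum_le_sum fun m _ => ?_
        refine le_NN (hUc m) (hab m) (hU0 m) hε _ (fun _ => by positivity) (fun t => ?_) fun t ht => ?_
        · rw [norm_reg (U m) hε, mul_pow]
          have hx : 0 < ‖U m t‖ ^ 2 + ε ^ 2 := by positivity
          rw [hpow _ _ hx]
          have e : 2 * (((p : ℂ) * w - 1) / 2).re = p / 2 - 1 := by
            simp [hw0]
            ring
          rw [e]
          exact hsq _ _ (norm_nonneg _)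
        · simp [reg, ht]
      have g2 : ∑ m, ∫ t, ‖reg (V m) ε ((q * (1 - w) - 1) / 2) t‖ ^ 2 ≤ PV ε := by
        rw [hPV]
        refine Finset.sum_le_sum fun m _ => ?_
        refine le_NN (hVc m) (hcd m) (hV0 m) hε _ (fun _ => by positivity) (fun t => ?_) fun t ht => ?_
        · rw [norm_reg (V m) hε, mul_pow]
          have hx : 0 < ‖V m t‖ ^ 2 + ε ^ 2 := by positivity
          rw [hpow _ _ hx]
          have e : 2 * (((q : ℂ) * (1 - w) - 1) / 2).re = q / 2 - 1 := by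
            simp [hw0]
            ring
          rw [e]
          exact hsq _ _ (norm_nonneg _)
        · simp [reg, ht]
      have n1 : 0 ≤ ∑ m, ∫ t, ‖reg (U m) ε ((p * w - 1) / 2) t‖ ^ 2 :=
        Finset.sum_nonneg fun m _ => integral_nonneg fun t => by positivity
      have n2 : 0 ≤ ∑ m, ∫ t, ‖reg (V m) ε ((q * (1 - w) - 1) / 2) t‖ ^ 2 :=
        Finset.sum_nonneg fun m _ => integral_nonneg fun t => by positivity
      exact mul_le_mul (Real.rpow_le_rpow n1 g1 (by norm_num))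
        (Real.rpow_le_rpow n2 g2 (by norm_num)) (Real.rpow_nonneg n2 _)
        (Real.rpow_nonneg (n1.trans g1) _)
  -- the limit `ε → 0`
  have hcont : Continuous fun ε => (B * PV ε) ^ (1 - 2 / p) *
      ((PU ε) ^ (1 / 2 : ℝ) * (PV ε) ^ (1 / 2 : ℝ)) ^ (2 / p) := by
    have c1 : Continuous PU := by
      rw [hPU]
      exact continuous_finsetSum _ fun m _ => NN_cont (hUc m) (a m) (b m) hp0
    have c2 : Continuous PV := by
      rw [hPV]
      exact continuous_finsetSum _ fun m _ => NN_cont (hVc m) (c m) (d m) hq0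
    have h2p : 0 ≤ 1 - 2 / p := by
      have : 2 / p = 2 * (1 / p) := by ring
      rw [this]; linarith
    have h2q : 0 ≤ 2 / p := by positivity
    refine ((continuous_const.mul c2).rpow_const fun _ => Or.inr h2p).mul ?_
    refine Continuous.rpow_const ?_ fun _ => Or.inr h2q
    exact (c1.rpow_const fun _ => Or.inr (by norm_num)).mul
      (c2.rpow_const fun _ => Or.inr (by norm_num))
  have hlim := (hcont.tendsto 0).mono_left (nhdsWithin_le_nhds (s := Ioi (0 : ℝ)))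
  have h6 := ge_of_tendsto hlim (by
    filter_upwards [self_mem_nhdsWithin] with ε hε
    exact key ε hε)
  have z1 : PU 0 = ∑ m, ∫ t, ‖U m t‖ ^ p := by
    rw [hPU]
    exact Finset.sum_congr rfl fun m _ => NN_zero (hab m) (hU0 m) hp0
  have z2 : PV 0 = ∑ m, ∫ t, ‖V m t‖ ^ q := by
    rw [hPV]
    exact Finset.sum_congr rfl fun m _ => NN_zero (hcd m) (hV0 m) hq0
  rw [z1, z2] at h6
  refine h6.trans (le_of_eq ?_)
  obtain ⟨X, hX⟩ : ∃ X, X = ∑ m, ∫ t, ‖U m t‖ ^ p := ⟨_, rfl⟩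
  obtain ⟨Y, hY⟩ : ∃ Y, Y = ∑ m, ∫ t, ‖V m t‖ ^ q := ⟨_, rfl⟩
  have hX0 : 0 ≤ X := by
    rw [hX]
    exact Finset.sum_nonneg fun m _ => integral_nonneg fun t => by positivity
  have hY0 : 0 ≤ Y := by
    rw [hY]
    exact Finset.sum_nonneg fun m _ => integral_nonneg fun t => by positivity
  rw [← hX, ← hY]
  rw [Real.mul_rpow hB hY0, Real.mul_rpow (by positivity) (by positivity), ← Real.rpow_mul hX0,
    ← Real.rpow_mul hY0]
  have e1 : (1 / 2 : ℝ) * (2 / p) = 1 / p := by ring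
  rw [e1]
  have e2 : Y ^ (1 - 2 / p) * Y ^ (1 / p) = Y ^ (1 / q) := by
    rw [hq1, ← Real.rpow_add' hY0]
    · congr 1; ring
    · have : 1 - 2 / p + 1 / p = 1 - 1 / p := by ring
      rw [this]
      linarith
  calc B ^ (1 - 2 / p) * Y ^ (1 - 2 / p) * (X ^ (1 / p) * Y ^ (1 / p)) =
      B ^ (1 - 2 / p) * X ^ (1 / p) * (Y ^ (1 - 2 / p) * Y ^ (1 / p)) := by ring
    _ = _ := by rw [e2]

end Pool.Agent.H93W.W2
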