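import Pool.Agent.H93W.W2

/-!
The form for several classes at equally spaced angles.
-/

set_option autoImplicit false

open MeasureTheory Set Filter Topology
open scoped ENNReal

namespace Pool.Agent.H93W.W3

open Pool.Agent.H93W.RT Pool.Agent.H93W.Kern Pool.Agent.H93W.Op Pool.Agent.H93W.W1
open Pool.Agent.H93W.W2

variable {ι : Type*} [Fintype ι]

/-! ### closure properties -/

lemma CC.zero : CC (fun _ => 0) := ⟨continuous_const, 1, 2, one_pos, by norm_num, fun _ _ => rfl⟩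

lemma CC.add {U V : ℝ → ℂ} (hU : CC U) (hV : CC V) : CC (fun t => U t + V t) := by
  obtain ⟨hUc, a, b, ha, hab, hU0⟩ := hU
  obtain ⟨hVc, c, d, hc, hcd, hV0⟩ := hV
  refine ⟨hUc.add hVc, min a c, max b d, lt_min ha hc,
    lt_of_le_of_lt (min_le_left a c) (lt_of_lt_of_le hab (le_max_left b d)), fun t ht => ?_⟩
  have h1 : t ∉ Icc a b := fun h => ht ⟨(min_le_left _ _).trans h.1, h.2.trans (le_max_left _ _)⟩
  have h2 : t ∉ Icc c d := fun h => ht ⟨(min_le_right _ _).trans h.1, h.2.trans (le_max_right _ _)⟩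
  simp only [hU0 t h1, hV0 t h2, add_zero]

lemma CC.cmul {U : ℝ → ℂ} (hU : CC U) (a : ℂ) : CC (fun t => a * U t) := by
  obtain ⟨hUc, c, d, hc, hcd, hU0⟩ := hU
  exact ⟨continuous_const.mul hUc, c, d, hc, hcd, fun t ht => by simp only [hU0 t ht, mul_zero]⟩

lemma CC.sum {κ : Type*} {U : κ → ℝ → ℂ} (hU : ∀ m, CC (U m)) (a : κ → ℂ) (s : Finset κ) :
    CC (fun t => ∑ m ∈ s, a m * U m t) := by
  classical
  induction s using Finset.induction_on with
  | empty => simpa using CC.zero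
  | insert i s hi ih =>
    simp_rw [Finset.sum_insert hi]
    exact CC.add (CC.cmul (hU i) _) ih

lemma Lam_lin {k : ℝ × ℝ → ℂ} (hk : Loc k) {U V : ι → ℝ → ℂ} (hU : ∀ m, CC (U m))
    (hV : ∀ m, CC (V m)) (a b : ι → ℂ) :
    Lam k (fun t => ∑ m, a m * U m t) (fun t => ∑ m, b m * V m t) =
      ∑ m, ∑ m', a m * b m' * Lam k (U m) (V m') := by
  unfold RT.Lam
  have e1 : ∀ t s, (∑ m, a m * U m t) * (∑ m, b m * V m s) =
      ∑ m, ∑ m', (a m * b m') * (U m t * V m' s) := by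
    intro t s
    rw [Finset.sum_mul_sum]
    exact Finset.sum_congr rfl fun m _ => Finset.sum_congr rfl fun m' _ => by ring
  have h1 : ∫ t, (∑ m, a m * U m t) * (∑ m, b m * V m t) =
      ∑ m, ∑ m', (a m * b m') * ∫ t, U m t * V m' t := by
    simp_rw [e1]
    rw [integral_finsetSum]
    · refine Finset.sum_congr rfl fun m _ => ?_
      rw [integral_finsetSum]
      · refine Finset.sum_congr rfl fun m' _ => ?_
        rw [integral_const_mul]
      · exact fun m' _ => (int1 (hU m) (hV m')).const_mul _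
    · exact fun m _ => integrable_finsetSum _ fun m' _ => (int1 (hU m) (hV m')).const_mul _
  have h2 : ∫ q : ℝ × ℝ, k q * ((∑ m, a m * U m q.1) * (∑ m, b m * V m q.2)) =
      ∑ m, ∑ m', (a m * b m') * ∫ q : ℝ × ℝ, k q * (U m q.1 * V m' q.2) := by
    have e2 : ∀ q : ℝ × ℝ, k q * ((∑ m, a m * U m q.1) * (∑ m, b m * V m q.2)) =
        ∑ m, ∑ m', (a m * b m') * (k q * (U m q.1 * V m' q.2)) := by
      intro q
      rw [e1, Finset.mul_sum]
      refine Finset.sum_congr rfl fun m _ => ?_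
      rw [Finset.mul_sum]
      exact Finset.sum_congr rfl fun m' _ => by ring
    simp_rw [e2]
    rw [integral_finsetSum]
    · refine Finset.sum_congr rfl fun m _ => ?_
      rw [integral_finsetSum]
      · refine Finset.sum_congr rfl fun m' _ => ?_
        rw [integral_const_mul]
      · exact fun m' _ => (int2 hk (hU m) (hV m')).const_mul _
    · exact fun m _ => integrable_finsetSum _ fun m' _ => (int2 hk (hU m) (hV m')).const_mul _
  rw [h1, h2, ← Finset.sum_add_distrib]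
  refine Finset.sum_congr rfl fun m _ => ?_
  rw [← Finset.sum_add_distrib]
  exact Finset.sum_congr rfl fun m' _ => by ring

/-! ### orthogonal characters -/

/-- orthogonal unimodular families -/
structure Orth (T : Finset ℕ) (c : ℕ → ι → ℂ) : Prop where
  unit : ∀ j m, ‖c j m‖ = 1
  orth : ∀ j ∈ T, ∀ j' ∈ T, j ≠ j' → ∑ m, c j m * starRingEnd ℂ (c j' m) = 0

lemma Orth.conj {T : Finset ℕ} {c : ℕ → ι → ℂ} (h : Orth T c) :
    Orth T (fun j m => starRingEnd ℂ (c j m)) := by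
  refine ⟨fun j m => by rw [RCLike.norm_conj, h.unit], fun j hj j' hj' hne => ?_⟩
  have h1 := h.orth j hj j' hj' hne
  have h2 := congrArg (starRingEnd ℂ) h1
  rw [map_sum, map_zero] at h2
  rw [← h2]
  exact Finset.sum_congr rfl fun m _ => by rw [map_mul]

lemma bessel [Nonempty ι] {T : Finset ℕ} {c : ℕ → ι → ℂ} (h : Orth T c) (x : ι → ℂ) :
    ∑ j ∈ T, ‖∑ m, c j m * x m‖ ^ 2 ≤ (Fintype.card ι : ℝ) * ∑ m, ‖x m‖ ^ 2 := by
  classical
  have hM : (0 : ℝ) < Fintype.card ι := by exact_mod_cast Fintype.card_pos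
  have hMc : (Fintype.card ι : ℂ) ≠ 0 := by exact_mod_cast hM.ne'
  obtain ⟨v, hv⟩ : ∃ v : T → EuclideanSpace ℂ ι, v = fun j : T => WithLp.toLp 2
    (fun m => starRingEnd ℂ (c j.1 m) / (Real.sqrt (Fintype.card ι) : ℂ)) := ⟨_, rfl⟩
  have hsq : (Real.sqrt (Fintype.card ι) : ℂ) * (Real.sqrt (Fintype.card ι) : ℂ) =
      (Fintype.card ι : ℂ) := by
    rw [← Complex.ofReal_mul, Real.mul_self_sqrt hM.le]
    simp
  have hin : ∀ (j : T) (y : EuclideanSpace ℂ ι), inner ℂ (v j) y =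
      (∑ m, c j m * y m) / (Real.sqrt (Fintype.card ι) : ℂ) := by
    intro j y
    rw [PiLp.inner_apply, Finset.sum_div]
    refine Finset.sum_congr rfl fun m _ => ?_
    rw [hv]
    simp only [RCLike.inner_apply, map_div₀, Complex.conj_conj, Complex.conj_ofReal]
    ring
  have hon : Orthonormal ℂ v := by
    rw [orthonormal_iff_ite]
    intro j j'
    rw [hin]
    have e1 : ∀ m, v j' m = starRingEnd ℂ (c j' m) / (Real.sqrt (Fintype.card ι) : ℂ) := by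
      intro m
      rw [hv]
    simp_rw [e1]
    have e2 : (∑ m, c j m * (starRingEnd ℂ (c j' m) / (Real.sqrt (Fintype.card ι) : ℂ))) /
        (Real.sqrt (Fintype.card ι) : ℂ) =
        (∑ m, c j m * starRingEnd ℂ (c j' m)) / (Fintype.card ι : ℂ) := by
      rw [← hsq, ← div_div]
      congr 1
      rw [Finset.sum_div]
      exact Finset.sum_congr rfl fun m _ => by ring
    rw [e2]
    split_ifs with hjj
    · subst hjj
      have e3 : ∀ m, c j m * starRingEnd ℂ (c j m) = 1 := by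
        intro m
        rw [Complex.mul_conj, Complex.normSq_eq_norm_sq, h.unit]
        simp
      simp_rw [e3]
      rw [Finset.sum_const, nsmul_eq_mul, mul_one, Finset.card_univ]
      exact div_self hMc
    · rw [h.orth j j.2 j' j'.2 (fun h => hjj (Subtype.ext h)), zero_div]
  have hb := hon.sum_inner_products_le (x := (WithLp.toLp 2 x : EuclideanSpace ℂ ι))
    (s := Finset.univ)
  simp_rw [hin] at hb
  rw [EuclideanSpace.norm_sq_eq] at hb
  have e4 : ∀ j : T, ‖(∑ m, c j m * (WithLp.toLp 2 x : EuclideanSpace ℂ ι) m) /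
      (Real.sqrt (Fintype.card ι) : ℂ)‖ ^ 2 = ‖∑ m, c j m * x m‖ ^ 2 / (Fintype.card ι : ℝ) := by
    intro j
    rw [norm_div, div_pow, Complex.norm_real, Real.norm_of_nonneg (Real.sqrt_nonneg _),
      Real.sq_sqrt hM.le]
  simp_rw [e4] at hb
  rw [← Finset.sum_div, div_le_iff₀ hM] at hb
  have e5 : ∑ j : T, ‖∑ m, c j m * x m‖ ^ 2 = ∑ j ∈ T, ‖∑ m, c j m * x m‖ ^ 2 :=
    Finset.sum_coe_sort T (fun j => ‖∑ m, c j m * x m‖ ^ 2)
  rw [e5] at hb
  rw [mul_comm]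
  exact hb

/-- analysis -/
noncomputable def hat (c : ℕ → ι → ℂ) (U : ι → ℝ → ℂ) (j : ℕ) (t : ℝ) : ℂ :=
  ∑ m, (c j m / (Fintype.card ι : ℂ)) * U m t

/-- dual analysis -/
noncomputable def chk (c : ℕ → ι → ℂ) (V : ι → ℝ → ℂ) (j : ℕ) (t : ℝ) : ℂ :=
  ∑ m, starRingEnd ℂ (c j m) * V m t

/-- the form -/
noncomputable def LL (n : ℕ) (T : Finset ℕ) (c : ℕ → ι → ℂ) (U V : ι → ℝ → ℂ) : ℂ :=
  ∑ j ∈ T, Lam (Op.ker n j) (hat c U j) (chk c V j)

lemma hat_cc (c : ℕ → ι → ℂ) {U : ι → ℝ → ℂ} (hU : ∀ m, CC (U m)) (j : ℕ) : CC (hat c U j) :=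
  CC.sum hU _ _

lemma chk_cc (c : ℕ → ι → ℂ) {V : ι → ℝ → ℂ} (hV : ∀ m, CC (V m)) (j : ℕ) : CC (chk c V j) :=
  CC.sum hV _ _

lemma good {n : ℕ} (hn : 1 ≤ n) (T : Finset ℕ) (c : ℕ → ι → ℂ) : Good (LL n T c) := by
  intro U V hU hV p q ε hp hq hε
  have e : FV (LL n T c) U V p q ε = fun w => ∑ j ∈ T, ∑ m, ∑ m',
      (c j m / (Fintype.card ι : ℂ)) * starRingEnd ℂ (c j m') *
        FF (Op.ker n j) (U m) (V m') p q ε w := by
    funext w
    unfold FV LL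
    refine Finset.sum_congr rfl fun j _ => ?_
    exact Lam_lin (ker_loc hn j) (fun m => (hU m).reg hε _) (fun m => (hV m).reg hε _) _ _
  have h1 := fun (j : ℕ) (m m' : ι) => FF_props (p := p) (q := q) (ker_loc hn j) (hU m) (hV m') hp hq hε
  choose hd K hK using h1
  rw [e]
  constructor
  · refine Differentiable.fun_sum fun j _ => Differentiable.fun_sum fun m _ =>
      Differentiable.fun_sum fun m' _ => ?_
    exact (hd j m m').const_mul _
  · refine ⟨∑ j ∈ T, ∑ m, ∑ m', ‖(c j m / (Fintype.card ι : ℂ)) * starRingEnd ℂ (c j m')‖ *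
      K j m m', fun w hw => ?_⟩
    refine (norm_sum_le _ _).trans (Finset.sum_le_sum fun j _ => ?_)
    refine (norm_sum_le _ _).trans (Finset.sum_le_sum fun m _ => ?_)
    refine (norm_sum_le _ _).trans (Finset.sum_le_sum fun m' _ => ?_)
    rw [norm_mul]
    exact mul_le_mul_of_nonneg_left (hK j m m' w hw) (norm_nonneg _)

lemma hat_sq [Nonempty ι] {T : Finset ℕ} {c : ℕ → ι → ℂ} (h : Orth T c) (U : ι → ℝ → ℂ) (t : ℝ) :
    ∑ j ∈ T, ‖hat c U j t‖ ^ 2 ≤ 1 / (Fintype.card ι : ℝ) * ∑ m, ‖U m t‖ ^ 2 := by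
  have hM : (0 : ℝ) < Fintype.card ι := by exact_mod_cast Fintype.card_pos
  have h1 := bessel h (fun m => U m t)
  have e : ∀ j, ‖hat c U j t‖ ^ 2 = 1 / (Fintype.card ι : ℝ) ^ 2 * ‖∑ m, c j m * U m t‖ ^ 2 := by
    intro j
    have e1 : hat c U j t = (∑ m, c j m * U m t) / (Fintype.card ι : ℂ) := by
      unfold hat
      rw [Finset.sum_div]
      exact Finset.sum_congr rfl fun m _ => by ring
    rw [e1, norm_div, div_pow]
    have e2 : ‖(Fintype.card ι : ℂ)‖ = (Fintype.card ι : ℝ) := by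
      rw [Complex.norm_natCast]
    rw [e2]
    ring
  simp_rw [e]
  rw [← Finset.mul_sum]
  calc 1 / (Fintype.card ι : ℝ) ^ 2 * ∑ j ∈ T, ‖∑ m, c j m * U m t‖ ^ 2 ≤
      1 / (Fintype.card ι : ℝ) ^ 2 * ((Fintype.card ι : ℝ) * ∑ m, ‖U m t‖ ^ 2) :=
        mul_le_mul_of_nonneg_left h1 (by positivity)
    _ = _ := by field_simp

lemma chk_sq [Nonempty ι] {T : Finset ℕ} {c : ℕ → ι → ℂ} (h : Orth T c) (V : ι → ℝ → ℂ) (t : ℝ) :
    ∑ j ∈ T, ‖chk c V j t‖ ^ 2 ≤ (Fintype.card ι : ℝ) * ∑ m, ‖V m t‖ ^ 2 :=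
  bessel h.conj (fun m => V m t)

lemma sq_int {U : ℝ → ℂ} (hU : CC U) : Integrable (fun t => ‖U t‖ ^ 2) := by
  refine (hU.1.norm.pow 2).integrable_of_hasCompactSupport ?_
  obtain ⟨_, a, b, _, _, h⟩ := hU
  refine HasCompactSupport.intro (isCompact_Icc (a := a) (b := b)) fun t ht => ?_
  simp [h t ht]

lemma n_int {U : ℝ → ℂ} (hU : CC U) : Integrable (fun t => ‖U t‖) :=
  (hU.1.integrable_of_hasCompactSupport hU.hcs).norm

theorem H2 [Nonempty ι] {n : ℕ} (hn : 1 ≤ n) {T : Finset ℕ} {c : ℕ → ι → ℂ} (h : Orth T c)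
    {U V : ι → ℝ → ℂ} (hU : ∀ m, CC (U m)) (hV : ∀ m, CC (V m)) :
    ‖LL n T c U V‖ ≤ (∑ m, ∫ t, ‖U m t‖ ^ 2) ^ (1 / 2 : ℝ) * (∑ m, ∫ t, ‖V m t‖ ^ 2) ^ (1 / 2 : ℝ) := by
  have hM : (0 : ℝ) < Fintype.card ι := by exact_mod_cast Fintype.card_pos
  have h1 : ∑ j ∈ T, ∫ t, ‖hat c U j t‖ ^ 2 ≤ 1 / (Fintype.card ι : ℝ) * ∑ m, ∫ t, ‖U m t‖ ^ 2 := by
    rw [← integral_finsetSum _ fun j _ => sq_int (hat_cc c hU j),
      ← integral_finsetSum _ fun m _ => sq_int (hU m), ← integral_const_mul]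
    refine integral_mono (integrable_finsetSum _ fun j _ => sq_int (hat_cc c hU j))
      ((integrable_finsetSum _ fun m _ => sq_int (hU m)).const_mul _) fun t => ?_
    exact hat_sq h U t
  have h2 : ∑ j ∈ T, ∫ t, ‖chk c V j t‖ ^ 2 ≤ (Fintype.card ι : ℝ) * ∑ m, ∫ t, ‖V m t‖ ^ 2 := by
    rw [← integral_finsetSum _ fun j _ => sq_int (chk_cc c hV j),
      ← integral_finsetSum _ fun m _ => sq_int (hV m), ← integral_const_mul]
    refine integral_mono (integrable_finsetSum _ fun j _ => sq_int (chk_cc c hV j))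
      ((integrable_finsetSum _ fun m _ => sq_int (hV m)).const_mul _) fun t => ?_
    exact chk_sq h V t
  have n1 : ∀ (W : ℕ → ℝ → ℂ) j, 0 ≤ ∫ t, ‖W j t‖ ^ 2 := fun W j => integral_nonneg fun t => by positivity
  have n2 : ∀ (W : ι → ℝ → ℂ), 0 ≤ ∑ m, ∫ t, ‖W m t‖ ^ 2 := fun W =>
    Finset.sum_nonneg fun m _ => integral_nonneg fun t => by positivity
  calc ‖LL n T c U V‖ ≤ ∑ j ∈ T, ‖Lam (Op.ker n j) (hat c U j) (chk c V j)‖ := norm_sum_le _ _
    _ ≤ ∑ j ∈ T, Real.sqrt (∫ t, ‖hat c U j t‖ ^ 2) * Real.sqrt (∫ t, ‖chk c V j t‖ ^ 2) := by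
        refine Finset.sum_le_sum fun j _ => ?_
        rw [Real.sqrt_eq_rpow, Real.sqrt_eq_rpow]
        exact Appr.H2 hn (hat_cc c hU j) (chk_cc c hV j)
    _ ≤ Real.sqrt (∑ j ∈ T, Real.sqrt (∫ t, ‖hat c U j t‖ ^ 2) ^ 2) *
        Real.sqrt (∑ j ∈ T, Real.sqrt (∫ t, ‖chk c V j t‖ ^ 2) ^ 2) :=
        Real.sum_mul_le_sqrt_mul_sqrt _ _ _
    _ = Real.sqrt (∑ j ∈ T, ∫ t, ‖hat c U j t‖ ^ 2) * Real.sqrt (∑ j ∈ T, ∫ t, ‖chk c V j t‖ ^ 2) := by
        congr 2 <;> exact Finset.sum_congr rfl fun j _ => Real.sq_sqrt (n1 _ j)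
    _ ≤ Real.sqrt (1 / (Fintype.card ι : ℝ) * ∑ m, ∫ t, ‖U m t‖ ^ 2) *
        Real.sqrt ((Fintype.card ι : ℝ) * ∑ m, ∫ t, ‖V m t‖ ^ 2) := by
        gcongr
    _ = Real.sqrt (∑ m, ∫ t, ‖U m t‖ ^ 2) * Real.sqrt (∑ m, ∫ t, ‖V m t‖ ^ 2) := by
        rw [← Real.sqrt_mul (by have := n2 U; positivity), ← Real.sqrt_mul (n2 U)]
        congr 1
        field_simp
    _ = _ := by rw [Real.sqrt_eq_rpow, Real.sqrt_eq_rpow]

end Pool.Agent.H93W.W3
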