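import Pool.Agent.H93W.W3

/-!
The bound between bounded functions for several classes.
-/

set_option autoImplicit false

open MeasureTheory Set Filter Topology
open scoped ENNReal

namespace Pool.Agent.H93W.W4

open Pool.Agent.H93W.RT Pool.Agent.H93W.Kern Pool.Agent.H93W.Op Pool.Agent.H93W.W1
open Pool.Agent.H93W.W2 Pool.Agent.H93W.W3

variable {ι : Type*} [Fintype ι]

/-- the kernel `G(t/s)/s` -/
noncomputable def KG (G : ℝ → ℝ) (q : ℝ × ℝ) : ℝ :=
  if 0 < q.1 ∧ q.1 < q.2 then G (q.1 / q.2) / q.2 else 0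

lemma KG_meas {G : ℝ → ℝ} (hG : Measurable G) : Measurable (KG G) := by
  unfold KG
  refine Measurable.ite ?_ ?_ measurable_const
  · exact (measurableSet_lt measurable_const measurable_fst).inter
      (measurableSet_lt measurable_fst measurable_snd)
  · exact (hG.comp (measurable_fst.div measurable_snd)).div measurable_snd

lemma KG_int {G : ℝ → ℝ} (hG0 : ∀ x, 0 ≤ G x) (hGi : IntervalIntegrable G volume 0 1) (s : ℝ) :
    ∫⁻ t, ENNReal.ofReal (KG G (t, s)) ≤ ENNReal.ofReal (∫ x in (0 : ℝ)..1, G x) := by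
  rcases le_or_gt s 0 with hs | hs
  · have h0 : ∀ t, KG G (t, s) = 0 := by
      intro t
      unfold KG
      rw [if_neg]
      rintro ⟨h1, h2⟩
      simp only at h1 h2
      linarith
    simp [h0]
  · have e1 : (fun t => ENNReal.ofReal (KG G (t, s))) =
        (Ioo 0 s).indicator (fun t => ENNReal.ofReal (G (1 / s * t) / s)) := by
      funext t
      unfold KG
      simp only
      by_cases ht : t ∈ Ioo 0 s
      · rw [indicator_of_mem ht, if_pos ⟨ht.1, ht.2⟩]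
        congr 3
        ring
      · rw [indicator_of_notMem ht, if_neg]
        · simp
        · exact fun h => ht ⟨h.1, h.2⟩
    have hs1 : (0 : ℝ) < 1 / s := by positivity
    have i0 : IntervalIntegrable (fun x => G (1 / s * x) / s) volume 0 s := by
      have h1 := hGi.comp_mul_left (c := 1 / s)
      rw [zero_div, one_div_one_div] at h1
      exact h1.div_const s
    have i1 : ∫ t in (0 : ℝ)..s, G (1 / s * t) / s = ∫ x in (0 : ℝ)..1, G x := by
      rw [intervalIntegral.integral_div]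
      have h2 := intervalIntegral.integral_comp_mul_left (a := (0 : ℝ)) (b := s)
        (fun x => G x) hs1.ne'
      rw [h2, mul_zero, one_div_mul_cancel hs.ne', one_div, inv_inv, smul_eq_mul]
      field_simp
    rw [e1, lintegral_indicator measurableSet_Ioo, ← i1,
      intervalIntegral.integral_of_le hs.le, integral_Ioc_eq_integral_Ioo,
      ofReal_integral_eq_lintegral_ofReal]
    · rw [intervalIntegrable_iff_integrableOn_Ioc_of_le hs.le] at i0
      exact i0.mono_set Ioo_subset_Ioc_self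
    · exact Eventually.of_forall fun t => div_nonneg (hG0 _) hs.le

lemma KG_two {G : ℝ → ℝ} (hG : Measurable G) (hG0 : ∀ x, 0 ≤ G x)
    (hGi : IntervalIntegrable G volume 0 1) (F : ℝ → ℝ≥0∞) (hF : Measurable F) :
    ∫⁻ q : ℝ × ℝ, ENNReal.ofReal (KG G q) * F q.2 ≤
      ENNReal.ofReal (∫ x in (0 : ℝ)..1, G x) * ∫⁻ s, F s := by
  rw [Measure.volume_eq_prod, lintegral_prod_symm]
  · rw [← lintegral_const_mul _ hF]
    refine lintegral_mono fun s => ?_
    simp only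
    rw [lintegral_mul_const]
    · exact mul_le_mul_left (KG_int hG0 hGi s) _
    · exact ((KG_meas hG).comp (measurable_id.prodMk measurable_const)).ennreal_ofReal
  · exact (((KG_meas hG).ennreal_ofReal).mul (hF.comp measurable_snd)).aemeasurable

lemma sqrt_ker (n : ℕ) (T : Finset ℕ) (q : ℝ × ℝ) :
    Real.sqrt (∑ j ∈ T, ‖Op.ker n j q‖ ^ 2) = KG (GT n T) q := by
  unfold KG
  split_ifs with h
  · have h2 : 0 < q.2 := h.1.trans h.2
    have e : ∀ j, ‖Op.ker n j q‖ ^ 2 = kap n j (q.1 / q.2) ^ 2 / q.2 ^ 2 := by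
      intro j
      unfold Op.ker
      rw [if_pos h, Complex.norm_real, Real.norm_eq_abs, sq_abs, div_pow]
    simp_rw [e]
    rw [← Finset.sum_div, Real.sqrt_div (Finset.sum_nonneg fun j _ => sq_nonneg _),
      Real.sqrt_sq h2.le]
    rfl
  · have e : ∀ j, ‖Op.ker n j q‖ ^ 2 = 0 := by
      intro j
      unfold Op.ker
      rw [if_neg h]
      simp
    simp [e]

lemma pt [Nonempty ι] {T : Finset ℕ} {c : ℕ → ι → ℂ} (h : Orth T c) {U V : ι → ℝ → ℂ}
    (hm : ∀ m t, ‖U m t‖ ≤ 1) (k : ℕ → ℂ) (t s : ℝ) :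
    ‖∑ j ∈ T, k j * (hat c U j t * chk c V j s)‖ ≤
      Real.sqrt (∑ j ∈ T, ‖k j‖ ^ 2) * ∑ m, ‖V m s‖ := by
  have hM : (0 : ℝ) < Fintype.card ι := by exact_mod_cast Fintype.card_pos
  have hv0 : 0 ≤ ∑ m, ‖V m s‖ := Finset.sum_nonneg fun m _ => norm_nonneg _
  have h1 : ∀ j, ‖chk c V j s‖ ≤ ∑ m, ‖V m s‖ := by
    intro j
    refine (norm_sum_le _ _).trans (Finset.sum_le_sum fun m _ => ?_)
    rw [norm_mul, RCLike.norm_conj, h.unit, one_mul]
  have h2 : ∑ j ∈ T, ‖hat c U j t‖ ^ 2 ≤ 1 := by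
    refine (hat_sq h U t).trans ?_
    have h3 : ∑ m, ‖U m t‖ ^ 2 ≤ (Fintype.card ι : ℝ) := by
      calc ∑ m, ‖U m t‖ ^ 2 ≤ ∑ _m : ι, (1 : ℝ) := by
            refine Finset.sum_le_sum fun m _ => ?_
            have := hm m t
            have := norm_nonneg (U m t)
            nlinarith
        _ = _ := by simp
    calc 1 / (Fintype.card ι : ℝ) * ∑ m, ‖U m t‖ ^ 2 ≤ 1 / (Fintype.card ι : ℝ) * (Fintype.card ι : ℝ) :=
          mul_le_mul_of_nonneg_left h3 (by positivity)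
      _ = 1 := one_div_mul_cancel hM.ne'
  calc ‖∑ j ∈ T, k j * (hat c U j t * chk c V j s)‖ ≤
      ∑ j ∈ T, (‖k j‖ * ‖hat c U j t‖) * ∑ m, ‖V m s‖ := by
        refine (norm_sum_le _ _).trans (Finset.sum_le_sum fun j _ => ?_)
        rw [norm_mul, norm_mul, ← mul_assoc]
        exact mul_le_mul_of_nonneg_left (h1 j) (by positivity)
    _ = (∑ j ∈ T, ‖k j‖ * ‖hat c U j t‖) * ∑ m, ‖V m s‖ := by rw [Finset.sum_mul]
    _ ≤ (Real.sqrt (∑ j ∈ T, ‖k j‖ ^ 2) * Real.sqrt (∑ j ∈ T, ‖hat c U j t‖ ^ 2)) * ∑ m, ‖V m s‖ :=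
        mul_le_mul_of_nonneg_right (Real.sum_mul_le_sqrt_mul_sqrt _ _ _) hv0
    _ ≤ (Real.sqrt (∑ j ∈ T, ‖k j‖ ^ 2) * 1) * ∑ m, ‖V m s‖ := by
        gcongr
        rw [Real.sqrt_le_one]
        exact h2
    _ = _ := by rw [mul_one]

theorem H1 [Nonempty ι] {n : ℕ} (hn : 1 ≤ n) {T : Finset ℕ} {c : ℕ → ι → ℂ} (h : Orth T c)
    (hGi : IntervalIntegrable (GT n T) volume 0 1)
    {U V : ι → ℝ → ℂ} (hU : ∀ m, CC (U m)) (hV : ∀ m, CC (V m)) (hm : ∀ m t, ‖U m t‖ ≤ 1) :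
    ‖LL n T c U V‖ ≤ (Real.sqrt T.card + ∫ x in (0 : ℝ)..1, GT n T x) * ∑ m, ∫ t, ‖V m t‖ := by
  have hG0 : 0 ≤ ∫ x in (0 : ℝ)..1, GT n T x :=
    intervalIntegral.integral_nonneg zero_le_one fun x _ => GT_nonneg n T x
  have hVi : Integrable (fun t => ∑ m, ‖V m t‖) := integrable_finsetSum _ fun m _ => n_int (hV m)
  have hVs : ∫ t, ∑ m, ‖V m t‖ = ∑ m, ∫ t, ‖V m t‖ :=
    integral_finsetSum _ fun m _ => n_int (hV m)
  have hv0 : ∀ s, 0 ≤ ∑ m, ‖V m s‖ := fun s => Finset.sum_nonneg fun m _ => norm_nonneg _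
  have hS0 : 0 ≤ ∑ m, ∫ t, ‖V m t‖ := Finset.sum_nonneg fun m _ => integral_nonneg fun t => norm_nonneg _
  have e : LL n T c U V = (∫ t, ∑ j ∈ T, (1 : ℂ) * (hat c U j t * chk c V j t)) +
      ∫ q : ℝ × ℝ, ∑ j ∈ T, Op.ker n j q * (hat c U j q.1 * chk c V j q.2) := by
    rw [integral_finsetSum _ fun j _ => (int1 (hat_cc c hU j) (chk_cc c hV j)).const_mul _,
      integral_finsetSum _ fun j _ => int2 (ker_loc hn j) (hat_cc c hU j) (chk_cc c hV j),
      ← Finset.sum_add_distrib]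
    unfold LL RT.Lam
    simp only [one_mul]
  have h1 : ‖∫ t, ∑ j ∈ T, (1 : ℂ) * (hat c U j t * chk c V j t)‖ ≤
      Real.sqrt T.card * ∑ m, ∫ t, ‖V m t‖ := by
    rw [← hVs, ← integral_const_mul]
    refine norm_integral_le_of_norm_le (hVi.const_mul _) (Eventually.of_forall fun t => ?_)
    have h2 := pt h (V := V) hm (fun _ => 1) t t
    simpa using h2
  have h2 : ‖∫ q : ℝ × ℝ, ∑ j ∈ T, Op.ker n j q * (hat c U j q.1 * chk c V j q.2)‖ ≤
      (∫ x in (0 : ℝ)..1, GT n T x) * ∑ m, ∫ t, ‖V m t‖ := by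
    have h3 : ‖∫ q : ℝ × ℝ, ∑ j ∈ T, Op.ker n j q * (hat c U j q.1 * chk c V j q.2)‖ₑ ≤
        ENNReal.ofReal ((∫ x in (0 : ℝ)..1, GT n T x) * ∑ m, ∫ t, ‖V m t‖) := by
      refine (enorm_integral_le_lintegral_enorm _).trans ?_
      calc ∫⁻ q : ℝ × ℝ, ‖∑ j ∈ T, Op.ker n j q * (hat c U j q.1 * chk c V j q.2)‖ₑ ≤
          ∫⁻ q : ℝ × ℝ, ENNReal.ofReal (KG (GT n T) q) * ENNReal.ofReal (∑ m, ‖V m q.2‖) := by
            refine lintegral_mono fun q => ?_
            rw [← ENNReal.ofReal_mul, ← ofReal_norm]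
            · refine ENNReal.ofReal_le_ofReal ?_
              rw [← sqrt_ker]
              exact pt h hm (fun j => Op.ker n j q) q.1 q.2
            · rw [← sqrt_ker]
              exact Real.sqrt_nonneg _
        _ ≤ ENNReal.ofReal (∫ x in (0 : ℝ)..1, GT n T x) * ∫⁻ s, ENNReal.ofReal (∑ m, ‖V m s‖) := by
            refine KG_two (GT_meas n T) (GT_nonneg n T) hGi
              (fun s => ENNReal.ofReal (∑ m, ‖V m s‖)) ?_
            refine Measurable.ennreal_ofReal (Finset.measurable_sum _ fun m _ => ?_)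
            exact (hV m).1.norm.measurable
        _ = _ := by
            rw [← ofReal_integral_eq_lintegral_ofReal hVi (Eventually.of_forall hv0), hVs,
              ← ENNReal.ofReal_mul hG0]
    rw [← ofReal_norm] at h3
    refine (ENNReal.ofReal_le_ofReal_iff ?_).1 h3
    exact mul_nonneg hG0 hS0
  rw [e]
  refine (norm_add_le _ _).trans ?_
  rw [add_mul]
  exact add_le_add h1 h2

/-- the bound of the form -/
theorem rt [Nonempty ι] {n : ℕ} (hn : 1 ≤ n) {T : Finset ℕ} {c : ℕ → ι → ℂ} (h : Orth T c)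
    (hGi : IntervalIntegrable (GT n T) volume 0 1)
    {U V : ι → ℝ → ℂ} (hU : ∀ m, CC (U m)) (hV : ∀ m, CC (V m)) {p q : ℝ} (hp : 2 < p)
    (hpq : 1 / p + 1 / q = 1) :
    ‖LL n T c U V‖ ≤ (Real.sqrt T.card + ∫ x in (0 : ℝ)..1, GT n T x) ^ (1 - 2 / p) *
      (∑ m, ∫ t, ‖U m t‖ ^ p) ^ (1 / p) * (∑ m, ∫ t, ‖V m t‖ ^ q) ^ (1 / q) := by
  have hG0 : 0 ≤ ∫ x in (0 : ℝ)..1, GT n T x :=
    intervalIntegral.integral_nonneg zero_le_one fun x _ => GT_nonneg n T x
  exact W2.main (by positivity) (good hn T c) hU hV hp hpq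
    (fun U V hU hV => H2 hn h hU hV) fun U V hU hV hm => H1 hn h hGi hU hV hm

end Pool.Agent.H93W.W4
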