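import Pool.Agent.H93W.W4

/-!
Duality for several classes.
-/

set_option autoImplicit false

open MeasureTheory Set Filter Topology
open scoped ENNReal

namespace Pool.Agent.H93W.W5

open Pool.Agent.H93W.RT Pool.Agent.H93W.Kern Pool.Agent.H93W.Op Pool.Agent.H93W.W1
open Pool.Agent.H93W.W2 Pool.Agent.H93W.W3

variable {ι : Type*} [Fintype ι]

/-- synthesis -/
noncomputable def syn (T : Finset ℕ) (c : ℕ → ι → ℂ) (u : ℕ → ℝ → ℂ) (m : ι) (t : ℝ) : ℂ :=
  ∑ j ∈ T, starRingEnd ℂ (c j m) * u j t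

lemma hat_syn [Nonempty ι] {T : Finset ℕ} {c : ℕ → ι → ℂ} (h : Orth T c) (u : ℕ → ℝ → ℂ)
    {j : ℕ} (hj : j ∈ T) : hat c (syn T c u) j = u j := by
  classical
  have hM : (0 : ℝ) < Fintype.card ι := by exact_mod_cast Fintype.card_pos
  have hMc : (Fintype.card ι : ℂ) ≠ 0 := by exact_mod_cast hM.ne'
  funext t
  unfold hat syn
  have e1 : ∑ m, (c j m / (Fintype.card ι : ℂ)) * ∑ j' ∈ T, starRingEnd ℂ (c j' m) * u j' t =
      ∑ j' ∈ T, (∑ m, c j m * starRingEnd ℂ (c j' m)) * (u j' t / (Fintype.card ι : ℂ)) := by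
    simp_rw [Finset.mul_sum, Finset.sum_mul]
    rw [Finset.sum_comm]
    exact Finset.sum_congr rfl fun j' _ => Finset.sum_congr rfl fun m _ => by ring
  rw [e1, Finset.sum_eq_single j]
  · have e3 : ∀ m, c j m * starRingEnd ℂ (c j m) = 1 := by
      intro m
      rw [Complex.mul_conj, Complex.normSq_eq_norm_sq, h.unit]
      simp
    simp_rw [e3]
    rw [Finset.sum_const, nsmul_eq_mul, mul_one, Finset.card_univ]
    field_simp
  · intro j' hj' hne
    rw [h.orth j hj j' hj' hne.symm, zero_mul]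
  · intro h'
    exact absurd hj h'

lemma syn_pair {n : ℕ} {T : Finset ℕ} {c : ℕ → ι → ℂ} [Nonempty ι] (h : Orth T c)
    {u w : ℕ → ℝ → ℂ} (hw : ∀ j, Continuous (w j))
    (hid : ∀ j ∈ T, ∀ V : ℝ → ℂ, CC V → ∫ t, w j t * V t = Lam (Op.ker n j) (u j) V)
    {V : ι → ℝ → ℂ} (hV : ∀ m, CC (V m)) :
    ∑ m, ∫ t, syn T c w m t * V m t = LL n T c (syn T c u) V := by
  have i1 : ∀ (j : ℕ) (m : ι) (a : ℂ), Integrable (fun t => a * (w j t * V m t)) := by
    intro j m a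
    have h1 : Integrable (fun t => w j t * V m t) :=
      ((hw j).mul (hV m).1).integrable_of_hasCompactSupport (hV m).hcs.mul_left
    exact h1.const_mul a
  have e1 : ∀ m, ∫ t, syn T c w m t * V m t =
      ∑ j ∈ T, starRingEnd ℂ (c j m) * ∫ t, w j t * V m t := by
    intro m
    have e2 : ∀ t, syn T c w m t * V m t = ∑ j ∈ T, starRingEnd ℂ (c j m) * (w j t * V m t) := by
      intro t
      unfold syn
      rw [Finset.sum_mul]
      exact Finset.sum_congr rfl fun j _ => by ring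
    simp_rw [e2]
    rw [integral_finsetSum _ fun j _ => i1 j m _]
    exact Finset.sum_congr rfl fun j _ => integral_const_mul _ _
  simp_rw [e1]
  rw [Finset.sum_comm]
  unfold LL
  refine Finset.sum_congr rfl fun j hj => ?_
  rw [hat_syn h u hj, ← hid j hj _ (chk_cc c hV j)]
  have e3 : ∀ t, w j t * chk c V j t = ∑ m, starRingEnd ℂ (c j m) * (w j t * V m t) := by
    intro t
    unfold chk
    rw [Finset.mul_sum]
    exact Finset.sum_congr rfl fun m _ => by ring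
  simp_rw [e3]
  rw [integral_finsetSum _ fun m _ => i1 j m _]
  exact Finset.sum_congr rfl fun m _ => (integral_const_mul _ _).symm

lemma syn_cont {T : Finset ℕ} {c : ℕ → ι → ℂ} {w : ℕ → ℝ → ℂ} (hw : ∀ j, Continuous (w j))
    (m : ι) : Continuous (syn T c w m) := by
  unfold syn
  exact continuous_finsetSum _ fun j _ => continuous_const.mul (hw j)

lemma syn_cc {T : Finset ℕ} {c : ℕ → ι → ℂ} {u : ℕ → ℝ → ℂ} (hu : ∀ j, CC (u j))
    (m : ι) : CC (syn T c u m) := CC.sum hu _ _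

/-- the dual estimate -/
theorem dual [Nonempty ι] {n : ℕ} (hn : 1 ≤ n) {T : Finset ℕ} {c : ℕ → ι → ℂ} (h : Orth T c)
    (hGi : IntervalIntegrable (GT n T) volume 0 1)
    {u w : ℕ → ℝ → ℂ} (hu : ∀ j, CC (u j)) (hw : ∀ j, Continuous (w j))
    (hid : ∀ j ∈ T, ∀ V : ℝ → ℂ, CC V → ∫ t, w j t * V t = Lam (Op.ker n j) (u j) V)
    {p : ℝ} (hp : 2 < p) {χ : ℝ → ℝ} (hχc : Continuous χ) (hχ : ∀ x, 0 ≤ χ x ∧ χ x ≤ 1)
    {a b : ℝ} (ha : 0 < a) (hab : a < b) (hχ0 : ∀ t, t ∉ Icc a b → χ t = 0) :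
    ∑ m, ∫ t, χ t * ‖syn T c w m t‖ ^ p ≤
      ((Real.sqrt T.card + ∫ x in (0 : ℝ)..1, GT n T x) ^ (1 - 2 / p)) ^ p *
        ∑ m, ∫ t, ‖syn T c u m t‖ ^ p := by
  have hp0 : 0 < p := by linarith
  obtain ⟨q, hq⟩ : ∃ q : ℝ, q = p / (p - 1) := ⟨_, rfl⟩
  have hp1 : 0 < p - 1 := by linarith
  have hq0 : 0 < q := by rw [hq]; positivity
  have hpq : 1 / p + 1 / q = 1 := by
    rw [hq]
    field_simp
    ring
  have hq1 : 1 ≤ q := by
    rw [hq, le_div_iff₀ hp1]
    linarith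
  have hG0 : 0 ≤ ∫ x in (0 : ℝ)..1, GT n T x :=
    intervalIntegral.integral_nonneg zero_le_one fun x _ => GT_nonneg n T x
  obtain ⟨B, hB⟩ : ∃ B, B = Real.sqrt T.card + ∫ x in (0 : ℝ)..1, GT n T x := ⟨_, rfl⟩
  have hB0 : 0 ≤ B := by rw [hB]; positivity
  have hTc : ∀ m, Continuous (syn T c w m) := fun m => syn_cont hw m
  obtain ⟨W, hW⟩ : ∃ W, W = syn T c w := ⟨_, rfl⟩
  have hrt := fun V hV => W4.rt (p := p) (q := q) hn h hGi (U := syn T c u) (V := V)
    (fun m => syn_cc hu m) hV hp hpq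
  rw [← hB] at hrt ⊢
  rw [← hW] at hTc ⊢
  obtain ⟨V, hVd⟩ : ∃ V : ι → ℝ → ℂ, V = fun m t => ((χ t * ‖W m t‖ ^ (p - 2) : ℝ) : ℂ) *
    starRingEnd ℂ (W m t) := ⟨_, rfl⟩
  have hVc : ∀ m, Continuous (V m) := by
    intro m
    rw [hVd]
    refine Continuous.mul ?_ (Complex.continuous_conj.comp (hTc m))
    refine Complex.continuous_ofReal.comp (hχc.mul ?_)
    exact (hTc m).norm.rpow_const fun x => Or.inr (by linarith)
  have hV : ∀ m, CC (V m) := fun m => ⟨hVc m, a, b, ha, hab, fun t ht => by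
    rw [hVd]
    simp only
    rw [hχ0 t ht]
    simp⟩
  have hpow : ∀ m t, ‖W m t‖ ^ (p - 2) * (‖W m t‖ * ‖W m t‖) = ‖W m t‖ ^ p := by
    intro m t
    rcases eq_or_lt_of_le (norm_nonneg (W m t)) with h | h
    · rw [← h, Real.zero_rpow (by linarith), Real.zero_rpow hp0.ne', zero_mul]
    · rw [Real.rpow_sub h, Real.rpow_two]
      field_simp
  have hwV : ∀ m t, W m t * V m t = ((χ t * ‖W m t‖ ^ p : ℝ) : ℂ) := by
    intro m t
    rw [← hpow m t, hVd]
    simp only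
    have h1 : W m t * starRingEnd ℂ (W m t) = ((‖W m t‖ * ‖W m t‖ : ℝ) : ℂ) := by
      rw [Complex.mul_conj, Complex.normSq_eq_norm_sq, sq]
    calc W m t * (((χ t * ‖W m t‖ ^ (p - 2) : ℝ) : ℂ) * starRingEnd ℂ (W m t)) =
        ((χ t * ‖W m t‖ ^ (p - 2) : ℝ) : ℂ) * (W m t * starRingEnd ℂ (W m t)) := by ring
      _ = _ := by
        rw [h1, ← Complex.ofReal_mul]
        congr 1
        ring
  obtain ⟨X, hX⟩ : ∃ X, X = ∑ m, ∫ t, χ t * ‖W m t‖ ^ p := ⟨_, rfl⟩
  have hX0 : 0 ≤ X := by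
    rw [hX]
    exact Finset.sum_nonneg fun m _ => integral_nonneg fun t =>
      mul_nonneg (hχ t).1 (Real.rpow_nonneg (norm_nonneg _) _)
  have hXi : ∀ m, Integrable (fun t => χ t * ‖W m t‖ ^ p) := by
    intro m
    refine Continuous.integrable_of_hasCompactSupport ?_ ?_
    · exact hχc.mul ((hTc m).norm.rpow_const fun x => Or.inr hp0.le)
    · refine HasCompactSupport.intro (isCompact_Icc (a := a) (b := b)) fun t ht => ?_
      rw [hχ0 t ht, zero_mul]
  have h1 : ‖LL n T c (syn T c u) V‖ = X := by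
    rw [← syn_pair h hw hid hV, ← hW]
    simp_rw [hwV]
    simp_rw [integral_complex_ofReal]
    rw [← Complex.ofReal_sum, Complex.norm_real, ← hX, Real.norm_of_nonneg hX0]
  have h2 := hrt V hV
  rw [h1] at h2
  have h3 : ∑ m, ∫ t, ‖V m t‖ ^ q ≤ X := by
    rw [hX]
    refine Finset.sum_le_sum fun m _ => ?_
    refine integral_mono_of_nonneg (Eventually.of_forall fun t => by positivity) (hXi m)
      (Eventually.of_forall fun t => ?_)
    simp only
    have hχt := hχ t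
    have hnV : ‖V m t‖ = χ t * ‖W m t‖ ^ (p - 1) := by
      rw [hVd]
      simp only
      rw [norm_mul, RCLike.norm_conj, Complex.norm_real, Real.norm_of_nonneg
        (mul_nonneg hχt.1 (Real.rpow_nonneg (norm_nonneg _) _)), mul_assoc]
      congr 1
      rcases eq_or_lt_of_le (norm_nonneg (W m t)) with h | h
      · rw [← h, Real.zero_rpow hp1.ne', mul_zero]
      · rw [← Real.rpow_add_one h.ne']
        congr 1
        ring
    rw [hnV, Real.mul_rpow hχt.1 (Real.rpow_nonneg (norm_nonneg _) _), ← Real.rpow_mul (norm_nonneg _)]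
    have h4 : (p - 1) * q = p := by
      rw [hq]
      field_simp
    rw [h4]
    refine mul_le_mul_of_nonneg_right ?_ (Real.rpow_nonneg (norm_nonneg _) _)
    calc χ t ^ q ≤ χ t ^ (1 : ℝ) := Real.rpow_le_rpow_of_exponent_ge' hχt.1 hχt.2 zero_le_one hq1
      _ = χ t := Real.rpow_one _
  obtain ⟨Y, hY⟩ : ∃ Y, Y = ∑ m, ∫ t, ‖syn T c u m t‖ ^ p := ⟨_, rfl⟩
  have hN0 : 0 ≤ Y := by
    rw [hY]
    exact Finset.sum_nonneg fun m _ => integral_nonneg fun t => by positivity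
  have hB1 : 0 ≤ B ^ (1 - 2 / p) := Real.rpow_nonneg hB0 _
  rw [← hY] at h2 ⊢
  have h5 : X ≤ B ^ (1 - 2 / p) * Y ^ (1 / p) * X ^ (1 / q) := by
    refine h2.trans ?_
    refine mul_le_mul_of_nonneg_left ?_ (mul_nonneg hB1 (Real.rpow_nonneg hN0 _))
    exact Real.rpow_le_rpow (Finset.sum_nonneg fun m _ => integral_nonneg fun t => by positivity)
      h3 (by positivity)
  rw [← hX]
  rcases eq_or_lt_of_le hX0 with h | h
  · rw [← h]
    exact mul_nonneg (Real.rpow_nonneg hB1 _) hN0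
  · have h6 : X ^ (1 / p) ≤ B ^ (1 - 2 / p) * Y ^ (1 / p) := by
      have h7 : X = X ^ (1 / p) * X ^ (1 / q) := by
        rw [← Real.rpow_add h, hpq, Real.rpow_one]
      have h8 : X ^ (1 / p) * X ^ (1 / q) ≤
          B ^ (1 - 2 / p) * Y ^ (1 / p) * X ^ (1 / q) := by
        rw [← h7]
        exact h5
      exact le_of_mul_le_mul_right h8 (Real.rpow_pos_of_pos h _)
    calc X = (X ^ (1 / p)) ^ p := by
          rw [← Real.rpow_mul hX0, one_div_mul_cancel hp0.ne', Real.rpow_one]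
      _ ≤ (B ^ (1 - 2 / p) * Y ^ (1 / p)) ^ p :=
          Real.rpow_le_rpow (Real.rpow_nonneg hX0 _) h6 hp0.le
      _ = _ := by
          rw [Real.mul_rpow hB1 (Real.rpow_nonneg hN0 _), ← Real.rpow_mul hN0,
            one_div_mul_cancel hp0.ne', Real.rpow_one]

end Pool.Agent.H93W.W5
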