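import Pool.Agent.H93W.W5
import Pool.Agent.H93W.Plane

/-!
From the rays to the plane.
-/

set_option autoImplicit false

open MeasureTheory Set Filter Topology
open scoped ENNReal ContDiff SchwartzMap

namespace Pool.Agent.H93W.W6

open Pool.Agent.H93W.RT Pool.Agent.H93W.Kern Pool.Agent.H93W.Op Pool.Agent.H93W.W1
open Pool.Agent.H93W.W3 Pool.Agent.H93W.W5 Pool.Agent.H93W.Dual
open Pool.Agent.Y282.RB

/-! ### polar coordinates -/

lemma half {φ : ℝ → ℝ} (hφc : Continuous φ) (hφ : ∀ t, 0 ≤ φ t) {a b : ℝ} (ha : 0 < a)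
    (h0 : ∀ t, t ∉ Icc a b → φ t = 0) :
    ∫⁻ r in Ioi (0 : ℝ), ENNReal.ofReal r * ENNReal.ofReal (φ (r ^ 2)) =
      ENNReal.ofReal (1 / 2 * ∫ t, φ t) := by
  have h3 := integral_comp_rpow_Ioi_of_pos (g := φ) (p := 2) (by norm_num)
  have h4 : ∫ x in Ioi (0 : ℝ), (2 * x ^ ((2 : ℝ) - 1)) • φ (x ^ (2 : ℝ))
      = 2 * ∫ x in Ioi (0 : ℝ), x * φ (x ^ 2) := by
    rw [← integral_const_mul]
    refine setIntegral_congr_fun measurableSet_Ioi (fun x _ => ?_)
    have e : (2 : ℝ) - 1 = 1 := by norm_num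
    simp only [e, Real.rpow_one, Real.rpow_two, smul_eq_mul]
    ring
  have h5 : ∫ x in Ioi (0 : ℝ), φ x = ∫ t, φ t := by
    apply setIntegral_eq_integral_of_forall_compl_eq_zero
    intro t ht
    exact h0 t (fun h => ht (lt_of_lt_of_le ha h.1))
  rw [h4, h5] at h3
  have h6 : 1 / 2 * ∫ t, φ t = ∫ x in Ioi (0 : ℝ), x * φ (x ^ 2) := by
    rw [← h3]
    ring
  rw [h6, ofReal_integral_eq_lintegral_ofReal]
  · refine setLIntegral_congr_fun measurableSet_Ioi fun r hr => ?_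
    rw [← ENNReal.ofReal_mul (le_of_lt hr)]
  · have hc : Continuous (fun x : ℝ => x * φ (x ^ 2)) :=
      continuous_id.mul (hφc.comp (continuous_pow 2))
    refine (hc.integrable_of_hasCompactSupport ?_).integrableOn
    refine HasCompactSupport.intro (isCompact_Icc (a := -(|b| + 1)) (b := |b| + 1)) fun x hx => ?_
    rw [h0 (x ^ 2) ?_, mul_zero]
    intro h
    apply hx
    have h7 : x ^ 2 ≤ (|b| + 1) ^ 2 := by
      have := h.2
      nlinarith [le_abs_self b, abs_nonneg b]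
    exact abs_le.1 (abs_le_of_sq_le_sq h7 (by positivity))
  · exact (ae_restrict_iff' measurableSet_Ioi).2 (Eventually.of_forall fun x hx =>
      mul_nonneg (le_of_lt hx) (hφ _))

/-- the unit vector at angle `θ` -/
noncomputable def uu (θ : ℝ) : ℂ := (Real.cos θ : ℂ) + (Real.sin θ : ℂ) * Complex.I

lemma norm_uu (θ : ℝ) : ‖uu θ‖ = 1 := by
  unfold uu
  rw [Complex.ofReal_cos, Complex.ofReal_sin]
  exact Complex.norm_cos_add_sin_mul_I θ

lemma uu_cont : Continuous uu := by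
  unfold uu
  fun_prop

lemma polar (g : ℂ → ℝ≥0∞) (hg : Measurable g) : ∫⁻ z, g z =
    ∫⁻ θ in Ioo (-Real.pi) Real.pi, ∫⁻ r in Ioi (0 : ℝ), ENNReal.ofReal r * g ((r : ℂ) * uu θ) := by
  rw [← Complex.lintegral_comp_polarCoord_symm, polarCoord_target, Measure.volume_eq_prod,
    ← Measure.prod_restrict, lintegral_prod_symm']
  · refine lintegral_congr fun θ => lintegral_congr fun r => ?_
    simp only [Complex.polarCoord_symm_apply, smul_eq_mul]
    rfl
  · have : Measurable fun q : ℝ × ℝ => Complex.polarCoord.symm q := by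
      have e : (fun q : ℝ × ℝ => Complex.polarCoord.symm q) =
          fun q => (q.1 : ℂ) * uu q.2 := by
        funext q
        rw [Complex.polarCoord_symm_apply]
        rfl
      rw [e]
      exact ((Complex.continuous_ofReal.comp continuous_fst).mul
        (uu_cont.comp continuous_snd)).measurable
    simp only [smul_eq_mul]
    exact (measurable_fst.ennreal_ofReal).mul (hg.comp this)

lemma lint_rot {a : ℂ} (ha : ‖a‖ = 1) (g : ℂ → ℝ≥0∞) : ∫⁻ x : ℂ, g (a * x) = ∫⁻ x : ℂ, g x := by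
  have h1 : a ∈ Submonoid.unitSphere ℂ := by
    rw [Submonoid.unitSphere]
    simpa using ha
  have h2 := (rotation (⟨a, h1⟩ : Circle)).measurePreserving
  have h3 := h2.lintegral_comp_emb (rotation (⟨a, h1⟩ : Circle)).toHomeomorph.measurableEmbedding g
  exact h3

lemma total {h : ℂ → ℝ} (hc : Continuous h) (h0 : ∀ z, 0 ≤ h z) {a b : ℝ} (ha : 0 < a)
    (hz : ∀ z, Complex.normSq z ∉ Icc a b → h z = 0) (M : ℕ) {ζ : ℂ} (hζ : ‖ζ‖ = 1) :
    (M : ℝ≥0∞) * ∫⁻ z, ENNReal.ofReal (h z) =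
      ∫⁻ θ in Ioo (-Real.pi) Real.pi,
        ENNReal.ofReal (1 / 2 * ∑ m : Fin M, ∫ t : ℝ, h (uu θ * ζ ^ (m : ℕ) * ((√t : ℝ) : ℂ))) := by
  have hζm : ∀ m : ℕ, ‖ζ ^ m‖ = 1 := fun m => by rw [norm_pow, hζ, one_pow]
  have e1 : (M : ℝ≥0∞) * ∫⁻ z, ENNReal.ofReal (h z) =
      ∫⁻ z, ∑ m : Fin M, ENNReal.ofReal (h (ζ ^ (m : ℕ) * z)) := by
    rw [lintegral_finsetSum]
    · have : ∀ m : Fin M, ∫⁻ z, ENNReal.ofReal (h (ζ ^ (m : ℕ) * z)) = ∫⁻ z, ENNReal.ofReal (h z) :=
        fun m => lint_rot (hζm m) (fun z => ENNReal.ofReal (h z))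
      simp_rw [this]
      simp
    · intro m _
      exact (hc.comp (continuous_const.mul continuous_id)).measurable.ennreal_ofReal
  rw [e1, polar]
  · refine lintegral_congr fun θ => ?_
    have e2 : ∀ r : ℝ, ENNReal.ofReal r * ∑ m : Fin M, ENNReal.ofReal (h (ζ ^ (m : ℕ) * (r * uu θ))) =
        ∑ m : Fin M, ENNReal.ofReal r * ENNReal.ofReal (h (ζ ^ (m : ℕ) * (r * uu θ))) := fun r =>
      Finset.mul_sum _ _ _
    simp_rw [e2]
    rw [lintegral_finsetSum]
    · rw [Finset.mul_sum, ENNReal.ofReal_sum_of_nonneg]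
      · refine Finset.sum_congr rfl fun m _ => ?_
        have hb : ‖uu θ * ζ ^ (m : ℕ)‖ = 1 := by rw [norm_mul, norm_uu, hζm, one_mul]
        have hns : ∀ t : ℝ, Complex.normSq (uu θ * ζ ^ (m : ℕ) * ((√t : ℝ) : ℂ)) = √t * √t := by
          intro t
          rw [map_mul, Complex.normSq_eq_norm_sq, hb, Complex.normSq_ofReal]
          ring
        rw [← half (φ := fun t => h (uu θ * ζ ^ (m : ℕ) * ((√t : ℝ) : ℂ))) ?_ (fun t => h0 _) ha
          (b := b) ?_]
        · refine setLIntegral_congr_fun measurableSet_Ioi fun r hr => ?_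
          rw [Real.sqrt_sq (le_of_lt hr)]
          congr 3
          ring
        · exact hc.comp (continuous_const.mul (Complex.continuous_ofReal.comp Real.continuous_sqrt))
        · intro t ht
          refine hz _ ?_
          rw [hns]
          rcases le_or_gt 0 t with h | h
          · rw [Real.mul_self_sqrt h]
            exact ht
          · rw [Real.sqrt_eq_zero_of_nonpos h.le]
            intro h1
            have := h1.1
            linarith
      · intro m _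
        exact mul_nonneg (by norm_num) (integral_nonneg fun t => h0 _)
    · intro m _
      refine Measurable.mul measurable_id.ennreal_ofReal ?_
      refine Measurable.ennreal_ofReal ?_
      exact (hc.comp (continuous_const.mul (Complex.continuous_ofReal.mul continuous_const))).measurable
  · refine Finset.measurable_sum _ fun m _ => ?_
    exact (hc.comp (continuous_const.mul continuous_id)).measurable.ennreal_ofReal

/-- comparison on the plane from comparison on rays -/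
lemma compare {h1 h2 : ℂ → ℝ} (hc1 : Continuous h1) (hp1 : ∀ z, 0 ≤ h1 z) {a b : ℝ} (ha : 0 < a)
    (hz1 : ∀ z, Complex.normSq z ∉ Icc a b → h1 z = 0)
    (hc2 : Continuous h2) (hp2 : ∀ z, 0 ≤ h2 z) {c d : ℝ} (hc : 0 < c)
    (hz2 : ∀ z, Complex.normSq z ∉ Icc c d → h2 z = 0) {M : ℕ} (hM : 1 ≤ M) {ζ : ℂ} (hζ : ‖ζ‖ = 1)
    {K : ℝ} (hK : 0 ≤ K)
    (hray : ∀ x : ℂ, ‖x‖ = 1 → ∑ m : Fin M, ∫ t : ℝ, h1 (x * ζ ^ (m : ℕ) * ((√t : ℝ) : ℂ)) ≤
      K * ∑ m : Fin M, ∫ t : ℝ, h2 (x * ζ ^ (m : ℕ) * ((√t : ℝ) : ℂ))) :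
    ∫⁻ z, ENNReal.ofReal (h1 z) ≤ ENNReal.ofReal K * ∫⁻ z, ENNReal.ofReal (h2 z) := by
  have t1 := total hc1 hp1 ha hz1 M hζ
  have t2 := total hc2 hp2 hc hz2 M hζ
  have hM0 : (M : ℝ≥0∞) ≠ 0 := by
    have : M ≠ 0 := by omega
    exact_mod_cast this
  have hMt : (M : ℝ≥0∞) ≠ ⊤ := ENNReal.natCast_ne_top M
  have key : (M : ℝ≥0∞) * ∫⁻ z, ENNReal.ofReal (h1 z) ≤
      (M : ℝ≥0∞) * (ENNReal.ofReal K * ∫⁻ z, ENNReal.ofReal (h2 z)) := by
    rw [t1, mul_left_comm, t2, ← lintegral_const_mul']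
    · refine lintegral_mono fun θ => ?_
      simp only
      rw [← ENNReal.ofReal_mul hK]
      refine ENNReal.ofReal_le_ofReal ?_
      have := hray (uu θ) (norm_uu θ)
      linarith
    · exact ENNReal.ofReal_ne_top
  exact (ENNReal.mul_le_mul_iff_right hM0 hMt).1 key

end Pool.Agent.H93W.W6
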