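import Pool.Agent.H93W.W6

/-!
The bound on the plane for sums of several classes.
-/

set_option autoImplicit false

open MeasureTheory Set Filter Topology
open scoped ENNReal ContDiff SchwartzMap

namespace Pool.Agent.H93W.W7

open Pool.Agent.H93W.RT Pool.Agent.H93W.Kern Pool.Agent.H93W.Op Pool.Agent.H93W.W1
open Pool.Agent.H93W.W3 Pool.Agent.H93W.W5 Pool.Agent.H93W.W6 Pool.Agent.H93W.Dual
open Pool.Agent.Y282.RB

/-- the root of unity -/
noncomputable def zt (M : ℕ) : ℂ := Complex.exp (2 * Real.pi * Complex.I / M)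

lemma zt_prim {M : ℕ} (hM : 1 ≤ M) : IsPrimitiveRoot (zt M) M :=
  Complex.isPrimitiveRoot_exp M (by omega)

lemma norm_zt {M : ℕ} (hM : 1 ≤ M) : ‖zt M‖ = 1 :=
  Complex.norm_eq_one_of_pow_eq_one (zt_prim hM).pow_eq_one (by omega)

/-- characters -/
noncomputable def ch (M : ℕ) (x : ℂ) (j : ℕ) (m : Fin M) : ℂ := (x * zt M ^ (m : ℕ)) ^ j

lemma norm_b {M : ℕ} (hM : 1 ≤ M) {x : ℂ} (hx : ‖x‖ = 1) (m : ℕ) : ‖x * zt M ^ m‖ = 1 := by
  rw [norm_mul, norm_pow, hx, norm_zt hM, one_pow, one_mul]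

lemma ch_orth {M : ℕ} (hM : 1 ≤ M) {x : ℂ} (hx : ‖x‖ = 1) {T : Finset ℕ} (hT : ∀ j ∈ T, j < M) :
    Orth T (ch M x) := by
  refine ⟨fun j m => ?_, fun j hj j' hj' hne => ?_⟩
  · unfold ch
    rw [norm_pow, norm_b hM hx, one_pow]
  · obtain ⟨y, hy⟩ : ∃ y, y = zt M ^ j * starRingEnd ℂ (zt M) ^ j' := ⟨_, rfl⟩
    have h1 : zt M ^ M = 1 := (zt_prim hM).pow_eq_one
    have hc : starRingEnd ℂ (zt M) ^ M = 1 := by
      rw [← map_pow, h1, map_one]
    have h2 : y ^ M = 1 := by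
      rw [hy, mul_pow, ← pow_mul, ← pow_mul, mul_comm j M, mul_comm j' M, pow_mul, pow_mul, h1, hc]
      simp
    have h3 : y ≠ 1 := by
      intro h
      apply hne
      refine (zt_prim hM).pow_inj (hT j hj) (hT j' hj') ?_
      have h4 : zt M * starRingEnd ℂ (zt M) = 1 := Sym.conj_of_unit (norm_zt hM)
      calc zt M ^ j = zt M ^ j * (zt M * starRingEnd ℂ (zt M)) ^ j' := by rw [h4, one_pow, mul_one]
        _ = y * zt M ^ j' := by
          rw [hy, mul_pow]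
          ring
        _ = zt M ^ j' := by rw [h, one_mul]
    have h5 : ∑ m : Fin M, y ^ (m : ℕ) = 0 := by
      rw [Fin.sum_univ_eq_sum_range (fun i => y ^ i) M]
      have h6 := geom_sum_mul y M
      rw [h2, sub_self] at h6
      exact (mul_eq_zero.1 h6).resolve_right (sub_ne_zero.2 h3)
    have e : ∀ m : Fin M, ch M x j m * starRingEnd ℂ (ch M x j' m) =
        (x ^ j * starRingEnd ℂ x ^ j') * y ^ (m : ℕ) := by
      intro m
      unfold ch
      rw [hy]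
      simp only [map_pow, map_mul, mul_pow]
      ring
    simp_rw [e]
    rw [← Finset.mul_sum, h5, mul_zero]

lemma conj_pow_unit {b : ℂ} (hb : ‖b‖ = 1) (j : ℕ) : starRingEnd ℂ (b ^ j) = b ^ (-(j : ℤ)) := by
  have h1 : b * starRingEnd ℂ b = 1 := Sym.conj_of_unit hb
  have h2 : starRingEnd ℂ b = b⁻¹ := eq_inv_of_mul_eq_one_right h1
  rw [map_pow, h2, zpow_neg, zpow_natCast, inv_pow]

lemma syn_val {k : ℤ} {T : Finset ℕ} {g : ℕ → ℂ → ℂ} (hg : ∀ j : ℕ, Cl (k - j) (g j)) {M : ℕ}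
    (hM : 1 ≤ M) {x : ℂ} (hx : ‖x‖ = 1) (m : Fin M) (t : ℝ) :
    ‖syn T (ch M x) (fun j => pr (g j)) m t‖ =
      ‖∑ j ∈ T, g j (x * zt M ^ (m : ℕ) * ((√t : ℝ) : ℂ))‖ := by
  have hb := norm_b hM hx m
  have hb0 : x * zt M ^ (m : ℕ) ≠ 0 := by
    intro h
    rw [h, norm_zero] at hb
    exact zero_ne_one hb
  have e : ∑ j ∈ T, g j (x * zt M ^ (m : ℕ) * ((√t : ℝ) : ℂ)) =
      (x * zt M ^ (m : ℕ)) ^ k * syn T (ch M x) (fun j => pr (g j)) m t := by
    unfold syn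
    rw [Finset.mul_sum]
    refine Finset.sum_congr rfl fun j _ => ?_
    rw [hg j _ _ hb]
    unfold ch pr
    rw [conj_pow_unit hb, ← mul_assoc, ← zpow_add₀ hb0]
    rfl
  rw [e, norm_mul, norm_zpow, hb, one_zpow, one_mul]

lemma ann_sum {g : ℕ → ℂ → ℂ} (hg : ∀ j, Ann (g j)) (T : Finset ℕ) :
    Ann (fun z => ∑ j ∈ T, g j z) := by
  induction T using Finset.induction_on with
  | empty => exact ⟨1, 2, one_pos, by norm_num, fun z _ => by simp⟩
  | insert i s hi ih =>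
    obtain ⟨a, b, ha, hab, h1⟩ := ih
    obtain ⟨c, d, hc, hcd, h2⟩ := hg i
    refine ⟨min a c, max b d, lt_min ha hc,
      lt_of_le_of_lt (min_le_left a c) (lt_of_lt_of_le hab (le_max_left b d)), fun z hz => ?_⟩
    simp only
    rw [Finset.sum_insert hi]
    have h3 : Complex.normSq z ∉ Icc a b := fun h =>
      hz ⟨(min_le_left _ _).trans h.1, h.2.trans (le_max_left _ _)⟩
    have h4 : Complex.normSq z ∉ Icc c d := fun h =>
      hz ⟨(min_le_right _ _).trans h.1, h.2.trans (le_max_right _ _)⟩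
    rw [h2 z h4]
    have h5 := h1 z h3
    simp only at h5
    rw [h5, add_zero]

lemma cl_Tn' {n j : ℕ} {f : 𝓢(ℂ, ℂ)} (hf : Cl ((n : ℤ) - j) f) : Cl (-(n : ℤ) - j) (Tn n f) := by
  have h := cl_Tn hf
  have e : (-((n + j : ℕ) : ℤ)) = -(n : ℤ) - j := by
    push_cast
    ring
  rwa [e] at h

lemma Tn_cont (n : ℕ) (f : 𝓢(ℂ, ℂ)) : Continuous (Tn n f) := by
  rw [K.Tn_eq]
  exact Pool.Agent.TH55.PowA.T_cont (K.adm_sy n) f

/-- the constant -/
noncomputable def BB (n : ℕ) (T : Finset ℕ) : ℝ :=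
  Real.sqrt T.card + ∫ x in (0 : ℝ)..1, GT n T x

lemma BB_nonneg (n : ℕ) (T : Finset ℕ) : 0 ≤ BB n T := by
  have hG0 : 0 ≤ ∫ x in (0 : ℝ)..1, GT n T x :=
    intervalIntegral.integral_nonneg zero_le_one fun x _ => GT_nonneg n T x
  unfold BB
  positivity

theorem compact {n : ℕ} (hn : 1 ≤ n) {T : Finset ℕ} {g : ℕ → 𝓢(ℂ, ℂ)}
    (hg : ∀ j : ℕ, Cl ((n : ℤ) - j) (g j)) (ha : ∀ j, Ann (g j))
    {p : ℝ} (hp : 2 < p) :
    ∫⁻ z, ‖∑ j ∈ T, Tn n (g j) z‖ₑ ^ p ≤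
      ENNReal.ofReal ((BB n T ^ (1 - 2 / p)) ^ p) * ∫⁻ z, ‖∑ j ∈ T, g j z‖ₑ ^ p := by
  have hp0 : 0 < p := by linarith
  have hB0 := BB_nonneg n T
  have hB1 : 0 ≤ (BB n T ^ (1 - 2 / p)) ^ p := Real.rpow_nonneg (Real.rpow_nonneg hB0 _) _
  obtain ⟨M, hM⟩ : ∃ M : ℕ, M = T.sup id + 1 := ⟨_, rfl⟩
  have hM1 : 1 ≤ M := by omega
  have hTM : ∀ j ∈ T, j < M := by
    intro j hj
    have : id j ≤ T.sup id := Finset.le_sup hj
    simp only [id] at this
    omega
  have : Nonempty (Fin M) := ⟨⟨0, by omega⟩⟩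
  have hGi := (GT_l1 (J := T.sup id) hn T fun j hj => by
    have : id j ≤ T.sup id := Finset.le_sup hj
    simpa using this).1
  have hk : ∀ k : ℕ, (0 : ℝ) < 1 / ((k : ℝ) + 2) ∧ 1 / ((k : ℝ) + 2) < 1 := by
    intro k
    have : (0 : ℝ) ≤ k := Nat.cast_nonneg k
    refine ⟨by positivity, ?_⟩
    rw [div_lt_one (by linarith)]
    linarith
  choose χ R hχ1 hχ2 hχ3 hχ4 hχ5 hχ6 using fun k : ℕ =>
    K.exists_cut (1 / ((k : ℝ) + 2)) (hk k).1 (hk k).2
  have hTc : ∀ j, Continuous (pr (Tn n (g j))) := fun j => pr_cont (Tn_cont n (g j))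
  have hgc : ∀ j, CC (pr (g j)) := fun j => cc_pr (g j).continuous (ha j)
  obtain ⟨F, hF⟩ : ∃ F : ℂ → ℂ, F = fun z => ∑ j ∈ T, Tn n (g j) z := ⟨_, rfl⟩
  obtain ⟨f, hf⟩ : ∃ f : ℂ → ℂ, f = fun z => ∑ j ∈ T, g j z := ⟨_, rfl⟩
  have hFc : Continuous F := by
    rw [hF]
    exact continuous_finsetSum _ fun j _ => Tn_cont n (g j)
  have hfc : Continuous f := by
    rw [hf]
    exact continuous_finsetSum _ fun j _ => (g j).continuous
  have hfa : Ann f := by
    rw [hf]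
    exact ann_sum ha T
  have hFv : ∀ z, ∑ j ∈ T, Tn n (g j) z = F z := fun z => by rw [hF]
  have hfv : ∀ z, ∑ j ∈ T, g j z = f z := fun z => by rw [hf]
  simp_rw [hFv, hfv]
  obtain ⟨c2, d2, hc2, hcd2, hz2⟩ := hfa
  have hR : ∫⁻ z, ‖f z‖ₑ ^ p = ∫⁻ z, ENNReal.ofReal (‖f z‖ ^ p) := by
    refine lintegral_congr fun z => ?_
    rw [← ofReal_norm, ENNReal.ofReal_rpow_of_nonneg (norm_nonneg _) hp0.le]
  have hk2 : ∀ k, ∫⁻ z : ℂ, ENNReal.ofReal (χ k (Complex.normSq z) * ‖F z‖ ^ p) ≤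
      ENNReal.ofReal ((BB n T ^ (1 - 2 / p)) ^ p) * ∫⁻ z, ‖f z‖ₑ ^ p := by
    intro k
    have hc : (0 : ℝ) < 1 / ((k : ℝ) + 2) / 2 := by
      have := (hk k).1
      linarith
    have hcd : 1 / ((k : ℝ) + 2) / 2 < max (R k) (1 / ((k : ℝ) + 2)) := by
      refine lt_of_lt_of_le ?_ (le_max_right _ _)
      have := (hk k).1
      linarith
    have hχ0 : ∀ t, t ∉ Icc (1 / ((k : ℝ) + 2) / 2) (max (R k) (1 / ((k : ℝ) + 2))) → χ k t = 0 := by
      intro t ht
      rcases le_or_gt t (1 / ((k : ℝ) + 2) / 2) with h | h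
      · exact hχ5 k t h
      · refine hχ6 k t ?_
        by_contra h'
        exact ht ⟨h.le, (not_le.1 h').le.trans (le_max_left _ _)⟩
    have hns : Continuous (Complex.normSq : ℂ → ℝ) := Complex.continuous_normSq
    rw [hR]
    refine compare (h1 := fun z => χ k (Complex.normSq z) * ‖F z‖ ^ p) (h2 := fun z => ‖f z‖ ^ p)
      (((hχ1 k).continuous.comp hns).mul (hFc.norm.rpow_const fun x => Or.inr hp0.le))
      (fun z => mul_nonneg (hχ3 k _).1 (by positivity)) hc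
      (b := max (R k) (1 / ((k : ℝ) + 2))) (fun z hz => by
        show χ k (Complex.normSq z) * ‖F z‖ ^ p = 0
        rw [hχ0 _ hz, zero_mul])
      (hfc.norm.rpow_const fun x => Or.inr hp0.le) (fun z => by positivity) hc2 (d := d2)
      (fun z hz => by
        show ‖f z‖ ^ p = 0
        rw [hz2 z hz, norm_zero, Real.zero_rpow hp0.ne']) hM1 (norm_zt hM1) hB1 fun x hx => ?_
    have hd := dual (c := ch M x) hn (ch_orth hM1 hx hTM) hGi (u := fun j => pr (g j))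
      (w := fun j => pr (Tn n (g j))) hgc hTc (fun j _ V hV => ident hn (hg j) (ha j) hV) hp
      (hχ1 k).continuous (hχ3 k) hc hcd hχ0
    have e1 : ∀ (m : Fin M) (t : ℝ), ‖syn T (ch M x) (fun j => pr (Tn n (g j))) m t‖ =
        ‖F (x * zt M ^ (m : ℕ) * ((√t : ℝ) : ℂ))‖ := by
      intro m t
      rw [syn_val (k := -(n : ℤ)) (fun j => cl_Tn' (hg j)) hM1 hx m t, hFv]
    have e2 : ∀ (m : Fin M) (t : ℝ), ‖syn T (ch M x) (fun j => pr (g j)) m t‖ =
        ‖f (x * zt M ^ (m : ℕ) * ((√t : ℝ) : ℂ))‖ := by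
      intro m t
      rw [syn_val (k := (n : ℤ)) hg hM1 hx m t, hfv]
    simp_rw [e1, e2] at hd
    have e3 : ∀ (m : Fin M) (t : ℝ), χ k (Complex.normSq (x * zt M ^ (m : ℕ) * ((√t : ℝ) : ℂ))) =
        χ k t := by
      intro m t
      rw [map_mul, Complex.normSq_eq_norm_sq (x * zt M ^ (m : ℕ)), norm_b hM1 hx,
        Complex.normSq_ofReal, one_pow, one_mul]
      rcases le_or_gt 0 t with h | h
      · rw [Real.mul_self_sqrt h]
      · rw [Real.sqrt_eq_zero_of_nonpos h.le, mul_zero, hχ0 0 (fun h1 => by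
          have := h1.1
          linarith), hχ0 t (fun h1 => by
          have := h1.1
          linarith)]
    simp only [e3]
    exact hd
  have hlim : ∀ᵐ z : ℂ, liminf (fun k => ENNReal.ofReal (χ k (Complex.normSq z) *
      ‖F z‖ ^ p)) atTop = ‖F z‖ₑ ^ p := by
    filter_upwards [ne0] with z hz
    have hz0 : 0 < Complex.normSq z := Complex.normSq_pos.2 hz
    obtain ⟨N, hN⟩ := exists_nat_gt (max (Complex.normSq z) (1 / Complex.normSq z))
    apply Tendsto.liminf_eq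
    refine tendsto_const_nhds.congr' ?_
    filter_upwards [eventually_ge_atTop N] with k hk'
    have hk'' : (N : ℝ) ≤ k := by exact_mod_cast hk'
    have h6 : Complex.normSq z < N := lt_of_le_of_lt (le_max_left _ _) hN
    have h7 : 1 / Complex.normSq z < N := lt_of_le_of_lt (le_max_right _ _) hN
    rw [hχ4 k _ ?_ ?_, one_mul, ← ofReal_norm,
      ENNReal.ofReal_rpow_of_nonneg (norm_nonneg _) hp0.le]
    · rw [div_le_iff₀ (by positivity)]
      rw [div_lt_iff₀ hz0] at h7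
      nlinarith
    · rw [one_div_one_div]
      linarith
  calc ∫⁻ z, ‖F z‖ₑ ^ p = ∫⁻ z, liminf (fun k => ENNReal.ofReal (χ k (Complex.normSq z) *
      ‖F z‖ ^ p)) atTop :=
        (lintegral_congr_ae hlim).symm
    _ ≤ liminf (fun k => ∫⁻ z : ℂ, ENNReal.ofReal (χ k (Complex.normSq z) *
      ‖F z‖ ^ p)) atTop := by
        refine lintegral_liminf_le fun k => ?_
        refine Measurable.ennreal_ofReal ?_
        exact (((hχ1 k).continuous.comp Complex.continuous_normSq).mul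
          (hFc.norm.rpow_const fun x => Or.inr hp0.le)).measurable
    _ ≤ _ := by
        refine (liminf_le_liminf (Eventually.of_forall hk2)).trans ?_
        rw [liminf_const]

end Pool.Agent.H93W.W7
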