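import Pool.Agent.H93W.W7

/-!
Schwartz functions which are sums of several classes.
-/

set_option autoImplicit false

open MeasureTheory Set Filter Topology
open scoped ENNReal ContDiff SchwartzMap

namespace Pool.Agent.H93W.W8

open Pool.Agent.H93W.RT Pool.Agent.H93W.Kern Pool.Agent.H93W.Op Pool.Agent.H93W.W1
open Pool.Agent.H93W.W7 Pool.Agent.H93W.Dual
open Pool.Agent.Y282.RB

lemma exists_trunc {k : ℕ → ℤ} (g : ℕ → 𝓢(ℂ, ℂ)) (hg : ∀ j, Cl (k j) (g j)) (ε : ℝ) (h0 : 0 < ε)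
    (h1 : ε < 1) :
    ∃ (h : ℕ → 𝓢(ℂ, ℂ)) (χ : ℝ → ℝ), (∀ j, Cl (k j) (h j)) ∧ (∀ j, Ann (h j)) ∧
      (∀ x, 0 ≤ χ x ∧ χ x ≤ 1) ∧ (∀ j z, h j z = (χ (Complex.normSq z) : ℂ) * g j z) ∧
      ∀ x, ε ≤ x → x ≤ 1 / ε → χ x = 1 := by
  obtain ⟨χ, R, hχ1, hχ2, hχ3, hχ4, hχ5, hχ6⟩ := K.exists_cut ε h0 h1
  have hns : ContDiff ℝ ∞ (Complex.normSq : ℂ → ℝ) := by
    have e : (Complex.normSq : ℂ → ℝ) = fun z => z.re * z.re + z.im * z.im := by
      funext z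
      exact Complex.normSq_apply z
    rw [e]
    exact (Complex.reCLM.contDiff.mul Complex.reCLM.contDiff).add
      (Complex.imCLM.contDiff.mul Complex.imCLM.contDiff)
  have hrs : ∀ j, ContDiff ℝ ∞ (fun z : ℂ => (χ (Complex.normSq z) : ℂ) * g j z) := fun j =>
    (Complex.ofRealCLM.contDiff.comp (hχ1.comp hns)).mul ((g j).smooth ⊤)
  have hrc : ∀ j, HasCompactSupport (fun z : ℂ => (χ (Complex.normSq z) : ℂ) * g j z) := by
    intro j
    refine HasCompactSupport.intro (isCompact_closedBall (0 : ℂ) (max R 1)) fun z hz => ?_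
    rw [Metric.mem_closedBall, dist_zero_right, not_le] at hz
    rw [hχ6 _ ?_]
    · simp
    · rw [Complex.normSq_eq_norm_sq]
      have h2 : R < ‖z‖ := lt_of_le_of_lt (le_max_left _ _) hz
      have h3 : 1 < ‖z‖ := lt_of_le_of_lt (le_max_right _ _) hz
      nlinarith
  refine ⟨fun j => (hrc j).toSchwartzMap (hrs j), χ, fun j a z ha => ?_,
    fun j => ⟨ε / 2, max R ε, by linarith, ?_, fun z hz => ?_⟩, hχ3, fun j z => rfl, hχ4⟩
  · show (χ (Complex.normSq (a * z)) : ℂ) * g j (a * z) =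
      a ^ (k j) * ((χ (Complex.normSq z) : ℂ) * g j z)
    rw [hg j a z ha, map_mul, Complex.normSq_eq_norm_sq a, ha]
    ring_nf
  · refine lt_of_lt_of_le ?_ (le_max_right _ _)
    linarith
  · show (χ (Complex.normSq z) : ℂ) * g j z = 0
    have : χ (Complex.normSq z) = 0 := by
      rcases le_or_gt (Complex.normSq z) (ε / 2) with h | h
      · exact hχ5 _ h
      · refine hχ6 _ ?_
        by_contra h'
        exact hz ⟨h.le, (not_le.1 h').le.trans (le_max_left _ _)⟩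
    rw [this]
    simp

lemma coe_sum (g : ℕ → 𝓢(ℂ, ℂ)) (T : Finset ℕ) (z : ℂ) :
    (∑ j ∈ T, g j : 𝓢(ℂ, ℂ)) z = ∑ j ∈ T, g j z := by
  induction T using Finset.induction_on with
  | empty => simp
  | insert i s hi ih => rw [Finset.sum_insert hi, Finset.sum_insert hi, add_apply, ih]

lemma Tn_zero (n : ℕ) (z : ℂ) : Tn n (0 : 𝓢(ℂ, ℂ)) z = 0 := by
  have h := congrFun (K.Tn_add n (0 : 𝓢(ℂ, ℂ)) 0) z
  rw [add_zero] at h
  exact left_eq_add.1 h

lemma Tn_sum (n : ℕ) (g : ℕ → 𝓢(ℂ, ℂ)) (T : Finset ℕ) (z : ℂ) :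
    Tn n (∑ j ∈ T, g j : 𝓢(ℂ, ℂ)) z = ∑ j ∈ T, Tn n (g j) z := by
  induction T using Finset.induction_on with
  | empty => simpa using Tn_zero n z
  | insert i s hi ih =>
    rw [Finset.sum_insert hi, Finset.sum_insert hi, K.Tn_add]
    simp only
    rw [ih]

/-- the bound on the plane for Schwartz functions with all classes -/
theorem schwartz1 {n : ℕ} (hn : 1 ≤ n) {T : Finset ℕ} {g : ℕ → 𝓢(ℂ, ℂ)}
    (hg : ∀ j : ℕ, Cl ((n : ℤ) - j) (g j)) {p : ℝ} (hp : 2 < p) :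
    eLpNorm (Tn n (∑ j ∈ T, g j : 𝓢(ℂ, ℂ))) (ENNReal.ofReal p) (volume : Measure ℂ) ≤
      ENNReal.ofReal (BB n T ^ (1 - 2 / p)) *
        eLpNorm (⇑(∑ j ∈ T, g j : 𝓢(ℂ, ℂ))) (ENNReal.ofReal p) (volume : Measure ℂ) := by
  have hp0 : 0 < p := by linarith
  have hP0 : ENNReal.ofReal p ≠ 0 := by
    rw [ne_eq, ENNReal.ofReal_eq_zero, not_le]
    exact hp0
  have hPt : (ENNReal.ofReal p).toReal = p := ENNReal.toReal_ofReal hp0.le
  have hB0 := BB_nonneg n T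
  have hB1 : 0 ≤ BB n T ^ (1 - 2 / p) := Real.rpow_nonneg hB0 _
  obtain ⟨C, hC⟩ : ∃ C, C = BB n T ^ (1 - 2 / p) := ⟨_, rfl⟩
  rw [← hC] at hB1 ⊢
  have hcomp : ∀ h : ℕ → 𝓢(ℂ, ℂ), (∀ j : ℕ, Cl ((n : ℤ) - j) (h j)) → (∀ j, Ann (h j)) →
      eLpNorm (Tn n (∑ j ∈ T, h j : 𝓢(ℂ, ℂ))) (ENNReal.ofReal p) (volume : Measure ℂ) ≤
      ENNReal.ofReal C * eLpNorm (⇑(∑ j ∈ T, h j : 𝓢(ℂ, ℂ))) (ENNReal.ofReal p)
        (volume : Measure ℂ) := by
    intro h h1 h2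
    rw [eLpNorm_eq_lintegral_rpow_enorm_toReal hP0 ENNReal.ofReal_ne_top,
      eLpNorm_eq_lintegral_rpow_enorm_toReal hP0 ENNReal.ofReal_ne_top, hPt]
    have h3 := compact (T := T) hn h1 h2 hp
    rw [← hC] at h3
    simp_rw [Tn_sum, coe_sum]
    calc (∫⁻ z, ‖∑ j ∈ T, Tn n (h j) z‖ₑ ^ p) ^ (1 / p) ≤
        (ENNReal.ofReal (C ^ p) * ∫⁻ z, ‖∑ j ∈ T, h j z‖ₑ ^ p) ^ (1 / p) :=
          ENNReal.rpow_le_rpow h3 (by positivity)
      _ = ENNReal.ofReal C * (∫⁻ z, ‖∑ j ∈ T, h j z‖ₑ ^ p) ^ (1 / p) := by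
          rw [ENNReal.mul_rpow_of_nonneg _ _ (by positivity),
            ENNReal.ofReal_rpow_of_nonneg (by positivity) (by positivity), ← Real.rpow_mul hB1,
            mul_one_div_cancel hp0.ne', Real.rpow_one]
  have hk : ∀ k : ℕ, (0 : ℝ) < 1 / ((k : ℝ) + 2) ∧ 1 / ((k : ℝ) + 2) < 1 := by
    intro k
    have : (0 : ℝ) ≤ k := Nat.cast_nonneg k
    refine ⟨by positivity, ?_⟩
    rw [div_lt_one (by linarith)]
    linarith
  choose h χ hcl hann hχ hval hone using fun k : ℕ =>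
    exists_trunc g hg (1 / ((k : ℝ) + 2)) (hk k).1 (hk k).2
  obtain ⟨f, hf⟩ : ∃ f : 𝓢(ℂ, ℂ), f = ∑ j ∈ T, g j := ⟨_, rfl⟩
  obtain ⟨H, hH⟩ : ∃ H : ℕ → 𝓢(ℂ, ℂ), H = fun k => ∑ j ∈ T, h k j := ⟨_, rfl⟩
  rw [← hf]
  have hHv : ∀ k z, H k z = (χ k (Complex.normSq z) : ℂ) * f z := by
    intro k z
    rw [hH, hf]
    simp only
    rw [coe_sum, coe_sum, Finset.mul_sum]
    exact Finset.sum_congr rfl fun j _ => hval k j z
  have hle1 : ∀ k z, ‖H k z‖ ≤ ‖f z‖ := by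
    intro k z
    rw [hHv, norm_mul, Complex.norm_real, Real.norm_of_nonneg (hχ k _).1]
    exact mul_le_of_le_one_left (norm_nonneg _) (hχ k _).2
  have hdif : ∀ k z, (f - H k) z = ((1 - χ k (Complex.normSq z) : ℝ) : ℂ) * f z := by
    intro k z
    rw [sub_apply, hHv]
    push_cast
    ring
  have hle2 : ∀ k z, ‖(f - H k) z‖ ≤ ‖f z‖ := by
    intro k z
    rw [hdif, norm_mul, Complex.norm_real,
      Real.norm_of_nonneg (by linarith [(hχ k (Complex.normSq z)).2])]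
    exact mul_le_of_le_one_left (norm_nonneg _) (by linarith [(hχ k (Complex.normSq z)).1])
  set KK : ℝ≥0∞ := ENNReal.ofReal (Pool.Agent.TH55.PowA.Cn n * (p - 1)) with hKK
  have hKt : KK ≠ ⊤ := ENNReal.ofReal_ne_top
  have hP1 : (1 : ℝ≥0∞) ≤ ENNReal.ofReal p := by
    rw [← ENNReal.ofReal_one]
    exact ENNReal.ofReal_le_ofReal (by linarith)
  have hbound : ∀ k, eLpNorm (Tn n f) (ENNReal.ofReal p) (volume : Measure ℂ) ≤
      KK * eLpNorm (f - H k : 𝓢(ℂ, ℂ)) (ENNReal.ofReal p) (volume : Measure ℂ) +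
        ENNReal.ofReal C * eLpNorm (⇑f) (ENNReal.ofReal p) (volume : Measure ℂ) := by
    intro k
    have e1 : Tn n f = fun z => Tn n (f - H k : 𝓢(ℂ, ℂ)) z + Tn n (H k) z := by
      rw [← K.Tn_add]
      congr 2
      rw [sub_add_cancel]
    rw [e1]
    refine (eLpNorm_add_le (Tn_cont n _).aestronglyMeasurable (Tn_cont n _).aestronglyMeasurable
      hP1).trans (add_le_add ?_ ?_)
    · rw [K.Tn_eq]
      exact Pool.Agent.TH55.PowA.main p hp.le n hn (f - H k)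
    · have h5 := hcomp (h k) (hcl k) (hann k)
      have e2 : (∑ j ∈ T, h k j : 𝓢(ℂ, ℂ)) = H k := by rw [hH]
      rw [e2] at h5
      refine h5.trans ?_
      gcongr
      exact eLpNorm_mono (hle1 k)
  have hlim : Tendsto (fun k => KK * eLpNorm (f - H k : 𝓢(ℂ, ℂ)) (ENNReal.ofReal p)
      (volume : Measure ℂ) + ENNReal.ofReal C * eLpNorm (⇑f) (ENNReal.ofReal p)
        (volume : Measure ℂ)) atTop (𝓝 (KK * 0 + ENNReal.ofReal C * eLpNorm (⇑f) (ENNReal.ofReal p)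
          (volume : Measure ℂ))) := by
    refine Tendsto.add ?_ tendsto_const_nhds
    refine ENNReal.Tendsto.const_mul ?_ (Or.inr hKt)
    refine K.tendsto_trunc f (fun k => f - H k) p hp.le (fun k z => hle2 k z) fun k z hz1 hz2 => ?_
    rw [hdif, hone k _ hz1 (by rw [one_div_one_div]; exact hz2)]
    simp
  rw [mul_zero, zero_add] at hlim
  exact ge_of_tendsto' hlim hbound

/-- the bound on the plane for Schwartz functions -/
theorem schwartz {n J : ℕ} (hn : 1 ≤ n) {T : Finset ℕ} (hT : ∀ j ∈ T, j ≤ J) {g : ℕ → 𝓢(ℂ, ℂ)}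
    (hg : ∀ j ∈ T, Cl ((n : ℤ) - j) (g j)) {p : ℝ} (hp : 2 < p) :
    eLpNorm (Tn n (∑ j ∈ T, g j : 𝓢(ℂ, ℂ))) (ENNReal.ofReal p) (volume : Measure ℂ) ≤
      ENNReal.ofReal ((Real.sqrt T.card + Real.sqrt (AT n T * Real.log (1 + n + J))) ^ (1 - 2 / p)) *
        eLpNorm (⇑(∑ j ∈ T, g j : 𝓢(ℂ, ℂ))) (ENNReal.ofReal p) (volume : Measure ℂ) := by
  have hp0 : 0 < p := by linarith
  obtain ⟨g', hg'⟩ : ∃ g' : ℕ → 𝓢(ℂ, ℂ), g' = fun j => if j ∈ T then g j else 0 := ⟨_, rfl⟩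
  have e : (∑ j ∈ T, g j : 𝓢(ℂ, ℂ)) = ∑ j ∈ T, g' j := by
    refine Finset.sum_congr rfl fun j hj => ?_
    rw [hg']
    simp only [hj, if_true]
  have h1 := schwartz1 (T := T) (g := g') hn (fun j => by
    rw [hg']
    by_cases hj : j ∈ T
    · simp only [hj, if_true]
      exact hg j hj
    · simp only [hj, if_false]
      intro a z _
      simp) hp
  rw [e]
  refine h1.trans ?_
  have h2 := (GT_l1 (J := J) hn T hT).2
  have h4 : 0 ≤ 1 - 2 / p := by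
    rw [sub_nonneg, div_le_one hp0]
    exact hp.le
  have h5 := BB_nonneg n T
  gcongr
  unfold BB
  linarith

end Pool.Agent.H93W.W8
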