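import Pool.Agent.H93W.W8
import Pool.Agent.H93W.Const

/-!
Comparison of the constants for several classes.
-/

set_option autoImplicit false

open MeasureTheory Set Filter Topology

namespace Pool.Agent.H93W.W9

open Pool.Agent.H93W.W1

lemma const_le {n : ℕ} {p B : ℝ} (hp : 2 ≤ p) (hB : 0 ≤ B) (h : B ≤ 7.389 * n) :
    B ^ (1 - 2 / p) ≤ (n : ℝ) ^ (1 - 2 / p) * (p - 1) := by
  have hp0 : 0 < p := by linarith
  have hn : (0 : ℝ) ≤ n := Nat.cast_nonneg n
  obtain ⟨u, hu⟩ : ∃ u : ℝ, u = 1 - 2 / p := ⟨_, rfl⟩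
  have hu0 : 0 ≤ u := by
    rw [hu, sub_nonneg, div_le_one hp0]
    exact hp
  have hu1 : u < 1 := by
    rw [hu]
    have : 0 < 2 / p := by positivity
    linarith
  have e : (1 + u) / (1 - u) = p - 1 := by
    rw [hu]
    field_simp
    ring
  have h1 := Const.log_ratio hu0 hu1
  rw [e] at h1
  have h2 : Real.exp (2 * u) ≤ p - 1 := by
    rw [← Real.exp_log (show 0 < p - 1 by linarith)]
    exact Real.exp_le_exp.2 h1
  have h3 : (7.389 : ℝ) ≤ Real.exp 2 := by
    have h4 := Real.exp_one_gt_d9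
    have h5 : Real.exp 2 = Real.exp 1 * Real.exp 1 := by
      rw [← Real.exp_add]
      norm_num
    rw [h5]
    nlinarith
  rw [← hu]
  calc B ^ u ≤ (Real.exp 2 * n) ^ u := by
        refine Real.rpow_le_rpow hB (h.trans ?_) hu0
        gcongr
    _ = Real.exp (2 * u) * (n : ℝ) ^ u := by
        rw [Real.mul_rpow (Real.exp_pos _).le hn, ← Real.exp_mul]
    _ ≤ (p - 1) * (n : ℝ) ^ u := by gcongr
    _ = _ := mul_comm _ _

lemma window {n J : ℕ} (hJ : J ≤ n) {T : Finset ℕ} (hT : ∀ j ∈ T, j ≤ J) :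
    Real.sqrt T.card + Real.sqrt (AT n T * Real.log (1 + n + J)) ≤
      (J + 1) * (1 + Real.sqrt (Real.log (1 + 2 * n))) := by
  have hJ0 : (0 : ℝ) ≤ J := Nat.cast_nonneg J
  have hn0 : (0 : ℝ) ≤ n := Nat.cast_nonneg n
  have hJn : (J : ℝ) ≤ n := by exact_mod_cast hJ
  have hsub : T ⊆ Finset.range (J + 1) := fun j hj => Finset.mem_range.2 (Nat.lt_succ_of_le (hT j hj))
  have hc : (T.card : ℝ) ≤ J + 1 := by
    have := Finset.card_le_card hsub
    rw [Finset.card_range] at this
    exact_mod_cast this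
  have h1 : Real.sqrt T.card ≤ J + 1 := by
    rw [Real.sqrt_le_left (by positivity)]
    nlinarith
  have hA : AT n T ≤ (J + 1) ^ 2 := by
    have h2 : AT n T ≤ ∑ j ∈ Finset.range (J + 1), (2 * (j : ℝ)) := by
      refine (Finset.sum_le_sum fun j _ => ?_).trans
        (Finset.sum_le_sum_of_subset_of_nonneg hsub fun j _ _ => by positivity)
      unfold AJ
      have hj0 : (0 : ℝ) ≤ j := Nat.cast_nonneg j
      rcases eq_or_lt_of_le hn0 with h | h
      · rw [← h]
        simp
      · rw [div_le_iff₀ (by positivity)]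
        nlinarith
    have h3 : ∑ j ∈ Finset.range (J + 1), (2 * (j : ℝ)) = (J + 1) * J := by
      have h4 := Finset.sum_range_id_mul_two (J + 1)
      have h5 : ((∑ i ∈ Finset.range (J + 1), i : ℕ) : ℝ) * 2 = ((J + 1 : ℕ) : ℝ) * ((J + 1 - 1 : ℕ) : ℝ) := by
        exact_mod_cast h4
      rw [Nat.add_sub_cancel] at h5
      push_cast at h5
      rw [← Finset.mul_sum]
      linarith
    rw [h3] at h2
    nlinarith
  have hL : Real.log (1 + n + J) ≤ Real.log (1 + 2 * n) :=
    Real.log_le_log (by positivity) (by linarith)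
  have hL0 : 0 ≤ Real.log (1 + n + J) := Real.log_nonneg (by linarith)
  have h6 : Real.sqrt (AT n T * Real.log (1 + n + J)) ≤ (J + 1) * Real.sqrt (Real.log (1 + 2 * n)) := by
    have h7 : ((J : ℝ) + 1) * Real.sqrt (Real.log (1 + 2 * n)) =
        Real.sqrt ((J + 1) ^ 2 * Real.log (1 + 2 * n)) := by
      rw [Real.sqrt_mul (by positivity), Real.sqrt_sq (by positivity)]
    rw [h7]
    refine Real.sqrt_le_sqrt ?_
    exact mul_le_mul hA hL hL0 (by positivity)
  linarith

lemma full {n : ℕ} (hn : 1 ≤ n) (hn2 : n ≤ 10 ^ 17) :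
    ((n : ℝ) + 1) * (1 + Real.sqrt (Real.log (1 + 2 * n))) ≤ 7.389 * n := by
  have hn1 : (1 : ℝ) ≤ n := by exact_mod_cast hn
  rcases lt_or_ge n 114 with h | h
  · have h1 : (n : ℝ) ≤ 113 := by
      have : n ≤ 113 := by omega
      exact_mod_cast this
    have h2 : Real.log (1 + 2 * n) ≤ 8 * Real.log 2 := by
      have e : (8 : ℝ) * Real.log 2 = Real.log (2 ^ 8) := by
        rw [Real.log_pow]
        norm_num
      rw [e]
      refine Real.log_le_log (by positivity) ?_
      norm_num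
      linarith
    have h3 := Real.log_two_lt_d9
    have h4 : Real.sqrt (Real.log (1 + 2 * n)) ≤ 2.36 := by
      rw [Real.sqrt_le_left (by norm_num)]
      norm_num
      linarith
    nlinarith
  · have h1 : (114 : ℝ) ≤ n := by exact_mod_cast h
    have h2 : (n : ℝ) ≤ 10 ^ 17 := by exact_mod_cast hn2
    have h3 : Real.log (1 + 2 * n) ≤ 40 := by
      rw [Real.log_le_iff_le_exp (by positivity)]
      have h5 : (2.718 : ℝ) ^ 40 ≤ Real.exp 40 := by
        have h6 : Real.exp 40 = Real.exp 1 ^ 40 := by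
          rw [← Real.exp_nat_mul]
          norm_num
        rw [h6]
        have h7 := Real.exp_one_gt_d9
        gcongr
        linarith
      have h8 : (1 : ℝ) + 2 * 10 ^ 17 ≤ 2.718 ^ 40 := by norm_num
      linarith
    have h4 : Real.sqrt (Real.log (1 + 2 * n)) ≤ 6.3246 := by
      rw [Real.sqrt_le_left (by norm_num)]
      norm_num
      linarith
    nlinarith

end Pool.Agent.H93W.W9
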